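import Mathlib

section

set_option linter.unusedSectionVars false
set_option linter.unusedVariables false

/-!
# Dense linear orders with a priority

`Λ` is a linear order with an injective map `pr` to a well-order such that every element has only
countably many ancestors (`y` is an ancestor of `x` if `y` has the least priority in the interval
between `x` and `y`), and in which between two countable sets `A < B` there is a point.  Any two
such orders are isomorphic.
-/

namespace Pool.Agent.CPr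

/-- the ancestors of `x` -/
def Anc {Λ W : Type} [LinearOrder Λ] [LinearOrder W] (pr : Λ → W) (x : Λ) : Set Λ :=
  {y | ∀ z ∈ Set.uIcc x y, pr y ≤ pr z}

/-- between two countable sets `A < B` there is a point -/
def Eta (Λ : Type) [LinearOrder Λ] : Prop :=
  ∀ A B : Set Λ, A.Countable → B.Countable → (∀ a ∈ A, ∀ b ∈ B, a < b) →
    ∃ z, (∀ a ∈ A, a < z) ∧ ∀ b ∈ B, z < b

variable {Λ Λ' W W' : Type} [LinearOrder Λ] [LinearOrder Λ'] [LinearOrder W] [LinearOrder W']

/-- the elements of `Λ'` in the same position with respect to the images of the proper ancestors of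
`x` as `x` with respect to the ancestors -/
def Slot (pr : Λ → W) (F : Λ → Λ') (x : Λ) : Set Λ' :=
  {z | ∀ y ∈ Anc pr x, y ≠ x → (y < x → F y < z) ∧ (x < y → z < F y)}

/-- `F` maps every `x` to the element of least priority of its slot. -/
def IsTreapMap (pr : Λ → W) (pr' : Λ' → W') (F : Λ → Λ') : Prop :=
  ∀ x, F x ∈ Slot pr F x ∧ ∀ z ∈ Slot pr F x, pr' (F x) ≤ pr' z

/-- An element of least priority. -/
theorem slot_strictMono_least {X V : Type} [LinearOrder V] [WellFoundedLT V] (g : X → V)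
    {s : Set X} (hs : s.Nonempty) : ∃ z ∈ s, ∀ z' ∈ s, g z ≤ g z' := by
  obtain ⟨v, ⟨z, hz, rfl⟩, hv⟩ := (wellFounded_lt (α := V)).has_min (g '' s) (hs.image g)
  exact ⟨z, hz, fun z' hz' => not_lt.1 (hv (g z') ⟨z', hz', rfl⟩)⟩

/-- Between `x < z` there is a common ancestor `m` (the element of least priority of `[x, z]`), so
`F x ≤ F m ≤ F z`, for every map `F` with `F x ∈ Slot pr F x` for all `x`. -/
theorem slot_strictMono [WellFoundedLT W] {pr : Λ → W} (hpr : Function.Injective pr)
    {F : Λ → Λ'} (S : Set Λ) (hS : ∀ x ∈ S, Anc pr x ⊆ S) (hF : ∀ x ∈ S, F x ∈ Slot pr F x) :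
    ∀ x ∈ S, ∀ z ∈ S, x < z → F x < F z := by
  intro x hx z hz hxz
  obtain ⟨m, hm, hmin⟩ := slot_strictMono_least pr (Set.nonempty_Icc.2 hxz.le)
  have hmx : m ∈ Anc pr x := by
    intro w hw
    rw [Set.uIcc_of_le hm.1] at hw
    exact hmin w ⟨hw.1, hw.2.trans hm.2⟩
  have hmz : m ∈ Anc pr z := by
    intro w hw
    rw [Set.uIcc_of_ge hm.2] at hw
    exact hmin w ⟨hm.1.trans hw.1, hw.2⟩
  have hm1 : m ≠ x → F x < F m := fun h =>
    (hF x hx m hmx h).2 (lt_of_le_of_ne hm.1 (Ne.symm h))
  have hm2 : m ≠ z → F m < F z := fun h => (hF z hz m hmz h).1 (lt_of_le_of_ne hm.2 h)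
  by_cases h1 : m = x
  · subst h1
    exact hm2 hxz.ne
  · by_cases h2 : m = z
    · subst h2
      exact hm1 h1
    · exact (hm1 h1).trans (hm2 h2)

/-- Ancestors of proper ancestors are proper ancestors. -/
theorem exists_treapMap_anc {pr : Λ → W} (hpr : Function.Injective pr) {x y w : Λ}
    (hy : y ∈ Anc pr x) (hyx : y ≠ x) (hw : w ∈ Anc pr y) : w ∈ Anc pr x ∧ w ≠ x := by
  have h1 : pr w ≤ pr y := hw y Set.left_mem_uIcc
  have h2 : pr y < pr x := lt_of_le_of_ne (hy x Set.left_mem_uIcc) fun h => hyx (hpr h)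
  refine ⟨fun z hz => ?_, fun h => ?_⟩
  · rcases Set.uIcc_subset_uIcc_union_uIcc (b := y) hz with h3 | h3
    · exact h1.trans (hy z h3)
    · exact hw z h3
  · rw [h] at h1
    exact absurd h1 (not_le.2 h2)

/-- Existence, by recursion on the priority: if `F` is defined on all elements of smaller priority
with `F y ∈ Slot pr F y`, then it is strictly monotone on the proper ancestors of `x`
(`slot_strictMono` for `S` the set of proper ancestors, which is closed under ancestors), so the
slot of `x` is nonempty by `Eta`. -/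
theorem exists_treapMap [WellFoundedLT W] [WellFoundedLT W'] {pr : Λ → W} {pr' : Λ' → W'}
    (hpr : Function.Injective pr) (hanc : ∀ x, (Anc pr x).Countable) (heta : Eta Λ') :
    ∃ F : Λ → Λ', IsTreapMap pr pr' F := by
  classical
  obtain ⟨z₀, -, -⟩ := heta ∅ ∅ Set.countable_empty Set.countable_empty (by simp)
  have hwf : WellFounded fun y x : Λ => pr y < pr x := InvImage.wf pr wellFounded_lt
  obtain ⟨St, hSt⟩ : ∃ St : ∀ x : Λ, (∀ y, pr y < pr x → Λ') → Set Λ', St = fun x f =>
    {z | ∀ y (hy : pr y < pr x), y ∈ Anc pr x → (y < x → f y hy < z) ∧ (x < y → z < f y hy)} :=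
    ⟨_, rfl⟩
  obtain ⟨G, hG⟩ : ∃ G : ∀ x : Λ, (∀ y, pr y < pr x → Λ') → Λ', ∀ x f, (St x f).Nonempty →
      G x f ∈ St x f ∧ ∀ z ∈ St x f, pr' (G x f) ≤ pr' z := by
    refine ⟨fun x f => if h : (St x f).Nonempty then
      (slot_strictMono_least pr' h).choose else z₀, fun x f h => ?_⟩
    beta_reduce
    rw [dif_pos h]
    exact (slot_strictMono_least pr' h).choose_spec
  obtain ⟨F, hF⟩ : ∃ F : Λ → Λ', ∀ x, F x = G x fun y _ => F y :=
    ⟨hwf.fix G, fun x => hwf.fix_eq G x⟩
  have hSlot : ∀ x, St x (fun y _ => F y) = Slot pr F x := by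
    intro x
    rw [hSt]
    ext z
    constructor
    · intro h y hy hyx
      exact h y (lt_of_le_of_ne (hy x Set.left_mem_uIcc) fun h => hyx (hpr h)) hy
    · intro h y hlt hy
      exact h y hy fun h => by rw [h] at hlt; exact lt_irrefl _ hlt
  have key : ∀ x, F x ∈ Slot pr F x ∧ ∀ z ∈ Slot pr F x, pr' (F x) ≤ pr' z := by
    intro x
    induction x using hwf.induction with
    | _ x ih =>
      obtain ⟨S, hS⟩ : ∃ S : Set Λ, S = {y | y ∈ Anc pr x ∧ y ≠ x} := ⟨_, rfl⟩
      have hmono := slot_strictMono (pr := pr) hpr (F := F) S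
        (by
          rw [hS]
          rintro y ⟨hy, hyx⟩ w hw
          exact exists_treapMap_anc hpr hy hyx hw)
        (by
          rw [hS]
          rintro y ⟨hy, hyx⟩
          exact (ih y (lt_of_le_of_ne (hy x Set.left_mem_uIcc) fun h => hyx (hpr h))).1)
      have hSc : S.Countable := (hanc x).mono (by rw [hS]; exact fun y hy => hy.1)
      obtain ⟨z, hz1, hz2⟩ := heta (F '' {y ∈ S | y < x}) (F '' {y ∈ S | x < y})
        ((hSc.mono fun y hy => hy.1).image F) ((hSc.mono fun y hy => hy.1).image F)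
        (by
          rintro _ ⟨y, ⟨hy, hyx⟩, rfl⟩ _ ⟨y', ⟨hy', hyx'⟩, rfl⟩
          exact hmono y hy y' hy' (hyx.trans hyx'))
      have hne : (St x fun y _ => F y).Nonempty := by
        rw [hSlot]
        refine ⟨z, fun y hy hyx => ⟨fun h => hz1 _ ⟨y, ⟨?_, h⟩, rfl⟩,
          fun h => hz2 _ ⟨y, ⟨?_, h⟩, rfl⟩⟩⟩
        · rw [hS]; exact ⟨hy, hyx⟩
        · rw [hS]; exact ⟨hy, hyx⟩
      have h1 := hG x (fun y _ => F y) hne
      rw [← hF x, hSlot] at h1
      exact h1
  exact ⟨F, key⟩

/-- Surjectivity: suppose that `z'` is not in the range.  Let `S` be the set of all `x` with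
`F x ∈ Anc pr' z'`, a countable set, and let `x₀` be the element of least priority among all `x`
with `s < x` for `s ∈ S`, `F s < z'` and `x < s` for `s ∈ S`, `z' < F s` (`Eta`).  Each proper
ancestor `y` of `x₀` is not in this interval, so `y ≤ s` for some `s ∈ S` below `x₀` or `s ≤ y` for
some `s ∈ S` above; hence `z' ∈ Slot pr F x₀`, and `F x₀` is an ancestor of `z'` since the slot is
convex; so `x₀ ∈ S`, a contradiction. -/
theorem treapMap_surjective [WellFoundedLT W] [WellFoundedLT W'] {pr : Λ → W} {pr' : Λ' → W'}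
    (hpr : Function.Injective pr) (hpr' : Function.Injective pr')
    (hanc' : ∀ x, (Anc pr' x).Countable) (heta : Eta Λ) {F : Λ → Λ'}
    (hF : IsTreapMap pr pr' F) : Function.Surjective F := by
  have hmono : ∀ x z, x < z → F x < F z := fun x z hxz =>
    slot_strictMono hpr Set.univ (fun _ _ => Set.subset_univ _) (fun x _ => (hF x).1)
      x (Set.mem_univ _) z (Set.mem_univ _) hxz
  have hsm : StrictMono F := fun x z h => hmono x z h
  intro z'
  by_contra hz'
  push Not at hz'
  obtain ⟨S, hS⟩ : ∃ S : Set Λ, S = {x | F x ∈ Anc pr' z'} := ⟨_, rfl⟩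
  have hSc : S.Countable := by
    rw [hS]
    exact (hanc' z').preimage_of_injOn hsm.injective.injOn
  have hI : {x : Λ | (∀ a ∈ {s ∈ S | F s < z'}, a < x) ∧ ∀ b ∈ {s ∈ S | z' < F s}, x < b}.Nonempty :=
    heta {s ∈ S | F s < z'} {s ∈ S | z' < F s} (hSc.mono fun y hy => hy.1)
      (hSc.mono fun y hy => hy.1) fun a ha b hb => hsm.lt_iff_lt.1 (ha.2.trans hb.2)
  obtain ⟨x₀, ⟨hx1, hx2⟩, hmin⟩ := slot_strictMono_least pr hI
  have hz0 : z' ∈ Slot pr F x₀ := by
    intro y hy hyx
    have hlt : pr y < pr x₀ := lt_of_le_of_ne (hy x₀ Set.left_mem_uIcc) fun h => hyx (hpr h)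
    have hny : ¬ ((∀ a ∈ {s ∈ S | F s < z'}, a < y) ∧ ∀ b ∈ {s ∈ S | z' < F s}, y < b) :=
      fun h => absurd (hmin y h) (not_le.2 hlt)
    rw [not_and_or] at hny
    rcases hny with h | h
    · push Not at h
      obtain ⟨a, ha, hya⟩ := h
      refine ⟨fun _ => (hsm.le_iff_le.2 hya).trans_lt ha.2, fun h2 => ?_⟩
      exact absurd (h2.trans_le hya) (not_lt.2 (hx1 a ha).le)
    · push Not at h
      obtain ⟨b, hb, hby⟩ := h
      refine ⟨fun h2 => ?_, fun _ => lt_of_lt_of_le hb.2 (hsm.le_iff_le.2 hby)⟩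
      exact absurd (hby.trans_lt h2) (not_lt.2 (hx2 b hb).le)
  have hanc0 : F x₀ ∈ Anc pr' z' := by
    intro w hw
    refine (hF x₀).2 w fun y hy hyx => ?_
    obtain ⟨h1, h2⟩ := hz0 y hy hyx
    obtain ⟨h3, h4⟩ := (hF x₀).1 y hy hyx
    rw [Set.mem_uIcc] at hw
    refine ⟨fun h => ?_, fun h => ?_⟩
    · rcases hw with hw | hw
      · exact (h1 h).trans_le hw.1
      · exact (h3 h).trans_le hw.1
    · rcases hw with hw | hw
      · exact hw.2.trans_lt (h4 h)
      · exact hw.2.trans_lt (h2 h)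
  have hxS : x₀ ∈ S := by rw [hS]; exact hanc0
  rcases lt_or_gt_of_ne (hz' x₀) with h | h
  · exact lt_irrefl _ (hx1 x₀ ⟨hxS, h⟩)
  · exact lt_irrefl _ (hx2 x₀ ⟨hxS, h⟩)

theorem treap_iso [WellFoundedLT W] [WellFoundedLT W'] {pr : Λ → W} {pr' : Λ' → W'}
    (hpr : Function.Injective pr) (hpr' : Function.Injective pr')
    (hanc : ∀ x, (Anc pr x).Countable) (hanc' : ∀ x, (Anc pr' x).Countable)
    (heta : Eta Λ) (heta' : Eta Λ') :
    ∃ F : Λ → Λ', StrictMono F ∧ Function.Surjective F := by
  obtain ⟨F, hF⟩ := exists_treapMap (pr' := pr') hpr hanc heta'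
  refine ⟨F, fun x z hxz => ?_, treapMap_surjective hpr hpr' hanc' heta hF⟩
  exact slot_strictMono hpr Set.univ (fun _ _ => Set.subset_univ _) (fun x _ => (hF x).1)
    x (Set.mem_univ _) z (Set.mem_univ _) hxz

/-- An uncountable subset of a well-order contains a strictly increasing image of every well-order
with countable initial segments. -/
theorem exists_strictMono {Ω₁ : Type} [LinearOrder Ω₁] [WellFoundedLT Ω₁] [WellFoundedLT W]
    (hseg : ∀ ξ : Ω₁, (Set.Iio ξ).Countable) {A : Set W} (hA : ¬ A.Countable) :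
    ∃ u : Ω₁ → W, StrictMono u ∧ ∀ ξ, u ξ ∈ A := by
  rcases InitialSeg.total (fun a b : Ω₁ => a < b) (fun a b : A => a < b) with f | f
  · exact ⟨fun ξ => (f ξ : W), fun a b hab => f.map_rel_iff.2 hab, fun ξ => (f ξ).2⟩
  · rcases f.eq_or_principal with h | ⟨b, hb⟩
    · choose g hg using h
      refine ⟨fun ξ => (g ξ : W), fun a b hab => ?_, fun ξ => (g ξ).2⟩
      have h1 : f (g a) < f (g b) := by rw [hg, hg]; exact hab
      exact f.map_rel_iff.1 h1
    · exfalso
      refine hA (Set.countable_coe_iff.1 ?_)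
      have h1 : (Set.range f).Countable := (hseg b).mono fun x hx => (hb x).1 hx
      have h2 : Countable (Set.range f) := h1.to_subtype
      exact (Function.Injective.countable (f := Set.rangeFactorization f)
        fun x y hxy => f.injective (congrArg Subtype.val hxy))

end Pool.Agent.CPr
end

section

set_option linter.unusedSectionVars false
set_option linter.unusedVariables false

/-!
# Finite rank projections and compact operators
-/

namespace Pool.Agent.CPr

open Filter Topology

variable (H : Type) [NormedAddCommGroup H] [InnerProductSpace ℂ H] [CompleteSpace H]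
  [TopologicalSpace.SeparableSpace H]

/-- Orthogonal projections of finite rank converging strongly to the identity.
Hint: projections onto the span of the first `n` members of a dense sequence
(`Submodule.starProjection`, `Submodule.starProjection_norm_le`...). -/
theorem exists_EE : ∃ E : ℕ → (H →L[ℂ] H), (∀ n, star (E n) = E n ∧ E n * E n = E n ∧
    FiniteDimensional ℂ (E n).range) ∧ ∀ v, Tendsto (fun n => E n v) atTop (𝓝 v) := by
  classical
  let V : ℕ → Submodule ℂ H := fun n =>
    Submodule.span ℂ (TopologicalSpace.denseSeq H '' (Set.Iio n))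
  have hfin : ∀ n, FiniteDimensional ℂ (V n) := fun n =>
    FiniteDimensional.span_of_finite ℂ ((Set.finite_Iio n).image _)
  have hmono : Monotone V := fun m n hmn =>
    Submodule.span_mono (Set.image_mono fun x hx => lt_of_lt_of_le hx hmn)
  have hdense : ⊤ ≤ (⨆ n, V n).topologicalClosure := by
    intro v _
    have h1 : v ∈ closure (Set.range (TopologicalSpace.denseSeq H)) :=
      TopologicalSpace.denseRange_denseSeq H v
    refine closure_mono ?_ h1
    rintro _ ⟨n, rfl⟩
    exact Submodule.mem_iSup_of_mem (n + 1)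
      (Submodule.subset_span ⟨n, Nat.lt_succ_self n, rfl⟩)
  refine ⟨fun n => (V n).starProjection, fun n => ⟨?_, ?_, ?_⟩, fun v => ?_⟩
  · exact (isSelfAdjoint_starProjection (V n)).star_eq
  · exact (V n).isIdempotentElem_starProjection
  · rw [Submodule.range_starProjection]
    exact hfin n
  · exact Submodule.starProjection_tendsto_self V hmono v hdense

/-- finite rank projections converging strongly to the identity -/
noncomputable def EE : ℕ → (H →L[ℂ] H) := (exists_EE H).choose

theorem EE_star (n : ℕ) : star (EE H n) = EE H n := ((exists_EE H).choose_spec.1 n).1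

theorem EE_idem (n : ℕ) : EE H n * EE H n = EE H n := ((exists_EE H).choose_spec.1 n).2.1

theorem EE_fin (n : ℕ) : FiniteDimensional ℂ (EE H n).range :=
  ((exists_EE H).choose_spec.1 n).2.2

theorem EE_tendsto (v : H) : Tendsto (fun n => EE H n v) atTop (𝓝 v) :=
  (exists_EE H).choose_spec.2 v

variable {H}

/-- Operators of finite rank are compact. -/
theorem compact_of_finite {S : H →L[ℂ] H} (h : FiniteDimensional ℂ S.range) :
    IsCompactOperator ⇑S := by
  have hp : ProperSpace S.range := FiniteDimensional.proper ℂ S.range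
  let T : H →L[ℂ] S.range := S.rangeRestrict
  have hT : IsCompactOperator ⇑T := by
    refine ⟨Metric.closedBall 0 ‖T‖, isCompact_closedBall _ _, ?_⟩
    refine mem_of_superset (Metric.closedBall_mem_nhds (0:H) one_pos) ?_
    intro x hx
    simp only [Set.mem_preimage, Metric.mem_closedBall, dist_zero_right] at hx ⊢
    calc ‖T x‖ ≤ ‖T‖ * ‖x‖ := T.le_opNorm x
      _ ≤ ‖T‖ * 1 := by gcongr
      _ = ‖T‖ := mul_one _
  exact hT.clm_comp (S.range.subtypeL)

theorem compact_iff_norm_compl (n : ℕ) : ‖(1 - EE H n : H →L[ℂ] H)‖ ≤ 1 := by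
  have h1 : star (1 - EE H n) * (1 - EE H n) = 1 - EE H n := by
    rw [star_sub, star_one, EE_star, sub_mul, mul_sub, mul_sub, EE_idem]
    simp
  have h2 : ‖(1 - EE H n : H →L[ℂ] H)‖ = ‖(1 - EE H n : H →L[ℂ] H)‖ * ‖(1 - EE H n : H →L[ℂ] H)‖ := by
    rw [← CStarRing.norm_star_mul_self, h1]
  by_contra hcon
  rw [not_le] at hcon
  nlinarith [norm_nonneg (1 - EE H n : H →L[ℂ] H)]

/-- `⟸`: `S` is the norm limit of the finite rank operators `S * EE n` (the set of compact
operators is closed, `isClosed_setOf_isCompactOperator`).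
`⟹`: otherwise there is `ε > 0` and there are vectors `v n` with `‖v n‖ ≤ 1`,
`EE n (v n) = 0`, `‖S (v n)‖ ≥ ε` for all large `n`; take a convergent subsequence of `S (v n)`
with limit `w`; `⟪u, w⟫ = lim ⟪S* u, (1 - EE n) (v n)⟫ = lim ⟪(1 - EE n) (S* u), v n⟫ = 0` for all
`u`, so `w = 0`, a contradiction. -/
theorem compact_iff (S : H →L[ℂ] H) :
    IsCompactOperator ⇑S ↔ ∀ k : ℕ, ∃ n, ‖S * (1 - EE H n)‖ ≤ 1 / ((k : ℝ) + 1) := by
  constructor
  · intro hS k
    by_contra hcon
    push Not at hcon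
    set ε : ℝ := 1 / ((k : ℝ) + 1) with hε
    have hεpos : 0 < ε := by positivity
    have hex : ∀ n, ∃ x : H, ‖x‖ < 1 ∧ ε < ‖(S * (1 - EE H n)) x‖ := fun n =>
      ContinuousLinearMap.exists_lt_apply_of_lt_opNorm _ (hcon n)
    choose x hx1 hx2 using hex
    obtain ⟨K, hK, hK'⟩ := hS.image_closedBall_subset_compact (𝕜₁ := ℂ) 1
    have hmem : ∀ n, S ((1 - EE H n : H →L[ℂ] H) (x n)) ∈ K := by
      intro n
      apply hK'
      refine ⟨_, ?_, rfl⟩
      rw [mem_closedBall_zero_iff]
      calc ‖(1 - EE H n : H →L[ℂ] H) (x n)‖ ≤ ‖(1 - EE H n : H →L[ℂ] H)‖ * ‖x n‖ :=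
            ContinuousLinearMap.le_opNorm _ _
        _ ≤ 1 * 1 := by
            gcongr
            · exact compact_iff_norm_compl n
            · exact (hx1 n).le
        _ = 1 := one_mul 1
    obtain ⟨w, -, φ, hφ, hw⟩ := hK.tendsto_subseq hmem
    have hw' : Tendsto (fun n => S ((1 - EE H (φ n) : H →L[ℂ] H) (x (φ n)))) atTop (𝓝 w) := hw
    -- the limit is orthogonal to everything
    have hort : ∀ u : H, inner ℂ u w = 0 := by
      intro u
      have h1 : Tendsto (fun n => inner ℂ u (S ((1 - EE H (φ n) : H →L[ℂ] H) (x (φ n)))))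
          atTop (𝓝 (inner ℂ u w)) := Filter.Tendsto.inner tendsto_const_nhds hw'
      have h2 : Tendsto (fun n => inner ℂ u (S ((1 - EE H (φ n) : H →L[ℂ] H) (x (φ n)))))
          atTop (𝓝 0) := by
        rw [tendsto_zero_iff_norm_tendsto_zero]
        have h3 : Tendsto (fun n => ‖(1 - EE H (φ n) : H →L[ℂ] H) (star S u)‖) atTop (𝓝 0) := by
          have h4 : Tendsto (fun n => star S u - EE H (φ n) (star S u)) atTop (𝓝 0) := by
            have h5 := (EE_tendsto H (star S u)).comp hφ.tendsto_atTop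
            have h6 := (tendsto_const_nhds (x := star S u) (f := (atTop : Filter ℕ))).sub h5
            rw [sub_self] at h6
            exact h6
          exact (tendsto_zero_iff_norm_tendsto_zero.1 h4)
        refine squeeze_zero (fun n => norm_nonneg _) (fun n => ?_) h3
        have h7 : inner ℂ u (S ((1 - EE H (φ n) : H →L[ℂ] H) (x (φ n)))) =
            inner ℂ ((1 - EE H (φ n) : H →L[ℂ] H) (star S u)) (x (φ n)) := by
          have h8 : ContinuousLinearMap.adjoint (1 - EE H (φ n) : H →L[ℂ] H) =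
              (1 - EE H (φ n) : H →L[ℂ] H) := by
            rw [← ContinuousLinearMap.star_eq_adjoint, star_sub, star_one, EE_star]
          rw [← ContinuousLinearMap.adjoint_inner_left S, ← ContinuousLinearMap.adjoint_inner_left
            (1 - EE H (φ n) : H →L[ℂ] H), h8]
          rfl
        rw [h7]
        calc ‖inner ℂ ((1 - EE H (φ n) : H →L[ℂ] H) (star S u)) (x (φ n))‖
            ≤ ‖(1 - EE H (φ n) : H →L[ℂ] H) (star S u)‖ * ‖x (φ n)‖ := norm_inner_le_norm _ _
          _ ≤ ‖(1 - EE H (φ n) : H →L[ℂ] H) (star S u)‖ * 1 := by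
              gcongr
              exact (hx1 _).le
          _ = _ := mul_one _
      exact tendsto_nhds_unique h1 h2
    have hw0 : w = 0 := inner_self_eq_zero.1 (hort w)
    have hnorm : Tendsto (fun n => ‖S ((1 - EE H (φ n) : H →L[ℂ] H) (x (φ n)))‖) atTop (𝓝 ‖w‖) :=
      hw'.norm
    have hge : ε ≤ ‖w‖ := ge_of_tendsto' hnorm fun n => (hx2 (φ n)).le
    rw [hw0, norm_zero] at hge
    exact absurd hge (not_le.2 hεpos)
  · intro h
    choose n hn using h
    have hcomp : ∀ k, IsCompactOperator ⇑(S * EE H (n k)) := by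
      intro k
      exact (compact_of_finite (EE_fin H (n k))).clm_comp S
    have hlim : Tendsto (fun k => S * EE H (n k)) atTop (𝓝 S) := by
      rw [tendsto_iff_norm_sub_tendsto_zero]
      refine squeeze_zero (fun k => norm_nonneg _) (fun k => ?_) (tendsto_one_div_add_atTop_nhds_zero_nat (𝕜 := ℝ))
      rw [norm_sub_rev]
      have e : S - S * EE H (n k) = S * (1 - EE H (n k)) := by rw [mul_sub, mul_one]
      rw [e]
      exact hn k
    exact isCompactOperator_of_tendsto hlim (Eventually.of_forall hcomp)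

end Pool.Agent.CPr
end

section

set_option linter.unusedSectionVars false
set_option linter.unusedVariables false

namespace Pool.Agent.CPr

open Filter Topology

theorem k2_ext {H : Type} [NormedAddCommGroup H] [InnerProductSpace ℂ H] [CompleteSpace H]
    (d t : ℕ → H) (hd : DenseRange d) (N : ℕ)
    (h : ∀ a : ℕ →₀ ℂ, ‖Finsupp.linearCombination ℂ t a‖ ≤
      (N : ℝ) * ‖Finsupp.linearCombination ℂ d a‖) :
    ∃ T : H →L[ℂ] H, (∀ i, T (d i) = t i) ∧ ∀ x, ‖T x‖ ≤ N * ‖x‖ := by
  have hde : DenseRange (Finsupp.linearCombination ℂ d) := by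
    refine hd.mono ?_
    rintro _ ⟨i, rfl⟩
    exact ⟨Finsupp.single i 1, by simp⟩
  refine ⟨(Finsupp.linearCombination ℂ t).extendOfNorm (Finsupp.linearCombination ℂ d),
    fun i => ?_, LinearMap.norm_extendOfNorm_apply_le hde N h⟩
  have h1 := LinearMap.extendOfNorm_eq (f := Finsupp.linearCombination ℂ t) hde ⟨N, h⟩
    (Finsupp.single i 1)
  simpa using h1

/-- The bounded operators are the image of the Baire space under a map which is continuous for the
strong operator topology.
Hint: choose a Hilbert basis (or a sequence `b` of linearly independent vectors with dense span).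
The set `α` of all pairs `(N, t)`, `N : ℕ`, `t : ℕ → H` with
`‖∑ i ∈ s, a i • t i‖ ≤ N * ‖∑ i ∈ s, a i • b i‖` for all finite `s` and coefficients `a` is closed
in `ℕ × (ℕ → H)`, so it is Polish, and there is a continuous surjection `(ℕ → ℕ) → α`
(`exists_nat_nat_continuous_surjective`).  The operator of `(N, t)` is the extension of
`b i ↦ t i` (`ContinuousLinearMap.extend`); for fixed `N` and `v` it is continuous in `t`. -/
theorem exists_op (H : Type) [NormedAddCommGroup H] [InnerProductSpace ℂ H] [CompleteSpace H]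
    [TopologicalSpace.SeparableSpace H] :
    ∃ op : (ℕ → ℕ) → (H →L[ℂ] H), (∀ v, Continuous fun y => op y v) ∧
      Function.Surjective op := by
  classical
  set d : ℕ → H := TopologicalSpace.denseSeq H with hd
  have hdd : DenseRange d := TopologicalSpace.denseRange_denseSeq H
  set α : Set (ℕ × (ℕ → H)) := {p | ∀ a : ℕ →₀ ℂ, ‖Finsupp.linearCombination ℂ p.2 a‖ ≤
      (p.1 : ℝ) * ‖Finsupp.linearCombination ℂ d a‖} with hα
  have hcl : IsClosed α := by
    rw [hα, Set.ofPred_forall]
    refine isClosed_iInter fun a => isClosed_le ?_ ?_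
    · have : (fun p : ℕ × (ℕ → H) => Finsupp.linearCombination ℂ p.2 a) =
          fun p : ℕ × (ℕ → H) => ∑ i ∈ a.support, a i • p.2 i := by
        funext p
        rw [Finsupp.linearCombination_apply, Finsupp.sum]
      rw [show (fun p : ℕ × (ℕ → H) => ‖Finsupp.linearCombination ℂ p.2 a‖) =
        fun p => ‖(fun p : ℕ × (ℕ → H) => Finsupp.linearCombination ℂ p.2 a) p‖ from rfl, this]
      fun_prop
    · exact (continuous_of_discreteTopology.comp continuous_fst).mul continuous_const
  have : SecondCountableTopology H := UniformSpace.secondCountable_of_separable H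
  have : PolishSpace α := hcl.polishSpace
  have : Nonempty α := ⟨⟨(0, fun _ => 0), fun a => by
    simp [Finsupp.linearCombination_apply, Finsupp.sum]⟩⟩
  obtain ⟨g, hg, hgs⟩ := PolishSpace.exists_nat_nat_continuous_surjective α
  choose T hT1 hT2 using fun p : α => k2_ext d p.1.2 hdd p.1.1 p.2
  refine ⟨fun y => T (g y), fun v => ?_, fun S => ?_⟩
  · have hc : Continuous fun p : α => T p v := by
      rw [continuous_iff_continuousAt]
      intro p₀
      rw [Metric.continuousAt_iff']
      intro ε hε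
      obtain ⟨i, hi⟩ : ∃ i, ((p₀.1.1 : ℝ) + 1) * ‖v - d i‖ < ε / 3 := by
        obtain ⟨i, hi⟩ := hdd.exists_dist_lt v (show 0 < ε / 3 / ((p₀.1.1 : ℝ) + 1) by positivity)
        refine ⟨i, ?_⟩
        rw [dist_eq_norm, lt_div_iff₀ (by positivity)] at hi
        linarith
      have h1 : ∀ᶠ p : α in 𝓝 p₀, p.1.1 = p₀.1.1 := by
        have : Continuous fun p : α => p.1.1 := continuous_fst.comp continuous_subtype_val
        exact this.continuousAt.eventually (IsOpen.mem_nhds (isOpen_discrete {p₀.1.1}) rfl)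
      have h2 : ∀ᶠ p : α in 𝓝 p₀, dist (p.1.2 i) (p₀.1.2 i) < ε / 3 := by
        have : Continuous fun p : α => p.1.2 i :=
          (continuous_apply i).comp (continuous_snd.comp continuous_subtype_val)
        exact (Metric.continuousAt_iff'.mp this.continuousAt) (ε / 3) (by positivity)
      filter_upwards [h1, h2] with p hp1 hp2
      have h3 : ∀ q : α, q.1.1 = p₀.1.1 → ‖T q v - q.1.2 i‖ < ε / 3 := by
        intro q hq
        rw [← hT1 q i, ← map_sub]
        refine lt_of_le_of_lt (hT2 q _) (lt_of_le_of_lt ?_ hi)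
        rw [hq]
        nlinarith [norm_nonneg (v - d i)]
      have h4 := h3 p hp1
      have h5 := h3 p₀ rfl
      rw [dist_eq_norm] at hp2 ⊢
      have h6 : T p v - T p₀ v = (T p v - p.1.2 i) + (p.1.2 i - p₀.1.2 i) -
          (T p₀ v - p₀.1.2 i) := by abel
      rw [h6]
      have h7 := norm_sub_le ((T p v - p.1.2 i) + (p.1.2 i - p₀.1.2 i)) (T p₀ v - p₀.1.2 i)
      have h8 := norm_add_le (T p v - p.1.2 i) (p.1.2 i - p₀.1.2 i)
      linarith
    exact hc.comp hg
  · have hmem : (⌈‖S‖⌉₊, fun i => S (d i)) ∈ α := by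
      intro a
      have h1 : Finsupp.linearCombination ℂ (fun i => S (d i)) a =
          S (Finsupp.linearCombination ℂ d a) := by
        rw [Finsupp.linearCombination_apply, Finsupp.linearCombination_apply, Finsupp.sum,
          Finsupp.sum, map_sum]
        simp
      show ‖Finsupp.linearCombination ℂ (fun i => S (d i)) a‖ ≤ (⌈‖S‖⌉₊ : ℝ) * _
      rw [h1]
      exact (S.le_opNorm _).trans (mul_le_mul_of_nonneg_right (Nat.le_ceil _) (norm_nonneg _))
    obtain ⟨y, hy⟩ := hgs ⟨_, hmem⟩
    refine ⟨y, ?_⟩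
    show T (g y) = S
    rw [hy]
    have h2 : (T ⟨_, hmem⟩ : H → H) = (S : H → H) := by
      refine hdd.equalizer (T ⟨_, hmem⟩).continuous S.continuous ?_
      funext i
      exact hT1 ⟨_, hmem⟩ i
    exact DFunLike.coe_injective h2

end Pool.Agent.CPr
end

section

set_option linter.unusedSectionVars false
set_option linter.unusedVariables false

/-!
# Lifting projections from the Calkin algebra
-/

namespace Pool.Agent.CPr

open Filter Topology

variable {H : Type} [NormedAddCommGroup H] [InnerProductSpace ℂ H] [CompleteSpace H]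
  [TopologicalSpace.SeparableSpace H]

/-- `p` is an orthogonal projection. -/
def IsPr (p : H →L[ℂ] H) : Prop := star p = p ∧ p * p = p

/-- The spectrum of a self-adjoint operator `S` with `S² - S` compact does not contain `(0, 1)`.
Otherwise (spectral mapping) all `x² - x`, `0 < x < 1/2`, are nonzero elements of the spectrum of
the compact self-adjoint operator `S² - S`, so they are eigenvalues
(`IsCompactOperator.hasEigenvalue_iff_mem_spectrum`); eigenvectors of different eigenvalues are
orthogonal, and a separable space has no uncountable orthogonal family of nonzero vectors. -/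
theorem exists_gap {S : H →L[ℂ] H} (hS : IsSelfAdjoint S)
    (hc : IsCompactOperator ⇑(S * S - S : H →L[ℂ] H)) :
    ∃ t : ℝ, 0 < t ∧ t < 1 ∧ t ∉ spectrum ℝ S := by
  classical
  by_contra hcon
  push Not at hcon
  obtain ⟨T, hT⟩ : ∃ T : H →L[ℂ] H, T = S * S - S := ⟨_, rfl⟩
  rw [← hT] at hc
  have hTsa : IsSelfAdjoint T := by
    rw [hT]
    show star (S * S - S) = S * S - S
    rw [star_sub, star_mul, hS.star_eq]
  have hsym : (T : H →ₗ[ℂ] H).IsSymmetric := hTsa.isSymmetric
  -- the eigenvalues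
  have hspec : ∀ x : ℝ, 0 < x → x < 1 → ((x ^ 2 - x : ℝ) : ℂ) ∈ spectrum ℂ T := by
    intro x h0 h1
    have h2 : x ^ 2 - x ∈ spectrum ℝ T := by
      have h3 := spectrum.subset_polynomial_aeval (𝕜 := ℝ) S (Polynomial.X ^ 2 - Polynomial.X)
        ⟨x, hcon x h0 h1, rfl⟩
      have e : Polynomial.aeval S (Polynomial.X ^ 2 - Polynomial.X : Polynomial ℝ) = T := by
        rw [hT]; simp [pow_two]
      rw [e] at h3
      simpa using h3
    exact (spectrum.algebraMap_mem_iff ℂ (R := ℝ)).2 h2
  have hev : ∀ x : ℝ, ∃ v : H, x ∈ Set.Ioo (0 : ℝ) (1 / 2) → ‖v‖ = 1 ∧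
      v ∈ Module.End.eigenspace (T : H →ₗ[ℂ] H) ((x ^ 2 - x : ℝ) : ℂ) := by
    intro x
    by_cases hx : x ∈ Set.Ioo (0 : ℝ) (1 / 2)
    · have hne : ((x ^ 2 - x : ℝ) : ℂ) ≠ 0 := by
        rw [Ne, Complex.ofReal_eq_zero]
        have h1 := hx.1
        have h2 := hx.2
        nlinarith
      have h1 := (hc.hasEigenvalue_iff_mem_spectrum hne).2 (hspec x hx.1 (by linarith [hx.2]))
      obtain ⟨v, hv⟩ := h1.exists_hasEigenvector
      have hv0 : v ≠ 0 := hv.2
      have hn : ‖v‖ ≠ 0 := norm_ne_zero_iff.2 hv0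
      refine ⟨((‖v‖⁻¹ : ℝ) : ℂ) • v, fun _ => ⟨?_, ?_⟩⟩
      · rw [norm_smul, Complex.norm_real, norm_inv, norm_norm, inv_mul_cancel₀ hn]
      · exact Submodule.smul_mem _ _ hv.1
    · exact ⟨0, fun h => absurd h hx⟩
  choose v hv using hev
  have hdis : (Set.Ioo (0 : ℝ) (1 / 2)).PairwiseDisjoint fun x => Metric.ball (v x) (1 / 2) := by
    intro x hx y hy hxy
    refine Metric.ball_disjoint_ball ?_
    have hμ : ((x ^ 2 - x : ℝ) : ℂ) ≠ ((y ^ 2 - y : ℝ) : ℂ) := by
      intro h
      have h' : x ^ 2 - x = y ^ 2 - y := Complex.ofReal_injective h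
      have h1 : (x - y) * (x + y - 1) = 0 := by linarith
      rcases mul_eq_zero.1 h1 with h2 | h2
      · exact hxy (by linarith)
      · have := hx.2
        have := hy.2
        linarith
    have horth : inner ℂ (v x) (v y) = 0 :=
      hsym.orthogonalFamily_eigenspaces hμ ⟨v x, (hv x hx).2⟩ ⟨v y, (hv y hy).2⟩
    have h1 := norm_sub_sq (𝕜 := ℂ) (v x) (v y)
    rw [horth, (hv x hx).1, (hv y hy).1, map_zero] at h1
    rw [dist_eq_norm]
    nlinarith [norm_nonneg (v x - v y)]
  have hcount := hdis.countable_of_isOpen (fun _ _ => Metric.isOpen_ball)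
    (fun x _ => Metric.nonempty_ball.2 (by norm_num))
  have h1 := Cardinal.mk_Ioo_real (a := 0) (b := 1 / 2) (by norm_num)
  have h2 : Cardinal.mk (Set.Ioo (0 : ℝ) (1 / 2)) ≤ Cardinal.aleph0 :=
    Cardinal.mk_le_aleph0_iff.2 hcount.to_subtype
  rw [h1] at h2
  exact absurd Cardinal.aleph0_lt_continuum (not_lt.2 h2)

/-- Lifting: `r = cfc f S` with `f = 0` below and `f = 1` above the gap `t`; `f x - x = h x * (x² - x)`
with `h x = 1 / (1 - x)` for `x < t` and `h x = -1 / x` for `x > t`, continuous on the spectrum;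
and `f x = g x * x`, so `r * e = cfc g S * (S * e) = 0` if `S * e = 0`. -/
theorem exists_lift₀ {S : H →L[ℂ] H} (hS : IsSelfAdjoint S)
    (hc : IsCompactOperator ⇑(S * S - S : H →L[ℂ] H)) :
    ∃ r, IsPr r ∧ IsCompactOperator ⇑(r - S : H →L[ℂ] H) ∧ ∀ e, S * e = 0 → r * e = 0 := by
  obtain ⟨t, ht0, ht1, ht⟩ := exists_gap hS hc
  -- piecewise functions are continuous on the spectrum
  have hpw : ∀ u v : ℝ → ℝ, (∀ x, x < t → ContinuousAt u x) → (∀ x, t < x → ContinuousAt v x) →
      ContinuousOn (fun x => if x < t then u x else v x) (spectrum ℝ S) := by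
    intro u v hu hv x hx
    apply ContinuousAt.continuousWithinAt
    rcases lt_trichotomy x t with h | h | h
    · refine (hu x h).congr ?_
      filter_upwards [isOpen_Iio.mem_nhds h] with y hy
      rw [if_pos (show y < t from hy)]
    · exact absurd (h ▸ hx) ht
    · refine (hv x h).congr ?_
      filter_upwards [isOpen_Ioi.mem_nhds h] with y hy
      rw [if_neg (not_lt.mpr (le_of_lt (show t < y from hy)))]
  have hf : ContinuousOn (fun x : ℝ => if x < t then (0 : ℝ) else 1) (spectrum ℝ S) :=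
    hpw (fun _ => 0) (fun _ => 1) (fun _ _ => continuousAt_const) (fun _ _ => continuousAt_const)
  have hg : ContinuousOn (fun x : ℝ => if x < t then (0 : ℝ) else x⁻¹) (spectrum ℝ S) :=
    hpw (fun _ => 0) (fun x => x⁻¹) (fun _ _ => continuousAt_const)
      (fun x hx => continuousAt_inv₀ (by linarith))
  have hh : ContinuousOn (fun x : ℝ => if x < t then (1 - x)⁻¹ else -x⁻¹) (spectrum ℝ S) :=
    hpw (fun x => (1 - x)⁻¹) (fun x => -x⁻¹)
      (fun x hx => (continuousAt_const.sub continuousAt_id).inv₀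
        (show (1 : ℝ) - x ≠ 0 from fun h => by linarith))
      (fun x hx => (continuousAt_inv₀ (by linarith)).neg)
  have hid : cfc (fun x : ℝ => x) S = S := cfc_id' ℝ S
  refine ⟨cfc (fun x : ℝ => if x < t then (0 : ℝ) else 1) S, ⟨?_, ?_⟩, ?_, fun e he => ?_⟩
  · exact (cfc_predicate (fun x : ℝ => if x < t then (0 : ℝ) else 1) S).star_eq
  · rw [← cfc_mul _ _ S hf hf]
    congr 1
    funext x
    split_ifs <;> norm_num
  · have h1 : cfc (fun x : ℝ => if x < t then (0 : ℝ) else 1) S - S =
        cfc (fun x : ℝ => if x < t then (1 - x)⁻¹ else -x⁻¹) S * (S * S - S) := by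
      have h2 : (S * S - S : H →L[ℂ] H) = cfc (fun x : ℝ => x * x - x) S := by
        rw [cfc_sub (fun x : ℝ => x * x) (fun x : ℝ => x) S (by fun_prop) (by fun_prop),
          cfc_mul (fun x : ℝ => x) (fun x : ℝ => x) S (by fun_prop) (by fun_prop), hid]
      have h4 : cfc (fun x : ℝ => if x < t then (0 : ℝ) else 1) S - S =
          cfc (fun x : ℝ => (if x < t then (0 : ℝ) else 1) - x) S := by
        rw [cfc_sub _ (fun x : ℝ => x) S hf (by fun_prop), hid]
      rw [h2, h4, ← cfc_mul _ _ S hh (by fun_prop)]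
      apply cfc_congr
      intro x hx
      have hxt : x ≠ t := fun h => ht (h ▸ hx)
      show (if x < t then (0 : ℝ) else 1) - x = (if x < t then (1 - x)⁻¹ else -x⁻¹) * (x * x - x)
      split_ifs with h
      · have h3 : 1 - x ≠ 0 := by
          intro h4
          linarith
        field_simp
        ring
      · have h3 : x ≠ 0 := by
          rintro rfl
          exact h ht0
        field_simp
        ring
    rw [h1]
    exact hc.clm_comp (cfc (fun x : ℝ => if x < t then (1 - x)⁻¹ else -x⁻¹) S)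
  · have h1 : cfc (fun x : ℝ => if x < t then (0 : ℝ) else 1) S =
        cfc (fun x : ℝ => if x < t then (0 : ℝ) else x⁻¹) S * S := by
      have h4 : cfc (fun x : ℝ => if x < t then (0 : ℝ) else x⁻¹) S * S =
          cfc (fun x : ℝ => (if x < t then (0 : ℝ) else x⁻¹) * x) S := by
        rw [cfc_mul _ (fun x : ℝ => x) S hg (by fun_prop), hid]
      rw [h4]
      apply cfc_congr
      intro x hx
      show (if x < t then (0 : ℝ) else 1) = (if x < t then (0 : ℝ) else x⁻¹) * x
      split_ifs with h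
      · simp
      · have h3 : x ≠ 0 := by
          rintro rfl
          exact h ht0
        field_simp
    rw [h1, mul_assoc, he, mul_zero]

/-- The adjoint of a compact operator is compact. -/
theorem exists_lift_adj {S : H →L[ℂ] H} (h : IsCompactOperator ⇑S) :
    IsCompactOperator ⇑(star S : H →L[ℂ] H) := by
  have h1 : IsCompactOperator ⇑(S * star S : H →L[ℂ] H) := h.comp_clm (star S)
  have h2 := (isCompactOperator_iff_isCompact_closure_image_closedBall
    ((S * star S : H →L[ℂ] H) : H →ₗ[ℂ] H) (r := 1) zero_lt_one).1 h1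
  refine (isCompactOperator_iff_isCompact_closure_image_closedBall
    ((star S : H →L[ℂ] H) : H →ₗ[ℂ] H) (r := 1) zero_lt_one).2 ?_
  have h3 : TotallyBounded (⇑((S * star S : H →L[ℂ] H) : H →ₗ[ℂ] H) '' Metric.closedBall 0 1) :=
    h2.totallyBounded.subset subset_closure
  refine TotallyBounded.isCompact_of_isClosed (TotallyBounded.closure ?_) isClosed_closure
  rw [Metric.totallyBounded_iff]
  intro ε hε
  obtain ⟨t, ht1, ht2, ht3⟩ := Metric.finite_approx_of_totallyBounded h3 (ε ^ 2 / 4) (by positivity)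
  have ht1' : ∀ y ∈ t, ∃ x : H, x ∈ Metric.closedBall (0 : H) 1 ∧
      (S * star S : H →L[ℂ] H) x = y := fun y hy => by
    obtain ⟨x, hx, hxy⟩ := ht1 hy
    exact ⟨x, hx, hxy⟩
  choose! c hc1 hc2 using ht1'
  refine ⟨(fun y => star S (c y)) '' t, ht2.image _, ?_⟩
  rintro _ ⟨x, hx, rfl⟩
  have hx' : (S * star S : H →L[ℂ] H) x ∈ ⋃ y ∈ t, Metric.ball y (ε ^ 2 / 4) :=
    ht3 ⟨x, hx, rfl⟩
  simp only [Set.mem_iUnion] at hx' ⊢
  obtain ⟨y, hy, hxy⟩ := hx'
  refine ⟨star S (c y), ⟨y, hy, rfl⟩, ?_⟩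
  rw [Metric.mem_ball, dist_eq_norm] at hxy ⊢
  have h4 : ‖(star S : H →L[ℂ] H) x - (star S : H →L[ℂ] H) (c y)‖ ^ 2 ≤
      ‖x - c y‖ * ‖(S * star S : H →L[ℂ] H) x - y‖ := by
    have h5 : (S * star S : H →L[ℂ] H) x - y = S ((star S : H →L[ℂ] H) (x - c y)) := by
      have h11 : S ((star S : H →L[ℂ] H) (c y)) = y := hc2 y hy
      rw [map_sub, map_sub, h11]
      rfl
    rw [h5, ← map_sub]
    rw [← inner_self_eq_norm_sq (𝕜 := ℂ), ContinuousLinearMap.star_eq_adjoint,
      ContinuousLinearMap.adjoint_inner_left]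
    exact (RCLike.re_le_norm _).trans (norm_inner_le_norm _ _)
  have h6 : ‖x - c y‖ ≤ 2 := by
    have h7 := mem_closedBall_zero_iff.1 hx
    have h8 := mem_closedBall_zero_iff.1 (hc1 y hy)
    calc ‖x - c y‖ ≤ ‖x‖ + ‖c y‖ := norm_sub_le _ _
      _ ≤ 2 := by linarith
  have h9 : ‖(star S : H →L[ℂ] H) x - (star S : H →L[ℂ] H) (c y)‖ ^ 2 < ε ^ 2 := by
    have h10 : ‖x - c y‖ * ‖(S * star S : H →L[ℂ] H) x - y‖ ≤ 2 * (ε ^ 2 / 4) :=
      mul_le_mul h6 hxy.le (norm_nonneg _) (by norm_num)
    have : 0 < ε ^ 2 := by positivity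
    linarith
  exact lt_of_pow_lt_pow_left₀ 2 hε.le h9

/-- Lifting between two projections `p ≤ q`: apply `exists_lift₀` to
`S = (q - p) * ((1/2) • (t + star t)) * (q - p)` and take `p + r`. -/
theorem exists_lift {p q t : H →L[ℂ] H} (hp : IsPr p) (hq : IsPr q) (hpq : p * q = p)
    (ht : IsCompactOperator ⇑(star t - t : H →L[ℂ] H))
    (ht' : IsCompactOperator ⇑(t * t - t : H →L[ℂ] H))
    (h1 : IsCompactOperator ⇑(p * t - p : H →L[ℂ] H))
    (h2 : IsCompactOperator ⇑(t * q - t : H →L[ℂ] H)) :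
    ∃ r, IsPr r ∧ p * r = p ∧ r * q = r ∧ IsCompactOperator ⇑(r - t : H →L[ℂ] H) := by
  have hqp : q * p = p := by
    have := congrArg star hpq
    rwa [star_mul, hp.1, hq.1] at this
  -- the ideal of compact operators
  have madd : ∀ {a b : H →L[ℂ] H}, IsCompactOperator ⇑a → IsCompactOperator ⇑b →
      IsCompactOperator ⇑(a + b : H →L[ℂ] H) := fun ha hb => ha.add hb
  have msub : ∀ {a b : H →L[ℂ] H}, IsCompactOperator ⇑a → IsCompactOperator ⇑b →
      IsCompactOperator ⇑(a - b : H →L[ℂ] H) := fun ha hb => ha.sub hb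
  have mr : ∀ {a : H →L[ℂ] H} (b : H →L[ℂ] H), IsCompactOperator ⇑a →
      IsCompactOperator ⇑(a * b : H →L[ℂ] H) := fun b ha => ha.comp_clm b
  have ml : ∀ {a : H →L[ℂ] H} (b : H →L[ℂ] H), IsCompactOperator ⇑a →
      IsCompactOperator ⇑(b * a : H →L[ℂ] H) := fun b ha => ha.clm_comp b
  have msm : ∀ {a : H →L[ℂ] H} (c : ℂ), IsCompactOperator ⇑a →
      IsCompactOperator ⇑(c • a : H →L[ℂ] H) := fun c ha => ha.smul c
  obtain ⟨u, hu⟩ : ∃ u : H →L[ℂ] H, u = (1 / 2 : ℂ) • (t + star t) := ⟨_, rfl⟩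
  have hus : star u = u := by
    rw [hu, star_smul, star_add, star_star]
    rw [show star (1 / 2 : ℂ) = 1 / 2 by simp, add_comm]
  -- `u ~ t`
  have hut : IsCompactOperator ⇑(u - t : H →L[ℂ] H) := by
    have h3 : u - t = (1 / 2 : ℂ) • (star t - t) := by
      rw [hu]
      module
    rw [h3]
    exact msm _ ht
  -- `p u ~ p`, `u p ~ p`, `u q ~ u`, `q u ~ u`
  have hpu : IsCompactOperator ⇑(p * u - p : H →L[ℂ] H) := by
    have h3 : p * u - p = p * (u - t) + (p * t - p) := by rw [mul_sub]; abel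
    rw [h3]
    exact madd (ml _ hut) h1
  have hup : IsCompactOperator ⇑(u * p - p : H →L[ℂ] H) := by
    have := exists_lift_adj hpu
    rwa [star_sub, star_mul, hus, hp.1] at this
  have huq : IsCompactOperator ⇑(u * q - u : H →L[ℂ] H) := by
    have h3 : u * q - u = (u - t) * q - (u - t) + (t * q - t) := by rw [sub_mul]; abel
    rw [h3]
    exact madd (msub (mr _ hut) hut) h2
  have hqu : IsCompactOperator ⇑(q * u - u : H →L[ℂ] H) := by
    have := exists_lift_adj huq
    rwa [star_sub, star_mul, hus, hq.1] at this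
  obtain ⟨S, hS⟩ : ∃ S : H →L[ℂ] H, S = (q - p) * u * (q - p) := ⟨_, rfl⟩
  have hSsa : IsSelfAdjoint S := by
    rw [IsSelfAdjoint, hS, star_mul, star_mul, star_sub, hus, hp.1, hq.1, mul_assoc]
  -- `S ~ u - p`
  have hSu : IsCompactOperator ⇑(S - (u - p) : H →L[ℂ] H) := by
    have h3 : S - (u - p) = (q * u - u) * (q - p) + (u * q - u) - (u * p - p) -
        (p * u - p) * (q - p) := by
      have h4 : p * (q - p) = 0 := by rw [mul_sub, hpq, hp.2, sub_self]
      have h5 : (p * u - p) * (q - p) = p * u * (q - p) := by rw [sub_mul, h4, sub_zero]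
      rw [hS, h5, sub_mul q p u, sub_mul, sub_mul, mul_sub u q p]
      abel
    rw [h3]
    exact msub (msub (madd (mr _ hqu) huq) hup) (mr _ hpu)
  have hSt : IsCompactOperator ⇑(S - (t - p) : H →L[ℂ] H) := by
    have h3 : S - (t - p) = (S - (u - p)) + (u - t) := by abel
    rw [h3]
    exact madd hSu hut
  -- `S² ~ S`
  have hSS : IsCompactOperator ⇑(S * S - S : H →L[ℂ] H) := by
    have htp : IsCompactOperator ⇑(t * p - p : H →L[ℂ] H) := by
      have h3 : t * p - p = (u * p - p) - (u - t) * p := by rw [sub_mul]; abel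
      rw [h3]
      exact msub hup (mr _ hut)
    have h3 : S * S - S = (S - (t - p)) * S + (t - p) * (S - (t - p)) +
        ((t * t - t) - (t * p - p) - (p * t - p)) - (S - (t - p)) := by
      have h4 : (t - p) * (t - p) = (t * t - t) - (t * p - p) - (p * t - p) + (t - p) := by
        rw [sub_mul, mul_sub, mul_sub, hp.2]
        abel
      have h5 : (t - p) * (S - (t - p)) = (t - p) * S - (t - p) * (t - p) := mul_sub _ _ _
      rw [h5, h4, sub_mul S (t - p) S]
      abel
    rw [h3]
    exact msub (madd (madd (mr _ hSt) (ml _ hSt)) (msub (msub ht' htp) h1)) hSt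
  obtain ⟨r₀, hr₀, hr₀S, hr₀e⟩ := exists_lift₀ hSsa hSS
  have h3 : r₀ * p = 0 := by
    refine hr₀e p ?_
    rw [hS, mul_assoc, sub_mul q p p, hqp, hp.2, sub_self, mul_zero]
  have h4 : p * r₀ = 0 := by
    have := congrArg star h3
    rwa [star_mul, star_zero, hr₀.1, hp.1] at this
  have h5 : r₀ * q = r₀ := by
    have h6 : r₀ * (1 - q) = 0 := by
      refine hr₀e (1 - q) ?_
      have h7 : (q - p) * (1 - q) = 0 := by
        rw [mul_sub, mul_one, sub_mul, hq.2, hpq, sub_self]
      rw [hS, mul_assoc, h7, mul_zero]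
    rw [mul_sub, mul_one, sub_eq_zero] at h6
    exact h6.symm
  refine ⟨p + r₀, ⟨?_, ?_⟩, ?_, ?_, ?_⟩
  · rw [star_add, hp.1, hr₀.1]
  · rw [add_mul, mul_add, mul_add, hp.2, h4, h3, hr₀.2, add_zero, zero_add]
  · rw [mul_add, hp.2, h4, add_zero]
  · rw [add_mul, hpq, h5]
  · have h6 : p + r₀ - t = (r₀ - S) + (S - (t - p)) := by abel
    rw [h6]
    exact madd hr₀S hSt

end Pool.Agent.CPr
end
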