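import Pool.Agent.Lib.MP_240d5c_lc.Mg.G001
import Pool.Agent.Lib.MP_240d5c_lc.Mg.G003

section

set_option linter.unusedSectionVars false
set_option linter.unusedVariables false

/-!
# Closure requirements on sets of reals

A requirement is a map `Req` assigning to two reals `z, f` a countable set of reals; a set `N` of
reals satisfies it if `Req z f ⊆ N` for all `z, f ∈ N`.
-/

namespace Pool.Agent.CPr

open Pool.Agent.KM Filter Topology

/-- `N` is closed under the requirement `Req`. -/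
def Closed (Req : (ℕ → ℕ) → (ℕ → ℕ) → Set (ℕ → ℕ)) (N : Set (ℕ → ℕ)) : Prop :=
  ∀ z ∈ N, ∀ f ∈ N, Req z f ⊆ N

theorem Closed.union {Req Req' : (ℕ → ℕ) → (ℕ → ℕ) → Set (ℕ → ℕ)} {N : Set (ℕ → ℕ)}
    (h : Closed (fun z f => Req z f ∪ Req' z f) N) : Closed Req N ∧ Closed Req' N :=
  ⟨fun z hz f hf => Set.subset_union_left.trans (h z hz f hf),
    fun z hz f hf => Set.subset_union_right.trans (h z hz f hf)⟩

/-- Generic reals decide the relations between ground model points and values of names.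
Uses `exists_codes`, `meas_above`, `meas_below`, `meas_inD`. -/
theorem req_truth {T : Type} (L : LevelOrder T) :
    ∃ Req : (ℕ → ℕ) → (ℕ → ℕ) → Set (ℕ → ℕ), (∀ z f, (Req z f).Countable) ∧
      ∀ N, Closed Req N → ∀ c, CohenOver N c → ∀ z ∈ N, ∀ f ∈ N,
        Decides c (L.Above (L.op z) f) ∧ Decides c (L.Below f (L.op z)) ∧
          Decides c (L.InD f) := by
  choose D1 h1 h1' h1'' using fun z f => exists_codes (L.meas_above (L.op z) f)
  choose D2 h2 h2' h2'' using fun z f => exists_codes (L.meas_below f (L.op z))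
  choose D3 h3 h3' h3'' using fun f => exists_codes (L.meas_inD f)
  refine ⟨fun z f => D1 z f ∪ (D2 z f ∪ D3 f),
    fun z f => (h1 z f).union ((h2 z f).union (h3 f)), ?_⟩
  intro N hN c hc z hz f hf
  have hsub := hN z hz f hf
  refine ⟨h1'' z f c fun d hd => ?_, h2'' z f c fun d hd => ?_, h3'' f c fun d hd => ?_⟩
  · exact hc d (hsub (Or.inl hd)) (h1' z f d hd)
  · exact hc d (hsub (Or.inr (Or.inl hd))) (h2' z f d hd)
  · exact hc d (hsub (Or.inr (Or.inr hd))) (h3' f d hd)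

/-- Generic reals meet dense sets of conditions defined from a real. -/
theorem req_dense (Q : (ℕ → ℕ) → List Bool → Set (List Bool)) :
    ∃ Req : (ℕ → ℕ) → (ℕ → ℕ) → Set (ℕ → ℕ), (∀ z f, (Req z f).Countable) ∧
      ∀ N, Closed Req N → ∀ c, CohenOver N c → ∀ f ∈ N, ∀ q : List Bool,
        (∀ s, ∃ t, s <:+ t ∧ t ∈ Q f q) → ∃ m, path c m ∈ Q f q := by
  refine ⟨fun _ f => Set.range fun q => codeOf (Q f q), fun _ f => Set.countable_range _,
    fun N hN c hc f hf q hq => ?_⟩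
  obtain ⟨m, hm⟩ := hc (codeOf (Q f q)) (hN f hf f hf ⟨q, rfl⟩) fun s => by
    obtain ⟨t, ht, ht'⟩ := hq s
    exact ⟨t, ht, codeOf_ne.2 ht'⟩
  exact ⟨m, codeOf_ne.1 hm⟩

/-- Witnesses. -/
theorem req_wit {ι : Type} [Countable ι] (w : (ℕ → ℕ) → ι → (ℕ → ℕ)) :
    ∃ Req : (ℕ → ℕ) → (ℕ → ℕ) → Set (ℕ → ℕ), (∀ z f, (Req z f).Countable) ∧
      ∀ N, Closed Req N → ∀ f ∈ N, ∀ i, w f i ∈ N := by
  exact ⟨fun _ f => Set.range (w f), fun _ f => Set.countable_range _,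
    fun N hN f hf i => hN f hf f hf ⟨i, rfl⟩⟩

end Pool.Agent.CPr
end

section

set_option linter.unusedSectionVars false
set_option linter.unusedVariables false

/-!
# Closing off a Cohen filtration under a requirement
-/

namespace Pool.Agent.CPr

open Pool.Agent.KM Filter Topology Cardinal

variable {Ω₁ Ω₂ : Type} [LinearOrder Ω₁] [LinearOrder Ω₂] {e : Ω₂ × Ω₁ → ℕ → ℕ}

/-- the reals with index below `α` -/
def Rb (e : Ω₂ × Ω₁ → ℕ → ℕ) (α : Ω₂) : Set (ℕ → ℕ) := {x | ∃ i : Ω₂ × Ω₁, i.1 < α ∧ e i = x}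

/-- A family of elements of `Ω₂` indexed by a proper initial segment of `Ω₂`, or by `Ω₁ × Ω₁ × ℕ`,
is bounded. -/
theorem bdd_seg [WellFoundedLT Ω₁] [WellFoundedLT Ω₂] (he : IsCohenFiltration Ω₁ Ω₂ e) (α : Ω₂)
    (g : Ω₂ → Ω₂) : ∃ β, ∀ γ < α, g γ < β := by
  obtain ⟨s, hs⟩ := he.seg₂ α
  obtain ⟨β, hβ⟩ := he.unc₂ fun ξ => g (s ξ)
  refine ⟨β, fun γ hγ => ?_⟩
  obtain ⟨ξ, hξ⟩ := hs γ hγ
  have := hβ ξ
  rwa [hξ] at this

/-- `|Ω₁|` is infinite, so `Ω₁` maps onto `Ω₁ × Ω₁ × Ω₁ × Ω₁ × ℕ`, and families of elements of `Ω₂`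
indexed by it are bounded. -/
theorem bdd_prod [WellFoundedLT Ω₁] [WellFoundedLT Ω₂] (he : IsCohenFiltration Ω₁ Ω₂ e)
    (g : Ω₁ × Ω₁ × Ω₁ × Ω₁ × ℕ → Ω₂) : ∃ β, ∀ x, g x < β := by
  obtain ⟨i₀, -⟩ := he.onto (fun _ => 0)
  have hne : Nonempty Ω₁ := ⟨i₀.2⟩
  have hunc : ¬ Countable Ω₁ := by
    intro hc
    obtain ⟨s, hs⟩ := exists_surjective_nat Ω₁
    obtain ⟨ξ, hξ⟩ := he.unc₁ s
    obtain ⟨n, hn⟩ := hs ξ
    exact hξ n hn
  have hal : ℵ₀ ≤ #Ω₁ := by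
    by_contra hlt
    exact hunc (Cardinal.mk_le_aleph0_iff.1 (not_le.1 hlt).le)
  have hcard : #(Ω₁ × Ω₁ × Ω₁ × Ω₁ × ℕ) = #Ω₁ := by
    simp only [Cardinal.mk_prod, Cardinal.lift_id, Cardinal.mk_nat, Cardinal.lift_aleph0]
    rw [Cardinal.mul_aleph0_eq hal, Cardinal.mul_eq_self hal, Cardinal.mul_eq_self hal,
      Cardinal.mul_eq_self hal]
  obtain ⟨E⟩ := Cardinal.eq.1 hcard
  obtain ⟨β, hβ⟩ := he.unc₂ (fun ξ => g (E.symm ξ))
  exact ⟨β, fun x => by simpa using hβ (E x)⟩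

/-- one step of the closure: a bound for the indices of all reals required by two reals with index
below `α` -/
theorem exists_step [WellFoundedLT Ω₁] [WellFoundedLT Ω₂] (he : IsCohenFiltration Ω₁ Ω₂ e)
    (Req : (ℕ → ℕ) → (ℕ → ℕ) → Set (ℕ → ℕ)) (hReq : ∀ z f, (Req z f).Countable) (α : Ω₂) :
    ∃ β, α < β ∧ ∀ z ∈ Rb e α, ∀ f ∈ Rb e α, Req z f ⊆ Rb e β := by
  classical
  obtain ⟨s, hs⟩ := he.seg₂ α
  choose idx hidx using he.onto
  have hen : ∀ z f, ∃ r : ℕ → ℕ → ℕ, ∀ x ∈ Req z f, ∃ n, r n = x := by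
    intro z f
    rcases (Req z f).eq_empty_or_nonempty with h | h
    · refine ⟨fun _ _ => 0, fun x hx => ?_⟩
      rw [h] at hx
      exact absurd hx (Set.notMem_empty x)
    · obtain ⟨r, hr⟩ := (hReq z f).exists_eq_range h
      refine ⟨r, fun x hx => ?_⟩
      rw [hr] at hx
      exact hx
  choose r hr using hen
  obtain ⟨β₀, hβ₀⟩ := bdd_prod he fun x =>
    (idx (r (e (s x.1, x.2.1)) (e (s x.2.2.1, x.2.2.2.1)) x.2.2.2.2)).1
  obtain ⟨β₁, hβ₁⟩ := he.unc₂ fun _ => α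
  obtain ⟨i₀, -⟩ := he.onto fun _ => 0
  refine ⟨max β₀ β₁, (hβ₁ i₀.2).trans_le (le_max_right _ _), ?_⟩
  rintro z ⟨⟨γ, ξ₂⟩, hγ, rfl⟩ f ⟨⟨γ', ξ₄⟩, hγ', rfl⟩ x hx
  obtain ⟨ξ₁, hξ₁⟩ := hs γ hγ
  obtain ⟨ξ₃, hξ₃⟩ := hs γ' hγ'
  obtain ⟨n, hn⟩ := hr _ _ x hx
  refine ⟨idx x, ?_, hidx x⟩
  have h := hβ₀ (ξ₁, ξ₂, ξ₃, ξ₄, n)
  simp only [hξ₁, hξ₃, hn] at h
  exact h.trans_le (le_max_left _ _)

theorem exists_closed_bound (he : IsCohenFiltration Ω₁ Ω₂ e) (ξ : ℕ → Ω₁) :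
    ∃ ζ, ∀ n, ξ n < ζ := by
  by_contra hcon
  push Not at hcon
  choose g hg using he.seg₁
  obtain ⟨u, hu⟩ := exists_surjective_nat (ℕ × Option ℕ)
  obtain ⟨ζ, hζ⟩ := he.unc₁ (fun k => match u k with
    | (n, none) => ξ n
    | (n, some m) => g (ξ n) m)
  obtain ⟨n, hn⟩ := hcon ζ
  rcases hn.lt_or_eq with h | h
  · obtain ⟨m, hm⟩ := hg (ξ n) ζ h
    obtain ⟨k, hk⟩ := hu (n, some m)
    apply hζ k
    simp only [hk]
    exact hm
  · obtain ⟨k, hk⟩ := hu (n, none)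
    apply hζ k
    simp only [hk]
    exact h.symm

theorem exists_closed_rec [WellFoundedLT Ω₁] (he : IsCohenFiltration Ω₁ Ω₂ e)
    (step : Ω₂ → Ω₂) (hstep : ∀ α, α < step α) (α : Ω₂) :
    ∃ γ : Ω₁ → Ω₂, (∀ ξ, α < γ ξ) ∧ (∀ η ξ, η < ξ → step (γ η) < γ ξ) := by
  classical
  choose b hb using he.unc₂
  let γ : Ω₁ → Ω₂ := (wellFounded_lt (α := Ω₁)).fix
    (fun ξ rec => b (fun η => if h : η < ξ then step (rec η h) else α))
  have hγ : ∀ ξ, γ ξ = b (fun η => if h : η < ξ then step (γ η) else α) := by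
    intro ξ
    exact WellFounded.fix_eq _ _ _
  refine ⟨γ, fun ξ => ?_, fun η ξ hηξ => ?_⟩
  · have := hb (fun η => if h : η < ξ then step (γ η) else α) ξ
    rw [← hγ ξ] at this
    simpa using this
  · have := hb (fun η => if h : η < ξ then step (γ η) else α) η
    rw [← hγ ξ] at this
    simpa [hηξ] using this

/-- Iterate the step along `Ω₁` (by well-founded recursion, `unc₂` gives bounds) and take the least
upper bound; it is not the supremum of countably many smaller elements since `Ω₁` is uncountable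
with countable initial segments. -/
theorem exists_closed [WellFoundedLT Ω₁] [WellFoundedLT Ω₂] (he : IsCohenFiltration Ω₁ Ω₂ e)
    (Req : (ℕ → ℕ) → (ℕ → ℕ) → Set (ℕ → ℕ)) (hReq : ∀ z f, (Req z f).Countable) (α : Ω₂) :
    ∃ β, α < β ∧ UncCof β ∧ Closed Req (Rb e β) := by
  choose step hs1 hs2 using exists_step he Req hReq
  obtain ⟨γ, hγα, hγ⟩ := exists_closed_rec he step hs1 α
  have hmono : ∀ η ξ, η < ξ → γ η < γ ξ := fun η ξ h => (hs1 _).trans (hγ η ξ h)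
  obtain ⟨b₀, hb₀⟩ := he.unc₂ γ
  obtain ⟨β, hβ, hmin⟩ := WellFounded.has_min (wellFounded_lt (α := Ω₂))
    {b | ∀ ξ, γ ξ < b} ⟨b₀, hb₀⟩
  have hlt : ∀ b, b < β → ∃ ξ, b ≤ γ ξ := by
    intro b hb
    by_contra hcon
    push Not at hcon
    exact hmin b hcon hb
  have hsucc : ∀ ξ, ∃ ζ : Ω₁, ξ < ζ := by
    intro ξ
    obtain ⟨ζ, hζ⟩ := exists_closed_bound he (fun _ => ξ)
    exact ⟨ζ, hζ 0⟩
  obtain ⟨i₀, -⟩ := he.onto (fun _ => 0)
  let ξ₀ : Ω₁ := i₀.2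
  refine ⟨β, (hγα ξ₀).trans (hβ ξ₀), ?_, ?_⟩
  · intro g
    have h1 : ∀ n, ∃ ξ, g n < β → g n ≤ γ ξ := by
      intro n
      by_cases h : g n < β
      · obtain ⟨ξ, hξ⟩ := hlt _ h
        exact ⟨ξ, fun _ => hξ⟩
      · exact ⟨ξ₀, fun h' => absurd h' h⟩
    choose ξ hξ using h1
    obtain ⟨ζ, hζ⟩ := exists_closed_bound he ξ
    exact ⟨γ ζ, hβ ζ, fun n hn => (hξ n hn).trans_lt (hmono _ _ (hζ n))⟩
  · rintro z ⟨i, hi, rfl⟩ f ⟨j, hj, rfl⟩
    obtain ⟨ξ1, h1⟩ := hlt _ hi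
    obtain ⟨ξ2, h2⟩ := hlt _ hj
    obtain ⟨ζ, hζ⟩ := exists_closed_bound he (fun n => if n = 0 then ξ1 else ξ2)
    have hζ1 : ξ1 < ζ := by simpa using hζ 0
    have hζ2 : ξ2 < ζ := by simpa using hζ 1
    obtain ⟨ζ', hζ'⟩ := hsucc ζ
    refine (hs2 (γ ζ) (e i) ⟨i, h1.trans_lt (hmono _ _ hζ1), rfl⟩ (e j)
      ⟨j, h2.trans_lt (hmono _ _ hζ2), rfl⟩).trans ?_
    rintro x ⟨k, hk, rfl⟩
    exact ⟨k, hk.trans ((hγ _ _ hζ').trans (hβ ζ')), rfl⟩

/-- A strictly increasing sequence of closed points. -/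
theorem exists_seq [WellFoundedLT Ω₁] [WellFoundedLT Ω₂] (he : IsCohenFiltration Ω₁ Ω₂ e)
    (Req : (ℕ → ℕ) → (ℕ → ℕ) → Set (ℕ → ℕ)) (hReq : ∀ z f, (Req z f).Countable) :
    ∃ δ : Ω₂ → Ω₂, StrictMono δ ∧ ∀ ν, UncCof (δ ν) ∧ Closed Req (Rb e (δ ν)) := by
  classical
  choose C hC1 hC2 using exists_closed he Req hReq
  have hB : ∀ (ν : Ω₂) (f : ∀ μ, μ < ν → Ω₂), ∃ β, ∀ μ (h : μ < ν), f μ h < β := by
    intro ν f
    obtain ⟨β, hβ⟩ := bdd_seg he ν fun μ => if h : μ < ν then f μ h else ν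
    refine ⟨β, fun μ h => ?_⟩
    have := hβ μ h
    rwa [dif_pos h] at this
  choose B hB using hB
  have hwf : WellFounded fun a b : Ω₂ => a < b := wellFounded_lt
  obtain ⟨δ, hδ⟩ : ∃ δ : Ω₂ → Ω₂, ∀ ν, δ ν = C (B ν fun μ _ => δ μ) :=
    ⟨hwf.fix fun ν f => C (B ν f), fun ν => hwf.fix_eq _ ν⟩
  refine ⟨δ, fun μ ν h => ?_, fun ν => ?_⟩
  · rw [hδ ν]
    exact (hB ν (fun μ _ => δ μ) μ h).trans (hC1 _)
  · rw [hδ ν]
    exact hC2 _

/-- Suprema of uncountable cofinality of closed points are closed points. -/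
theorem sup_closed [WellFoundedLT Ω₁] [WellFoundedLT Ω₂] (he : IsCohenFiltration Ω₁ Ω₂ e)
    (Req : (ℕ → ℕ) → (ℕ → ℕ) → Set (ℕ → ℕ)) {δ : Ω₂ → Ω₂} (hδ : StrictMono δ)
    (hδ' : ∀ ν, UncCof (δ ν) ∧ Closed Req (Rb e (δ ν))) (I : Set Ω₂) {α : Ω₂}
    (hIα : ∀ ν ∈ I, ν < α) (hI : ∀ g : ℕ → Ω₂, ∃ ν ∈ I, ∀ n, g n ∈ I → g n < ν) :
    ∃ β, UncCof β ∧ Closed Req (Rb e β) ∧ Rb e β = ⋃ ν ∈ I, Rb e (δ ν) := by
  classical
  have hne : {b : Ω₂ | ∀ ν ∈ I, δ ν ≤ b}.Nonempty :=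
    ⟨δ α, fun ν hν => (hδ (hIα ν hν)).le⟩
  let wf : WellFounded ((· < ·) : Ω₂ → Ω₂ → Prop) := wellFounded_lt
  obtain ⟨β, hβ⟩ : ∃ β, β = wf.min _ hne := ⟨_, rfl⟩
  have hβ1 : ∀ ν ∈ I, δ ν ≤ β := by
    rw [hβ]
    exact wf.min_mem _ hne
  have hβ2 : ∀ γ, γ < β → ∃ ν ∈ I, γ < δ ν := by
    intro γ hγ
    by_contra hcon
    push Not at hcon
    have h1 : γ ∈ {b : Ω₂ | ∀ ν ∈ I, δ ν ≤ b} := hcon
    have h2 := wf.not_lt_min _ (x := γ) h1
    rw [hβ] at hγ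
    exact h2 hγ
  have hβ3 : ∀ ν ∈ I, δ ν < β := by
    intro ν hν
    obtain ⟨ν', hν', h⟩ := hI fun _ => ν
    exact (hδ (h 0 hν)).trans_le (hβ1 ν' hν')
  have hU : Rb e β = ⋃ ν ∈ I, Rb e (δ ν) := by
    ext x
    simp only [Set.mem_iUnion, exists_prop]
    constructor
    · rintro ⟨i, hi, hx⟩
      obtain ⟨ν, hν, h⟩ := hβ2 _ hi
      exact ⟨ν, hν, i, h, hx⟩
    · rintro ⟨ν, hν, i, hi, hx⟩
      exact ⟨i, hi.trans (hβ3 ν hν), hx⟩
  refine ⟨β, ?_, ?_, hU⟩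
  · intro g
    have h1 : ∀ n, ∃ ν, g n < β → ν ∈ I ∧ g n < δ ν := by
      intro n
      by_cases h : g n < β
      · obtain ⟨ν, hν, h'⟩ := hβ2 _ h
        exact ⟨ν, fun _ => ⟨hν, h'⟩⟩
      · exact ⟨α, fun h' => absurd h' h⟩
    choose ν hν using h1
    obtain ⟨μ, hμ, h⟩ := hI ν
    refine ⟨δ μ, hβ3 μ hμ, fun n hn => ?_⟩
    obtain ⟨h2, h3⟩ := hν n hn
    exact h3.trans (hδ (h n h2))
  · rw [hU]
    intro z hz f hf
    simp only [Set.mem_iUnion, exists_prop] at hz hf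
    obtain ⟨ν, hν, hz⟩ := hz
    obtain ⟨μ, hμ, hf⟩ := hf
    obtain ⟨κ, hκ, h⟩ := hI fun n => if n = 0 then ν else μ
    have h1 : ν < κ := by simpa using h 0 (by simpa using hν)
    have h2 : μ < κ := by simpa using h 1 (by simpa using hμ)
    have hz' : z ∈ Rb e (δ κ) := by
      obtain ⟨i, hi, hx⟩ := hz
      exact ⟨i, hi.trans (hδ h1), hx⟩
    have hf' : f ∈ Rb e (δ κ) := by
      obtain ⟨i, hi, hx⟩ := hf
      exact ⟨i, hi.trans (hδ h2), hx⟩
    exact ((hδ' κ).2 z hz' f hf').trans (Set.subset_iUnion₂ (s := fun ν (_ : ν ∈ I) => Rb e (δ ν)) κ hκ)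

theorem exists_enum_Rb_not_countable (he : IsCohenFiltration Ω₁ Ω₂ e) : ¬ Countable Ω₁ := by
  intro h
  obtain ⟨i₀, -⟩ := he.onto fun _ => 0
  have : Nonempty Ω₁ := ⟨i₀.2⟩
  obtain ⟨g, hg⟩ := exists_surjective_nat Ω₁
  obtain ⟨ξ, hξ⟩ := he.unc₁ g
  obtain ⟨n, hn⟩ := hg ξ
  exact hξ n hn

/-- the reals with index below `α` are the image of `Ω₁` -/
theorem exists_enum_Rb [WellFoundedLT Ω₁] [WellFoundedLT Ω₂] (he : IsCohenFiltration Ω₁ Ω₂ e)
    {α : Ω₂} (hα : UncCof α) : ∃ g : Ω₁ → ℕ → ℕ, Set.range g = Rb e α := by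
  classical
  have hinf : Infinite Ω₁ := by
    by_contra h
    rw [not_infinite_iff_finite] at h
    exact exists_enum_Rb_not_countable he inferInstance
  obtain ⟨i₀, -⟩ := he.onto fun _ => 0
  obtain ⟨β, hβ, -⟩ := hα fun _ => α
  obtain ⟨s, hs⟩ := he.seg₂ α
  have hc : #(Ω₁ × Ω₁) = #Ω₁ := by
    rw [Cardinal.mk_prod]
    simp only [Cardinal.lift_id]
    exact Cardinal.mul_eq_self (Cardinal.aleph0_le_mk Ω₁)
  obtain ⟨E⟩ : Nonempty (Ω₁ ≃ Ω₁ × Ω₁) := Cardinal.eq.1 hc.symm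
  refine ⟨fun ξ => if s (E ξ).1 < α then e (s (E ξ).1, (E ξ).2) else e (β, i₀.2), ?_⟩
  ext x
  constructor
  · rintro ⟨ξ, rfl⟩
    by_cases h : s (E ξ).1 < α
    · exact ⟨(s (E ξ).1, (E ξ).2), h, by simp only [if_pos h]⟩
    · exact ⟨(β, i₀.2), hβ, by simp only [if_neg h]⟩
  · rintro ⟨⟨γ, ξ₂⟩, hγ, rfl⟩
    obtain ⟨ξ₁, hξ₁⟩ := hs γ hγ
    refine ⟨E.symm (ξ₁, ξ₂), ?_⟩
    simp only [Equiv.apply_symm_apply, hξ₁]
    rw [if_pos hγ]

/-- a strictly increasing function from `Ω₁` to `Ω₁` is cofinal -/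
theorem cofinal_of_strictMono [WellFoundedLT Ω₁] (he : IsCohenFiltration Ω₁ Ω₂ e) {u : Ω₁ → Ω₁}
    (o : Ω₁) (hu : ∀ x y, o ≤ x → x < y → u x < u y) (ξ : Ω₁) : ∃ x, o ≤ x ∧ ξ < u x := by
  by_contra hcon
  push Not at hcon
  have hseg : ∀ ζ : Ω₁, (Set.Iio ζ).Countable := by
    intro ζ
    obtain ⟨g, hg⟩ := he.seg₁ ζ
    exact (Set.countable_range g).mono fun η hη => hg η hη
  have h1 : (Set.Iic ξ).Countable := by
    rw [← Set.Iio_insert]
    exact (hseg ξ).insert ξ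
  have hinj : Set.InjOn u (Set.Ici o) := by
    intro x hx y hy hxy
    rcases lt_trichotomy x y with h | h | h
    · exact absurd hxy (hu x y hx h).ne
    · exact h
    · exact absurd hxy (hu y x hy h).ne'
  have h2 : (Set.Ici o).Countable :=
    Set.MapsTo.countable_of_injOn (fun x hx => hcon x hx) hinj h1
  have h3 : (Set.univ : Set Ω₁).Countable := by
    rw [← Set.Iio_union_Ici (a := o)]
    exact (hseg o).union h2
  exact exists_enum_Rb_not_countable he (Set.countable_univ_iff.1 h3)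

end Pool.Agent.CPr
end

section

set_option linter.unusedSectionVars false
set_option linter.unusedVariables false

namespace Pool.Agent.CPr

open Pool.Agent.KM Filter Topology Cardinal

variable {Ω₁ Ω₂ : Type} [LinearOrder Ω₁] [LinearOrder Ω₂] {e : Ω₂ × Ω₁ → ℕ → ℕ}

/-- Every real is the value of a Cohen name in `N` at a Cohen real over `N`. -/
def CohenSet (N : Set (ℕ → ℕ)) : Prop :=
  ∀ y : ℕ → ℕ, ∃ f ∈ N, ∃ c, IsName f ∧ Eval f c y ∧ CohenOver N c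

theorem cohenSet_Rb (he : IsCohenFiltration Ω₁ Ω₂ e) {α : Ω₂} (hα : UncCof α) :
    CohenSet (Rb e α) := by
  intro y
  obtain ⟨i, hi, c, h1, h2, h3⟩ := he.cohen α hα y
  exact ⟨e i, ⟨i, hi, rfl⟩, c, h1, h2, h3⟩

theorem exists_filtration_bound (he : IsCohenFiltration Ω₁ Ω₂ e) (ξ : ℕ → Ω₁) :
    ∃ ζ, ∀ n, ξ n < ζ := by
  by_contra hcon
  push Not at hcon
  choose g hg using he.seg₁
  obtain ⟨u, hu⟩ := exists_surjective_nat (ℕ × Option ℕ)
  obtain ⟨ζ, hζ⟩ := he.unc₁ (fun k => match u k with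
    | (n, none) => ξ n
    | (n, some m) => g (ξ n) m)
  obtain ⟨n, hn⟩ := hcon ζ
  rcases hn.lt_or_eq with h | h
  · obtain ⟨m, hm⟩ := hg (ξ n) ζ h
    obtain ⟨k, hk⟩ := hu (n, some m)
    apply hζ k
    simp only [hk]
    exact hm
  · obtain ⟨k, hk⟩ := hu (n, none)
    apply hζ k
    simp only [hk]
    exact h.symm

theorem exists_filtration_idx [WellFoundedLT Ω₁] [WellFoundedLT Ω₂]
    (g : Ω₂ → Ω₁ → ℕ → ℕ) (hg : ∀ x, ∃ ν ξ, g ν ξ = x) :
    ∃ idx : (ℕ → ℕ) → Ω₂ ×ₗ Ω₁,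
      (∀ x, g (ofLex (idx x)).1 (ofLex (idx x)).2 = x) ∧
      ∀ ν ξ x, g ν ξ = x → idx x ≤ toLex (ν, ξ) := by
  have hne : ∀ x, {w : Ω₂ ×ₗ Ω₁ | g (ofLex w).1 (ofLex w).2 = x}.Nonempty := by
    intro x
    obtain ⟨ν, ξ, h⟩ := hg x
    exact ⟨toLex (ν, ξ), h⟩
  refine ⟨fun x => (wellFounded_lt (α := Ω₂ ×ₗ Ω₁)).min _ (hne x), fun x => ?_,
    fun ν ξ x h => ?_⟩
  · exact (wellFounded_lt (α := Ω₂ ×ₗ Ω₁)).min_mem _ (hne x)
  · exact not_lt.1 ((wellFounded_lt (α := Ω₂ ×ₗ Ω₁)).not_lt_min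
      {w : Ω₂ ×ₗ Ω₁ | g (ofLex w).1 (ofLex w).2 = x} (x := toLex (ν, ξ)) h)

theorem exists_filtration_Rb_mono {α β : Ω₂} (h : α ≤ β) : Rb e α ⊆ Rb e β := by
  rintro x ⟨i, hi, rfl⟩
  exact ⟨i, hi.trans_le h, rfl⟩

/-- A well-ordering of the reals for which the union of an `Ω₁`-sequence of initial segments is
closed under a given requirement and every real is Cohen over it.
With `δ` from `exists_seq` and `g ν : Ω₁ → Rb e (δ ν)` onto (`exists_enum_Rb`), take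
`W = Ω₂ ×ₗ Ω₁` and let `idx x` be the least pair `(ν, ξ)` with `g ν ξ = x`.  Given `u`, let
`(ν o, ξ o) = u o`.  If `ν` is eventually constant, with value `ν₀`, then the set is `Rb e (δ ν₀)`
(`cofinal_of_strictMono`); otherwise it is the union of the sets `Rb e (δ ν)` for
`ν ∈ I = {ν | ∃ o, ν < ν o}`, apply `sup_closed`. -/
theorem exists_filtration [WellFoundedLT Ω₁] [WellFoundedLT Ω₂] (he : IsCohenFiltration Ω₁ Ω₂ e)
    (Req : (ℕ → ℕ) → (ℕ → ℕ) → Set (ℕ → ℕ)) (hReq : ∀ z f, (Req z f).Countable) :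
    ∃ (W : Type) (_ : LinearOrder W) (_ : WellFoundedLT W) (idx : (ℕ → ℕ) → W),
      Function.Injective idx ∧ ∀ u : Ω₁ → W, StrictMono u →
        Closed Req {z | ∃ o, idx z < u o} ∧ CohenSet {z | ∃ o, idx z < u o} := by
  obtain ⟨δ, hδ, hδ'⟩ := exists_seq he Req hReq
  have henum : ∀ ν, ∃ g : Ω₁ → ℕ → ℕ, Set.range g = Rb e (δ ν) :=
    fun ν => exists_enum_Rb he (hδ' ν).1
  choose g hg using henum
  have honto : ∀ x, ∃ ν ξ, g ν ξ = x := by
    intro x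
    obtain ⟨i, rfl⟩ := he.onto x
    obtain ⟨ν, hν⟩ := he.unc₂ (fun _ => i.1)
    have h1 : e i ∈ Rb e (δ ν) := ⟨i, (hν i.2).trans_le (hδ.le_apply), rfl⟩
    rw [← hg ν] at h1
    obtain ⟨ξ, hξ⟩ := h1
    exact ⟨ν, ξ, hξ⟩
  obtain ⟨idx, hidx, hmin⟩ := exists_filtration_idx g honto
  have hmem : ∀ x, x ∈ Rb e (δ (ofLex (idx x)).1) := by
    intro x
    rw [← hg]
    exact ⟨(ofLex (idx x)).2, hidx x⟩
  refine ⟨Ω₂ ×ₗ Ω₁, inferInstance, inferInstance, idx, ?_, ?_⟩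
  · intro x y hxy
    rw [← hidx x, ← hidx y, hxy]
  intro u hu
  have hνmono : ∀ o o', o ≤ o' → (ofLex (u o)).1 ≤ (ofLex (u o')).1 := by
    intro o o' h
    have h1 := hu.monotone h
    rw [Prod.Lex.le_iff] at h1
    rcases h1 with h1 | h1
    · exact h1.le
    · exact h1.1.le
  have hlt1 : ∀ z o, idx z < u o → (ofLex (idx z)).1 ≤ (ofLex (u o)).1 := by
    intro z o h
    rw [Prod.Lex.lt_iff] at h
    rcases h with h | h
    · exact h.le
    · exact h.1.le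
  -- it suffices to find `β`
  suffices h : ∃ β, UncCof β ∧ Closed Req (Rb e β) ∧ {z | ∃ o, idx z < u o} = Rb e β by
    obtain ⟨β, hβ, hβ', heq⟩ := h
    rw [heq]
    exact ⟨hβ', cohenSet_Rb he hβ⟩
  by_cases hc : ∃ o₀, ∀ o, o₀ ≤ o → (ofLex (u o)).1 = (ofLex (u o₀)).1
  · obtain ⟨o₀, ho₀⟩ := hc
    refine ⟨δ (ofLex (u o₀)).1, (hδ' _).1, (hδ' _).2, Set.Subset.antisymm ?_ ?_⟩
    · rintro z ⟨o, ho⟩
      have h1 : idx z < u (max o o₀) := ho.trans_le (hu.monotone (le_max_left _ _))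
      have h2 := hlt1 z _ h1
      rw [ho₀ _ (le_max_right _ _)] at h2
      exact exists_filtration_Rb_mono (hδ.monotone h2) (hmem z)
    · intro z hz
      rw [← hg] at hz
      obtain ⟨ξ, hξ⟩ := hz
      obtain ⟨o, ho, hξo⟩ := cofinal_of_strictMono he (u := fun o => (ofLex (u o)).2) o₀
        (by
          intro x y hx hxy
          have h1 := hu hxy
          rw [Prod.Lex.lt_iff] at h1
          rcases h1 with h1 | h1
          · rw [ho₀ x hx, ho₀ y (hx.trans hxy.le)] at h1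
            exact absurd h1 (lt_irrefl _)
          · exact h1.2) ξ
      refine ⟨o, (hmin _ ξ z hξ).trans_lt ?_⟩
      rw [Prod.Lex.lt_iff]
      right
      exact ⟨(ho₀ o ho).symm, hξo⟩
  · push Not at hc
    have hc' : ∀ o, ∃ o', (ofLex (u o)).1 < (ofLex (u o')).1 := by
      intro o
      obtain ⟨o', h1, h2⟩ := hc o
      exact ⟨o', lt_of_le_of_ne (hνmono _ _ h1) (Ne.symm h2)⟩
    obtain ⟨α, hα⟩ := he.unc₂ (fun o => (ofLex (u o)).1)
    obtain ⟨i₀, -⟩ := he.onto (fun _ => 0)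
    obtain ⟨β, hβ, hβ', heq⟩ := sup_closed he Req hδ hδ'
      {ν | ∃ o, ν < (ofLex (u o)).1} (α := α)
      (by
        rintro ν ⟨o, ho⟩
        exact ho.trans (hα o))
      (by
        intro f
        have h1 : ∀ n, ∃ o, (∃ o, f n < (ofLex (u o)).1) → f n < (ofLex (u o)).1 := by
          intro n
          by_cases h : ∃ o, f n < (ofLex (u o)).1
          · obtain ⟨o, ho⟩ := h
            exact ⟨o, fun _ => ho⟩
          · exact ⟨i₀.2, fun h' => absurd h' h⟩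
        choose o ho using h1
        obtain ⟨ζ, hζ⟩ := exists_filtration_bound he o
        exact ⟨(ofLex (u ζ)).1, hc' ζ, fun n hn =>
          (ho n hn).trans_le (hνmono _ _ (hζ n).le)⟩)
    refine ⟨β, hβ, hβ', ?_⟩
    rw [heq]
    apply Set.Subset.antisymm
    · rintro z ⟨o, ho⟩
      exact Set.mem_biUnion (hc' o)
        (exists_filtration_Rb_mono (hδ.monotone (hlt1 z o ho)) (hmem z))
    · intro z hz
      obtain ⟨ν, ⟨o, ho⟩, hz'⟩ := Set.mem_iUnion₂.1 hz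
      rw [← hg] at hz'
      obtain ⟨ξ, hξ⟩ := hz'
      refine ⟨o, (hmin _ ξ z hξ).trans_lt ?_⟩
      rw [Prod.Lex.lt_iff]
      left
      exact ho

/-- The continuum hypothesis fails.  (If `Ω₁` maps onto the reals, then all reals are in some
`Rb e α`, `α` closed under the requirement `fun z _ => {code of the dense set of conditions not
an initial segment of z}`; but a Cohen real over it, regarded as a real, is not in it.  The Cohen
real `c` comes from the Cohen property for any real `y`.) -/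
theorem not_CH [WellFoundedLT Ω₁] [WellFoundedLT Ω₂] (he : IsCohenFiltration Ω₁ Ω₂ e) :
    Cardinal.continuum ≠ Cardinal.aleph 1 := by
  classical
  intro hCH0
  have hCH : (Cardinal.continuum : Cardinal.{0}) = Cardinal.aleph 1 :=
    Cardinal.lift_injective (by
      rw [Cardinal.lift_continuum, Cardinal.lift_aleph, Ordinal.lift_one]; exact hCH0)
  obtain ⟨i₀, -⟩ := he.onto fun _ => 0
  have hne₁ : Nonempty Ω₁ := ⟨i₀.2⟩
  -- `Ω₁` is uncountable
  have hunc : Cardinal.aleph 1 ≤ Cardinal.mk Ω₁ := by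
    rw [← succ_aleph0, Order.succ_le_iff]
    by_contra hcon
    have hc : Countable Ω₁ := Cardinal.mk_le_aleph0_iff.1 (not_lt.1 hcon)
    obtain ⟨g, hg⟩ := exists_surjective_nat Ω₁
    obtain ⟨ξ, hξ⟩ := he.unc₁ g
    obtain ⟨n, hn⟩ := hg ξ
    exact hξ n hn
  have hcard : Cardinal.mk (ℕ → ℕ) ≤ Cardinal.mk Ω₁ := by
    have : Cardinal.mk (ℕ → ℕ) = Cardinal.continuum := by simp
    rw [this, hCH]
    exact hunc
  obtain ⟨⟨φ, hφ⟩⟩ := hcard
  -- all reals are below some `β`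
  choose i hi using fun x : ℕ → ℕ => he.onto x
  obtain ⟨β, hβ⟩ := he.unc₂ fun ξ => (i (Function.invFun φ ξ)).1
  have hall : ∀ x, (i x).1 < β := by
    intro x
    have h := hβ (φ x)
    have h2 : Function.invFun φ (φ x) = x := Function.leftInverse_invFun hφ x
    simp only [h2] at h
    exact h
  obtain ⟨α, hα, hαU, -⟩ := exists_closed he (fun _ _ => ∅) (fun _ _ => Set.countable_empty) β
  obtain ⟨j, -, c, -, -, hc⟩ := he.cohen α hαU fun _ => 0
  -- the dense set of conditions which are not initial segments of `c`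
  let Q : Set (List Bool) := {s | ∀ m, path c m ≠ s}
  have hd : DenseCode (codeOf Q) := by
    intro s
    refine ⟨(!(c s.length)) :: s, List.suffix_cons _ _, ?_⟩
    rw [codeOf_ne]
    intro m hm
    have hlen : m = s.length + 1 := by
      have := congrArg List.length hm
      rw [path_len] at this
      simpa using this
    rw [hlen] at hm
    have h1 : c s.length :: path c s.length = (!(c s.length)) :: s := hm
    have h2 := (List.cons.inj h1).1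
    cases h3 : c s.length <;> simp [h3] at h2
  obtain ⟨m, hm⟩ := hc (codeOf Q) ⟨i (codeOf Q), (hall _).trans hα, hi _⟩ hd
  rw [codeOf_ne] at hm
  exact hm m rfl

end Pool.Agent.CPr
end

section

set_option linter.unusedSectionVars false
set_option linter.unusedVariables false

namespace Pool.Agent.CPr

open Pool.Agent.KM Filter Topology

variable {T : Type} (L : LevelOrder T)

/-- `S` is a countable cofinal subset of `X`. -/
def CtblCofinal (X : Set T) : Prop := ∃ S ⊆ X, S.Countable ∧ ∀ a ∈ X, ∃ s ∈ S, L.le a s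

/-- Let `X` be a chain without countable cofinal subset, such that `q` forces `a ≤ f` for all
`a ∈ X`.  Then for every `k` and every extension `q₁` of `q` there are an extension `q'` and `n`
such that `q'` forces `Cl k n a f` for cofinally many `a ∈ X`.
(Otherwise choose for each pair `(q', n)`, `q₁ <:+ q'`, a bound `b ∈ X`, not below any `a ∈ X`
for which `q'` forces `Cl k n a f`; the countably many bounds are cofinal in `X`,
by `exists_level`.) -/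
theorem dense_right {X : Set T} (hXD : X ⊆ L.D) (hX : ∀ a ∈ X, ∀ b ∈ X, L.le a b ∨ L.le b a)
    (hcof : ¬ CtblCofinal L X) {f : ℕ → ℕ} {q : List Bool} (hq : ∀ a ∈ X, Cat q (L.Above a f))
    (k : ℕ) (q₁ : List Bool) (hq₁ : q <:+ q₁) :
    ∃ q', q₁ <:+ q' ∧ ∃ n, ∀ a ∈ X, ∃ b ∈ X, L.le a b ∧
      Cat q' {c | L.Cl k n b (L.op (ev f c))} := by
  classical
  by_contra hcon
  push Not at hcon
  choose A hAX hA using hcon
  apply hcof
  let F : List Bool × ℕ → Set T := fun p => {a | ∃ h : q₁ <:+ p.1, a = A p.1 h p.2}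
  refine ⟨⋃ p, F p, ?_, ?_, ?_⟩
  · intro a ha
    obtain ⟨p, h, rfl⟩ := Set.mem_iUnion.1 ha
    exact hAX _ _ _
  · refine Set.countable_iUnion fun p => ?_
    refine Set.Subsingleton.countable ?_
    rintro a ⟨h, rfl⟩ b ⟨h', rfl⟩
    rfl
  · intro x hx
    obtain ⟨n, q', hq', hc⟩ := L.exists_level ((hq x hx).mono hq₁) k
    refine ⟨A q' hq' n, Set.mem_iUnion.2 ⟨(q', n), hq', rfl⟩, ?_⟩
    rcases hX x hx _ (hAX q' hq' n) with h | h
    · exact h
    · exact absurd hc (hA q' hq' n x hx h)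

/-- For a generic point `c` (in all the dense sets of `dense_right`, at which `f` is total), the
value of `f` at `c` is above all members of `X`.  Uses `closed_trick` and `lim_right`. -/
theorem above_of_generic {X : Set T} (hXD : X ⊆ L.D) {f : ℕ → ℕ} (hf : IsName f) {c : Cs}
    (hc : c ∈ tot f) (hD : L.op (ev f c) ∈ L.D)
    (h : ∀ k, ∃ q' n, c ∈ cyl q' ∧ ∀ a ∈ X, ∃ b ∈ X, L.le a b ∧
      Cat q' {c | L.Cl k n b (L.op (ev f c))}) : ∀ a ∈ X, L.le a (L.op (ev f c)) := by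
  intro a ha
  refine L.lim_right a (hXD ha) _ hD ?_
  intro k
  obtain ⟨q', n, hcq, hh⟩ := h k
  obtain ⟨b, hb, hab, hcat⟩ := hh a ha
  exact ⟨b, hXD hb, hab, n,
    closed_trick hf (K := {y | L.Cl k n b (L.op y)}) (L.closed_right k n b) hcat c hcq hc⟩

/-- The set of all `c` which are above all members of `X` is comeager below `q`, for every chain
`X` such that `q` forces `a ≤ f` for all `a ∈ X`.  (Case 1: `X` has a countable cofinal subset `S`;
intersect the sets `L.Above s f`, `s ∈ S`.  Case 2: `dense_right` for all `k`, `Cat.of_dense`, and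
`above_of_generic`.) -/
theorem cat_above {X : Set T} (hXD : X ⊆ L.D) (hX : ∀ a ∈ X, ∀ b ∈ X, L.le a b ∨ L.le b a)
    {f : ℕ → ℕ} (hf : IsName f) {q : List Bool} (hq : ∀ a ∈ X, Cat q (L.Above a f))
    (hD : Cat q (L.InD f)) : Cat q {c | ∀ a ∈ X, L.le a (L.op (ev f c))} := by
  by_cases hcof : CtblCofinal L X
  · obtain ⟨S, hSX, hSc, hS⟩ := hcof
    have : Countable S := hSc.to_subtype
    have h1 : Cat q (⋂ s : S, L.Above (s : T) f) := Cat.iInter fun s => hq s (hSX s.2)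
    refine (h1.inter hD).mono_set ?_
    rintro c ⟨hc1, hc2⟩ a ha
    obtain ⟨s, hs, has⟩ := hS a ha
    exact L.trans a (hXD ha) s (hXD (hSX hs)) _ hc2 has (Set.mem_iInter.1 hc1 ⟨s, hs⟩)
  · have h1 : ∀ k, Cat q {c | ∃ q' ∈ {q' : List Bool | ∃ n, ∀ a ∈ X, ∃ b ∈ X, L.le a b ∧
        Cat q' {c | L.Cl k n b (L.op (ev f c))}}, c ∈ cyl q'} := fun k =>
      Cat.of_dense fun q₁ hq₁ => dense_right L hXD hX hcof hq k q₁ hq₁
    refine (((Cat.iInter h1).inter hD).inter (cat_tot hf q)).mono_set ?_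
    rintro c ⟨⟨hc1, hc2⟩, hc3⟩
    refine above_of_generic L hXD hf hc3 hc2 fun k => ?_
    obtain ⟨q', ⟨n, hn⟩, hcq⟩ := Set.mem_iInter.1 hc1 k
    exact ⟨q', n, hcq, hn⟩

/-- The core: if `q` forces the value of `f` to be above all members of an initial segment `X` of
the maximal chain `C`, below all members of `C \ X`, and not above the least element of `C \ X` (if
there is one), then `X` has a countable cofinal subset.
(By `cat_above` for `L` and for `L.dual` there is a `c` such that `t = op (ev f c) ∈ D` is above all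
members of `X`, below all members of `C \ X` and not above the least element of `C \ X`.  By
maximality `t ∈ C`; `t ∈ C \ X` is impossible, and if `t ∈ X` then `{t}` is cofinal in `X`.) -/
theorem core {C X : Set T} (hC : L.IsMax C) (hXC : X ⊆ C) {f : ℕ → ℕ} (hf : IsName f)
    {q : List Bool} (hD : Cat q (L.InD f)) (h1 : ∀ a ∈ X, Cat q (L.Above a f))
    (h2 : ∀ b ∈ C \ X, Cat q (L.Below f b))
    (h3 : ∀ b ∈ C \ X, (∀ b' ∈ C \ X, L.le b b') → Cat q (L.Above b f)ᶜ) : CtblCofinal L X := by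
  have hXD : X ⊆ L.D := hXC.trans hC.sub
  have hYD : C \ X ⊆ L.D := fun b hb => hC.sub hb.1
  have hA : Cat q {c | ∀ a ∈ X, L.le a (L.op (ev f c))} :=
    cat_above L hXD (fun a ha b hb => hC.chain a (hXC ha) b (hXC hb)) hf h1 hD
  have hB : Cat q {c | ∀ b ∈ C \ X, L.le (L.op (ev f c)) b} :=
    cat_above L.dual (X := C \ X) hYD (fun a ha b hb => (hC.chain a ha.1 b hb.1).symm) hf h2 hD
  have hE : Cat q {c | ∀ b ∈ C \ X, (∀ b' ∈ C \ X, L.le b b') →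
      ¬ L.le b (L.op (ev f c))} := by
    by_cases h : ∃ b₀ ∈ C \ X, ∀ b' ∈ C \ X, L.le b₀ b'
    · obtain ⟨b₀, hb₀, hmin⟩ := h
      refine ((h3 b₀ hb₀ hmin).inter hD).mono_set ?_
      rintro c ⟨hc, hcD⟩ b hb hb' hle
      exact hc (L.trans b₀ (hYD hb₀) b (hYD hb) _ hcD (hmin b hb) hle)
    · refine hD.mono_set ?_
      intro c _ b hb hb'
      exact absurd ⟨b, hb, hb'⟩ h
  obtain ⟨c, -, ⟨⟨hcA, hcB⟩, hcE⟩, hcD⟩ := (((hA.inter hB).inter hE).inter hD).nonempty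
  have htC : L.op (ev f c) ∈ C := by
    refine hC.max _ hcD fun a ha => ?_
    by_cases haX : a ∈ X
    · exact Or.inl (hcA a haX)
    · exact Or.inr (hcB a ⟨ha, haX⟩)
  by_cases htX : L.op (ev f c) ∈ X
  · exact ⟨{L.op (ev f c)}, Set.singleton_subset_iff.2 htX, Set.countable_singleton _,
      fun a ha => ⟨_, Set.mem_singleton _, hcA a ha⟩⟩
  · exact absurd (L.refl _ hcD) (hcE _ ⟨htC, htX⟩ hcB)

end Pool.Agent.CPr
end

section

set_option linter.unusedSectionVars false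
set_option linter.unusedVariables false

namespace Pool.Agent.CPr

open Pool.Agent.KM Filter Topology

variable {T : Type} (L : LevelOrder T)

/-- the members of `C` forced by `q` to be below the value of `f` -/
def LL (C : Set T) (f : ℕ → ℕ) (q : List Bool) : Set T := {a ∈ C | Cat q (L.Above a f)}

theorem LL_mono {C : Set T} {f : ℕ → ℕ} {q q' : List Bool} (h : q <:+ q') :
    LL L C f q ⊆ LL L C f q' := fun a ha => ⟨ha.1, ha.2.mono h⟩

/-- conditions incomparable with `q₀`, or below it and with a property -/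
def QQ (φ : List Bool → Prop) (q₀ : List Bool) : Set (List Bool) :=
  {q | (¬ q₀ <:+ q ∧ ¬ q <:+ q₀) ∨ (q₀ <:+ q ∧ φ q)}

theorem QQ_dense {φ : List Bool → Prop} {q₀ : List Bool}
    (h : ∀ q, q₀ <:+ q → ∃ q', q <:+ q' ∧ φ q') (s : List Bool) : ∃ t, s <:+ t ∧ t ∈ QQ φ q₀ := by
  by_cases h1 : q₀ <:+ s
  · obtain ⟨q', hq', hφ⟩ := h s h1
    exact ⟨q', hq', Or.inr ⟨h1.trans hq', hφ⟩⟩
  · by_cases h2 : s <:+ q₀
    · obtain ⟨q', hq', hφ⟩ := h q₀ (List.suffix_refl _)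
      exact ⟨q', h2.trans hq', Or.inr ⟨hq', hφ⟩⟩
    · exact ⟨s, List.suffix_refl _, Or.inl ⟨h1, h2⟩⟩

theorem QQ_get {φ : List Bool → Prop} {q₀ q : List Bool} {c : Cs} (hc : c ∈ cyl q₀)
    (hc' : c ∈ cyl q) (h : q ∈ QQ φ q₀) : q₀ <:+ q ∧ φ q := by
  rcases h with h | h
  · rcases suffix_or hc hc' with h' | h'
    · exact absurd h' h.1
    · exact absurd h' h.2
  · exact h

theorem exists_join {c : Cs} {q q' : List Bool} (hc : c ∈ cyl q) (hc' : c ∈ cyl q') :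
    ∃ r, c ∈ cyl r ∧ q <:+ r ∧ q' <:+ r := by
  rcases suffix_or hc hc' with h | h
  · exact ⟨q', hc', h, List.suffix_refl _⟩
  · exact ⟨q, hc, List.suffix_refl _, h⟩

/-- a larger set of `LL` is found -/
def Phi1 (C : Set T) (f : ℕ → ℕ) (q₀ q : List Bool) : Prop :=
  (∃ a ∈ LL L C f q, a ∉ LL L C f q₀) ∨ ∀ q', q <:+ q' → LL L C f q' ⊆ LL L C f q₀

/-- the value of `f` is below all members of `C` not in `LL`, or not below one of them -/
def Phi2 (C : Set T) (f : ℕ → ℕ) (q₁ q : List Bool) : Prop :=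
  (∀ a ∈ C \ LL L C f q₁, Cat q (L.Below f a)) ∨ ∃ a ∈ C \ LL L C f q₁, Cat q (L.Below f a)ᶜ

theorem phi1_dense (C : Set T) (f : ℕ → ℕ) (q₀ : List Bool) (q : List Bool) (h : q₀ <:+ q) :
    ∃ q', q <:+ q' ∧ Phi1 L C f q₀ q' := by
  by_cases hex : ∃ q', q <:+ q' ∧ ¬ LL L C f q' ⊆ LL L C f q₀
  · obtain ⟨q', hq', hn⟩ := hex
    obtain ⟨a, ha, ha'⟩ := Set.not_subset.1 hn
    exact ⟨q', hq', Or.inl ⟨a, ha, ha'⟩⟩
  · refine ⟨q, List.suffix_refl _, Or.inr fun q' hq' => ?_⟩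
    by_contra hn
    exact hex ⟨q', hq', hn⟩

theorem phi2_dense (C : Set T) (f : ℕ → ℕ) (q₁ : List Bool) (q : List Bool) (h : q₁ <:+ q) :
    ∃ q', q <:+ q' ∧ Phi2 L C f q₁ q' := by
  by_cases hex : ∃ q', q <:+ q' ∧ ∃ a ∈ C \ LL L C f q₁, Cat q' (L.Below f a)ᶜ
  · obtain ⟨q', hq', hn⟩ := hex
    exact ⟨q', hq', Or.inr hn⟩
  · refine ⟨q, List.suffix_refl _, Or.inl fun a ha => ?_⟩
    rcases Cat.dec (L.meas_below f a) q with h' | ⟨q', hq', h'⟩
    · exact h'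
    · exact absurd ⟨q', hq', a, ha, h'⟩ hex

/-- Let `C` be a maximal chain.  There is a requirement such that for every set `N` of reals closed
under it, every name `f ∈ N` and every Cohen real `c` over `N` such that the value `x` of `f` at
`c` is in `C`, the set of members of `C` with a code in `N` and below `x` has a countable cofinal
subset. -/
theorem good {C : Set T} (hC : L.IsMax C) :
    ∃ Req : (ℕ → ℕ) → (ℕ → ℕ) → Set (ℕ → ℕ), (∀ z f, (Req z f).Countable) ∧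
      ∀ N, Closed Req N → ∀ f ∈ N, IsName f → ∀ c, CohenOver N c → L.op (ev f c) ∈ C →
        ∃ S : Set T, S.Countable ∧
          (∀ s ∈ S, s ∈ C ∧ L.le s (L.op (ev f c)) ∧ ∃ z ∈ N, L.op z = s) ∧
          ∀ z ∈ N, L.op z ∈ C → L.le (L.op z) (L.op (ev f c)) → ∃ s ∈ S, L.le (L.op z) s := by
  classical
  -- the requirements
  obtain ⟨R1, hR1c, hR1⟩ := req_truth L
  obtain ⟨R2, hR2c, hR2⟩ := req_dense (fun f q₀ => QQ (Phi1 L C f q₀) q₀)
  obtain ⟨R4, hR4c, hR4⟩ := req_dense (fun f q₁ => QQ (Phi2 L C f q₁) q₁)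
  let w1 : (ℕ → ℕ) → List Bool × List Bool → (ℕ → ℕ) := fun f i =>
    if h : ∃ z, L.op z ∈ LL L C f i.2 ∧ L.op z ∉ LL L C f i.1 then h.choose else 0
  let w2 : (ℕ → ℕ) → List Bool × List Bool → (ℕ → ℕ) := fun f i =>
    if h : ∃ z, L.op z ∈ C \ LL L C f i.1 ∧ Cat i.2 (L.Below f (L.op z))ᶜ then h.choose else 0
  let w3 : (ℕ → ℕ) → List Bool → (ℕ → ℕ) := fun f q =>
    if h : ∃ z, L.op z ∈ C \ LL L C f q ∧ ∀ b' ∈ C \ LL L C f q, L.le (L.op z) b'
    then h.choose else 0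
  let w4 : (ℕ → ℕ) → List Bool × ℕ → (ℕ → ℕ) := fun f i =>
    if h : ∃ g : ℕ → (ℕ → ℕ), (∀ n, L.op (g n) ∈ LL L C f i.1) ∧
      ∀ a ∈ LL L C f i.1, ∃ n, L.le a (L.op (g n)) then h.choose i.2 else 0
  obtain ⟨R3, hR3c, hR3⟩ := req_wit w1
  obtain ⟨R5, hR5c, hR5⟩ := req_wit w2
  obtain ⟨R6, hR6c, hR6⟩ := req_wit w3
  obtain ⟨R7, hR7c, hR7⟩ := req_wit w4
  refine ⟨fun z f => R1 z f ∪ (R2 z f ∪ (R3 z f ∪ (R4 z f ∪ (R5 z f ∪ (R6 z f ∪ R7 z f))))),
    fun z f => ?_, ?_⟩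
  · exact (hR1c z f).union ((hR2c z f).union ((hR3c z f).union ((hR4c z f).union
      ((hR5c z f).union ((hR6c z f).union (hR7c z f))))))
  intro N hN f hf hfn c hc hx
  obtain ⟨hN1, hN⟩ := Closed.union hN
  obtain ⟨hN2, hN⟩ := Closed.union hN
  obtain ⟨hN3, hN⟩ := Closed.union hN
  obtain ⟨hN4, hN⟩ := Closed.union hN
  obtain ⟨hN5, hN⟩ := Closed.union hN
  obtain ⟨hN6, hN7⟩ := Closed.union hN
  have hdec : ∀ z ∈ N, Decides c (L.Above (L.op z) f) ∧ Decides c (L.Below f (L.op z)) ∧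
      Decides c (L.InD f) := fun z hz => hR1 N hN1 c hc z hz f hf
  have hxD : L.op (ev f c) ∈ L.D := hC.sub hx
  -- `InD` is forced
  obtain ⟨qD, hcD, hqD⟩ : ∃ q, c ∈ cyl q ∧ Cat q (L.InD f) := ((hdec f hf).2.2.1).1 hxD
  -- transitivity below `qD`
  have htr : ∀ q, qD <:+ q → ∀ a ∈ C, ∀ b ∈ C, L.le b a → a ∈ LL L C f q → b ∈ LL L C f q := by
    intro q hq a ha b hb hba haq
    refine ⟨hb, (haq.2.inter (hqD.mono hq)).mono_set ?_⟩
    rintro c' ⟨h1, h2⟩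
    exact L.trans b (hC.sub hb) a (hC.sub ha) _ h2 hba h1
  by_cases hi : ∃ q₀, c ∈ cyl q₀ ∧ qD <:+ q₀ ∧ ∀ z ∈ N, L.op z ∈ C →
      L.le (L.op z) (L.op (ev f c)) → L.op z ∈ LL L C f q₀
  · obtain ⟨q₀, hc0, hD0, hL0⟩ := hi
    -- (ii)
    obtain ⟨m, hm⟩ := hR2 N hN2 c hc f hf q₀ (QQ_dense fun q hq => phi1_dense L C f q₀ q hq)
    obtain ⟨h01, hphi⟩ := QQ_get hc0 (mem_cyl_path c m) hm
    set q₁ := path c m with hq₁
    have hc1 : c ∈ cyl q₁ := mem_cyl_path c m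
    have hst : ∀ q', q₁ <:+ q' → LL L C f q' ⊆ LL L C f q₀ := by
      rcases hphi with ⟨a, ha, ha'⟩ | h
      · exfalso
        have hex : ∃ z, L.op z ∈ LL L C f q₁ ∧ L.op z ∉ LL L C f q₀ := by
          obtain ⟨z, rfl⟩ := L.surj a (hC.sub ha.1)
          exact ⟨z, ha, ha'⟩
        have hz : w1 f (q₀, q₁) ∈ N := hR3 N hN3 f hf (q₀, q₁)
        have hw : w1 f (q₀, q₁) = hex.choose := dif_pos hex
        rw [hw] at hz
        obtain ⟨h1, h2⟩ := hex.choose_spec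
        exact h2 (hL0 _ hz h1.1 (((hdec _ hz).1.1).2 ⟨q₁, hc1, h1.2⟩))
      · exact h
    have hLN : ∀ z ∈ N, L.op z ∈ C → L.le (L.op z) (L.op (ev f c)) → L.op z ∈ LL L C f q₁ :=
      fun z hz h1 h2 => LL_mono L h01 (hL0 z hz h1 h2)
    -- (iii)
    obtain ⟨m₂, hm₂⟩ := hR4 N hN4 c hc f hf q₁ (QQ_dense fun q hq => phi2_dense L C f q₁ q hq)
    obtain ⟨h12, hphi2⟩ := QQ_get hc1 (mem_cyl_path c m₂) hm₂
    set q₂ := path c m₂ with hq₂
    have hc2 : c ∈ cyl q₂ := mem_cyl_path c m₂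
    have hbel : ∀ a ∈ C \ LL L C f q₁, Cat q₂ (L.Below f a) := by
      rcases hphi2 with h | ⟨a, ha, ha'⟩
      · exact h
      · exfalso
        have hex : ∃ z, L.op z ∈ C \ LL L C f q₁ ∧ Cat q₂ (L.Below f (L.op z))ᶜ := by
          obtain ⟨z, rfl⟩ := L.surj a (hC.sub ha.1)
          exact ⟨z, ha, ha'⟩
        have hz : w2 f (q₁, q₂) ∈ N := hR5 N hN5 f hf (q₁, q₂)
        have hw : w2 f (q₁, q₂) = hex.choose := dif_pos hex
        rw [hw] at hz
        obtain ⟨h1, h2⟩ := hex.choose_spec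
        have h3 : c ∉ L.Below f (L.op hex.choose) := ((hdec _ hz).2.1.2).2 ⟨q₂, hc2, h2⟩
        rcases hC.chain _ hx _ h1.1 with h4 | h4
        · exact h3 h4
        · exact h1.2 (hLN _ hz h1.1 h4)
    -- (iv)
    obtain ⟨q₃, hc3, hq₃⟩ : ∃ q₃, c ∈ cyl q₃ ∧ ((∃ b ∈ C \ LL L C f q₁, ∀ b' ∈ C \ LL L C f q₁,
        L.le b b') → ∃ b ∈ C \ LL L C f q₁, (∀ b' ∈ C \ LL L C f q₁, L.le b b') ∧
          Cat q₃ (L.Above b f)ᶜ) := by
      by_cases hl : ∃ b ∈ C \ LL L C f q₁, ∀ b' ∈ C \ LL L C f q₁, L.le b b'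
      · have hex : ∃ z, L.op z ∈ C \ LL L C f q₁ ∧ ∀ b' ∈ C \ LL L C f q₁, L.le (L.op z) b' := by
          obtain ⟨b, hb, hb'⟩ := hl
          obtain ⟨z, rfl⟩ := L.surj b (hC.sub hb.1)
          exact ⟨z, hb, hb'⟩
        have hz : w3 f q₁ ∈ N := hR6 N hN6 f hf q₁
        have hw : w3 f q₁ = hex.choose := dif_pos hex
        rw [hw] at hz
        obtain ⟨h1, h2⟩ := hex.choose_spec
        have h3 : c ∉ L.Above (L.op hex.choose) f := fun h4 => h1.2 (hLN _ hz h1.1 h4)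
        obtain ⟨q₃, hc3, hq₃⟩ := ((hdec _ hz).1.2).1 h3
        exact ⟨q₃, hc3, fun _ => ⟨_, h1, h2, hq₃⟩⟩
      · exact ⟨q₂, hc2, fun h => absurd h hl⟩
    -- (v)
    obtain ⟨q, hcq, h2q, h3q⟩ := exists_join hc2 hc3
    have h1q : q₁ <:+ q := h12.trans h2q
    have hDq : qD <:+ q := hD0.trans (h01.trans h1q)
    have hcore : CtblCofinal L (LL L C f q₁) := by
      refine core L hC (fun a ha => ha.1) hfn (q := q) (hqD.mono hDq)
        (fun a ha => ha.2.mono h1q) (fun b hb => (hbel b hb).mono h2q) ?_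
      intro b hb hb'
      obtain ⟨b₀, hb₀, hb₀', hcat⟩ := hq₃ ⟨b, hb, hb'⟩
      refine ((hcat.mono h3q).inter (hqD.mono hDq)).mono_set ?_
      rintro c' ⟨h1, h2⟩ h3
      exact h1 (L.trans b₀ (hC.sub hb₀.1) b (hC.sub hb.1) _ h2 (hb₀' b hb) h3)
    obtain ⟨S, hSX, hS, hcof⟩ := hcore
    rcases S.eq_empty_or_nonempty with hSe | hSne
    · refine ⟨∅, Set.countable_empty, fun s hs => absurd hs (Set.notMem_empty _), ?_⟩
      intro z hz h1 h2
      obtain ⟨s, hs, _⟩ := hcof _ (hLN z hz h1 h2)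
      rw [hSe] at hs
      exact absurd hs (Set.notMem_empty _)
    · obtain ⟨g, hg⟩ := hS.exists_eq_range hSne
      have hgX : ∀ n, g n ∈ LL L C f q₁ := fun n => hSX (hg ▸ Set.mem_range_self n)
      have hex : ∃ g : ℕ → (ℕ → ℕ), (∀ n, L.op (g n) ∈ LL L C f q₁) ∧
          ∀ a ∈ LL L C f q₁, ∃ n, L.le a (L.op (g n)) := by
        choose G hG using fun n => L.surj (g n) (hC.sub (hgX n).1)
        refine ⟨G, fun n => by rw [hG]; exact hgX n, fun a ha => ?_⟩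
        obtain ⟨s, hs, has⟩ := hcof a ha
        rw [hg] at hs
        obtain ⟨n, rfl⟩ := hs
        exact ⟨n, by rw [hG]; exact has⟩
      have hw : ∀ n, w4 f (q₁, n) = hex.choose n := fun n => by
        show (if h : _ then _ else _) = _
        rw [dif_pos hex]
      have hzN : ∀ n, hex.choose n ∈ N := fun n => by
        rw [← hw]; exact hR7 N hN7 f hf (q₁, n)
      obtain ⟨h1, h2⟩ := hex.choose_spec
      refine ⟨Set.range fun n => L.op (hex.choose n), Set.countable_range _, ?_, ?_⟩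
      · rintro _ ⟨n, rfl⟩
        exact ⟨(h1 n).1, ((hdec _ (hzN n)).1.1).2 ⟨q₁, hc1, (h1 n).2⟩, _, hzN n, rfl⟩
      · intro z hz h3 h4
        obtain ⟨n, hn⟩ := h2 _ (hLN z hz h3 h4)
        exact ⟨_, ⟨n, rfl⟩, hn⟩
  · -- every condition misses some element
    push Not at hi
    have hi' : ∀ q₀ : {q // c ∈ cyl q ∧ qD <:+ q}, ∃ z ∈ N, L.op z ∈ C ∧
        L.le (L.op z) (L.op (ev f c)) ∧ L.op z ∉ LL L C f q₀.1 :=
      fun q₀ => hi q₀.1 q₀.2.1 q₀.2.2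
    choose B hBN hBC hBx hBL using hi'
    refine ⟨Set.range fun q => L.op (B q), Set.countable_range _, ?_, ?_⟩
    · rintro _ ⟨q, rfl⟩
      exact ⟨hBC q, hBx q, B q, hBN q, rfl⟩
    · intro z hz h1 h2
      obtain ⟨q, hcq, hq⟩ := ((hdec z hz).1.1).1 h2
      obtain ⟨r, hcr, hqr, hDr⟩ := exists_join hcq hcD
      refine ⟨_, ⟨⟨r, hcr, hDr⟩, rfl⟩, ?_⟩
      rcases hC.chain _ h1 _ (hBC ⟨r, hcr, hDr⟩) with h | h
      · exact h
      · exact absurd (htr r hDr _ h1 _ (hBC _) h ⟨h1, hq.mono hqr⟩) (hBL ⟨r, hcr, hDr⟩)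

end Pool.Agent.CPr
end

section

set_option linter.unusedSectionVars false
set_option linter.unusedVariables false

/-!
# Chains as linear orders
-/

namespace Pool.Agent.CPr

variable {T : Type} (L : LevelOrder T)

/-- Every chain is represented by a linear order (the quotient by equivalence): `π x` is a
representative of the class `x`. -/
theorem exists_model (K : Set T) (hK : K ⊆ L.D) (hchain : ∀ a ∈ K, ∀ b ∈ K, L.le a b ∨ L.le b a) :
    ∃ (Λ : Type) (_ : LinearOrder Λ) (π : Λ → T), (∀ x, π x ∈ K) ∧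
      (∀ x y, x ≤ y ↔ L.le (π x) (π y)) ∧ ∀ t ∈ K, ∃ x, L.le t (π x) ∧ L.le (π x) t := by
  classical
  obtain ⟨rep, hrep1, hrep2⟩ : ∃ rep : K → K, (∀ t : K, L.le t (rep t) ∧ L.le (rep t) t) ∧
      ∀ t t' : K, L.le t t' → L.le t' t → rep t = rep t' := by
    let S : Setoid K :=
      { r := fun t t' => L.le t t' ∧ L.le t' t
        iseqv :=
          { refl := fun t => ⟨L.refl _ (hK t.2), L.refl _ (hK t.2)⟩
            symm := fun h => ⟨h.2, h.1⟩
            trans := fun {a b c} h h' =>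
              ⟨L.trans _ (hK a.2) _ (hK b.2) _ (hK c.2) h.1 h'.1,
                L.trans _ (hK c.2) _ (hK b.2) _ (hK a.2) h'.2 h.2⟩ } }
    refine ⟨fun t => (Quotient.mk S t).out, fun t => ?_, fun t t' h h' => ?_⟩
    · exact (Quotient.exact (Quotient.out_eq (Quotient.mk S t))).symm
    · exact congrArg Quotient.out (Quotient.sound (s := S) ⟨h, h'⟩)
  obtain ⟨R, hR⟩ : ∃ R : Set K, R = {t | rep t = t} := ⟨_, rfl⟩
  have hrr : ∀ t, rep t ∈ R := by
    intro t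
    rw [hR]
    exact (hrep2 t (rep t) (hrep1 t).1 (hrep1 t).2).symm
  have htot : ∀ a b : R, L.le (a : K) (b : K) ∨ L.le (b : K) (a : K) := fun a b =>
    hchain _ a.1.2 _ b.1.2
  let inst : LinearOrder R :=
    { le := fun a b => L.le (a : K) (b : K)
      le_refl := fun a => L.refl _ (hK a.1.2)
      le_trans := fun a b c h h' => L.trans _ (hK a.1.2) _ (hK b.1.2) _ (hK c.1.2) h h'
      le_antisymm := by
        rintro ⟨a, ha⟩ ⟨b, hb⟩ h h'
        rw [hR] at ha hb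
        apply Subtype.ext
        change a = b
        rw [← ha, ← hb]
        exact hrep2 a b h h'
      le_total := htot
      toDecidableLE := Classical.decRel _ }
  refine ⟨R, inst, fun x => ((x : K) : T), fun x => x.1.2, fun x y => Iff.rfl, fun t ht => ?_⟩
  exact ⟨⟨rep ⟨t, ht⟩, hrr _⟩, hrep1 ⟨t, ht⟩⟩

/-- The countable saturation of the order. -/
structure Sat : Prop where
  bot : ∃ z ∈ L.D, ∀ t ∈ L.D, L.le z t
  top : ∃ z ∈ L.D, ∀ t ∈ L.D, L.le t z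
  between : ∀ A B : Set T, A.Countable → B.Countable → A ⊆ L.D → B ⊆ L.D → A.Nonempty →
    B.Nonempty → (∀ a ∈ A, ∀ b ∈ A, L.le a b ∨ L.le b a) → (∀ a ∈ B, ∀ b ∈ B, L.le a b ∨ L.le b a) →
    (∀ a ∈ A, ∀ b ∈ B, L.le a b ∧ ¬ L.le b a) →
    ∃ t ∈ L.D, (∀ a ∈ A, L.le a t ∧ ¬ L.le t a) ∧ ∀ b ∈ B, L.le t b ∧ ¬ L.le b t

/-- the points of a chain `C` strictly between `b₀` and `b₁` -/
def Inner (C : Set T) (b₀ b₁ : T) : Set T := {t ∈ C | ¬ L.le t b₀ ∧ ¬ L.le b₁ t}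

/-- The inner part of a maximal chain has the property `Eta`.
Given countable `A < B` in `Λ`, suppose there is no point between.  Apply `Sat.between` to
`{b₀} ∪ π '' A` and `{b₁} ∪ π '' B` and get `t ∈ D`; then `t` is comparable to all `c ∈ C`
(`c` is below some member of the first set, or above some member of the second set, or the class of
`c` is a point between `A` and `B`), so `t ∈ C`, and the class of `t` is a point between. -/
theorem eta_of_sat (hsat : Sat L) {C : Set T} (hC : L.IsMax C) {b₀ b₁ : T} (h₀ : b₀ ∈ L.D)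
    (h₀' : ∀ t ∈ L.D, L.le b₀ t) (h₁ : b₁ ∈ L.D) (h₁' : ∀ t ∈ L.D, L.le t b₁)
    (hne : ¬ L.le b₁ b₀) {Λ : Type} [LinearOrder Λ] {π : Λ → T}
    (hπ : ∀ x, π x ∈ Inner L C b₀ b₁) (hle : ∀ x y, x ≤ y ↔ L.le (π x) (π y))
    (hsurj : ∀ t ∈ Inner L C b₀ b₁, ∃ x, L.le t (π x) ∧ L.le (π x) t) : Eta Λ := by
  intro A B hA hB hAB
  by_contra hcon
  have hD : ∀ x, π x ∈ L.D := fun x => hC.sub (hπ x).1
  have hlt : ∀ x y, x < y ↔ L.le (π x) (π y) ∧ ¬ L.le (π y) (π x) := by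
    intro x y
    rw [lt_iff_le_not_ge, hle, hle]
  obtain ⟨A', hA'⟩ : ∃ A' : Set T, A' = insert b₀ (π '' A) := ⟨_, rfl⟩
  obtain ⟨B', hB'⟩ : ∃ B' : Set T, B' = insert b₁ (π '' B) := ⟨_, rfl⟩
  have hA'D : A' ⊆ L.D := by
    rw [hA']
    rintro a (rfl | ⟨x, -, rfl⟩)
    · exact h₀
    · exact hD x
  have hB'D : B' ⊆ L.D := by
    rw [hB']
    rintro a (rfl | ⟨x, -, rfl⟩)
    · exact h₁
    · exact hD x
  obtain ⟨t, ht, ht1, ht2⟩ := hsat.between A' B'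
    (by rw [hA']; exact (hA.image π).insert b₀) (by rw [hB']; exact (hB.image π).insert b₁)
    hA'D hB'D (by rw [hA']; exact ⟨b₀, Or.inl rfl⟩) (by rw [hB']; exact ⟨b₁, Or.inl rfl⟩)
    (by
      intro a ha b hb
      have ha' := hA'D ha
      have hb' := hA'D hb
      rw [hA'] at ha hb
      rcases ha with rfl | ⟨x, -, rfl⟩
      · exact Or.inl (h₀' b hb')
      · rcases hb with rfl | ⟨y, -, rfl⟩
        · exact Or.inr (h₀' _ ha')
        · exact hC.chain _ (hπ x).1 _ (hπ y).1)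
    (by
      intro a ha b hb
      have ha' := hB'D ha
      have hb' := hB'D hb
      rw [hB'] at ha hb
      rcases ha with rfl | ⟨x, -, rfl⟩
      · exact Or.inr (h₁' b hb')
      · rcases hb with rfl | ⟨y, -, rfl⟩
        · exact Or.inl (h₁' _ ha')
        · exact hC.chain _ (hπ x).1 _ (hπ y).1)
    (by
      intro a ha b hb
      have ha' := hA'D ha
      have hb' := hB'D hb
      rw [hA'] at ha
      rw [hB'] at hb
      rcases ha with rfl | ⟨x, hx, rfl⟩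
      · rcases hb with rfl | ⟨y, hy, rfl⟩
        · exact ⟨h₀' _ h₁, hne⟩
        · exact ⟨h₀' _ hb', (hπ y).2.1⟩
      · rcases hb with rfl | ⟨y, hy, rfl⟩
        · exact ⟨h₁' _ ha', (hπ x).2.2⟩
        · exact (hlt x y).1 (hAB x hx y hy))
  have hb₀A : b₀ ∈ A' := by rw [hA']; exact Or.inl rfl
  have hb₁B : b₁ ∈ B' := by rw [hB']; exact Or.inl rfl
  have hcomp : ∀ c ∈ C, L.le c t ∨ L.le t c := by
    intro c hc
    have hcD := hC.sub hc
    by_cases h1 : L.le c b₀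
    · exact Or.inl (L.trans _ hcD _ h₀ _ ht h1 (ht1 b₀ hb₀A).1)
    by_cases h2 : L.le b₁ c
    · exact Or.inr (L.trans _ ht _ h₁ _ hcD (ht2 b₁ hb₁B).1 h2)
    obtain ⟨x, hx1, hx2⟩ := hsurj c ⟨hc, h1, h2⟩
    by_contra h3
    push Not at h3
    refine hcon ⟨x, fun a ha => ?_, fun b hb => ?_⟩
    · by_contra h4
      have h5 := (hle x a).1 (not_lt.1 h4)
      have h6 : π a ∈ A' := by rw [hA']; exact Or.inr ⟨a, ha, rfl⟩
      exact h3.1 (L.trans _ hcD _ (hD x) _ ht hx1 (L.trans _ (hD x) _ (hD a) _ ht h5 (ht1 _ h6).1))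
    · by_contra h4
      have h5 := (hle b x).1 (not_lt.1 h4)
      have h6 : π b ∈ B' := by rw [hB']; exact Or.inr ⟨b, hb, rfl⟩
      exact h3.2 (L.trans _ ht _ (hD b) _ hcD (ht2 _ h6).1 (L.trans _ (hD b) _ (hD x) _ hcD h5 hx2))
  have htC : t ∈ C := hC.max t ht hcomp
  obtain ⟨x, hx1, hx2⟩ := hsurj t ⟨htC, (ht1 b₀ hb₀A).2, (ht2 b₁ hb₁B).2⟩
  refine hcon ⟨x, fun a ha => ?_, fun b hb => ?_⟩
  · rw [hlt]
    have h6 : π a ∈ A' := by rw [hA']; exact Or.inr ⟨a, ha, rfl⟩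
    refine ⟨L.trans _ (hD a) _ ht _ (hD x) (ht1 _ h6).1 hx1, fun h => (ht1 _ h6).2 ?_⟩
    exact L.trans _ ht _ (hD x) _ (hD a) hx1 h
  · rw [hlt]
    have h6 : π b ∈ B' := by rw [hB']; exact Or.inr ⟨b, hb, rfl⟩
    refine ⟨L.trans _ (hD x) _ ht _ (hD b) hx2 (ht2 _ h6).1, fun h => (ht2 _ h6).2 ?_⟩
    exact L.trans _ (hD b) _ (hD x) _ ht h hx2

end Pool.Agent.CPr
end

section

set_option linter.unusedSectionVars false
set_option linter.unusedVariables false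

namespace Pool.Agent.CPr

open Pool.Agent.KM Filter Topology

variable {T : Type} (L : LevelOrder T)

/-- One half of the countability of the ancestors: those below `x`.

`K ⊆ C` is a convex set of points of the chain `C`, represented by `Λ, π`; `pr x` is the least
index of a code of a point equivalent to `π x`.
Suppose that uncountably many ancestors `y < x` exist.  Their priorities form an uncountable set
(`pr` is injective); take `u : Ω₁ → W` strictly increasing with values in it (`exists_strictMono`),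
`u o = pr (y o)`.  Then `y o < y o'` for `o < o'` (otherwise `y o` would lie between `y o'`...: both
are ancestors of `x` below `x`, and if `y o' ≤ y o < x` then `pr (y o') ≤ pr (y o)`).  Let `S` be
the set given by `hN` for a code of `π x`.  Every `y o` has a code `z` with `idx z = u o < u o'`,
so `π (y o) ≤ s ≤ π x` for some `s ∈ S` (up to equivalence); one `s = op z` works for uncountably
(so unboundedly) many `o`, and so for all `o`.  If `idx z < u o₁` then the point `w` of `Λ`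
equivalent to `s` has `pr w ≤ idx z < pr (y o₁)`, but `y o₁ ≤ w ≤ x`, contradicting that `y o₁` is
an ancestor of `x`. -/
theorem anc_below {Ω₁ W : Type} [LinearOrder Ω₁] [WellFoundedLT Ω₁] [LinearOrder W]
    [WellFoundedLT W] (hseg : ∀ ξ : Ω₁, (Set.Iio ξ).Countable)
    (hunc : ¬ Countable Ω₁) {idx : (ℕ → ℕ) → W} (hidx : Function.Injective idx)
    {C K : Set T} (hC : C ⊆ L.D) (hKC : K ⊆ C)
    (hK : ∀ a ∈ K, ∀ b ∈ K, ∀ t ∈ C, L.le a t → L.le t b → t ∈ K)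
    (hN : ∀ u : Ω₁ → W, StrictMono u → ∀ y, L.op y ∈ C →
      ∃ S : Set T, S.Countable ∧
        (∀ s ∈ S, s ∈ C ∧ L.le s (L.op y) ∧ ∃ z, (∃ o, idx z < u o) ∧ L.op z = s) ∧
        ∀ z, (∃ o, idx z < u o) → L.op z ∈ C → L.le (L.op z) (L.op y) → ∃ s ∈ S, L.le (L.op z) s)
    {Λ : Type} [LinearOrder Λ] {π : Λ → T} (hπ : ∀ x, π x ∈ K)
    (hle : ∀ x y, x ≤ y ↔ L.le (π x) (π y))
    (hsurj : ∀ t ∈ K, ∃ x, L.le t (π x) ∧ L.le (π x) t)
    {pr : Λ → W} (hpr : ∀ x, ∃ y, idx y = pr x ∧ L.op y ∈ C ∧ L.le (π x) (L.op y) ∧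
      L.le (L.op y) (π x))
    (hpr' : ∀ x y, L.op y ∈ C → L.le (π x) (L.op y) → L.le (L.op y) (π x) → pr x ≤ idx y)
    (x : Λ) : {y | y < x ∧ y ∈ Anc pr x}.Countable := by
  classical
  by_contra hcon
  have hKD : ∀ t ∈ K, t ∈ L.D := fun t ht => hC (hKC ht)
  have hinj : Function.Injective pr := by
    intro a b hab
    obtain ⟨z, h1, h2, h3, h4⟩ := hpr a
    obtain ⟨z', h1', h2', h3', h4'⟩ := hpr b
    have hz : z = z' := hidx (by rw [h1, h1', hab])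
    subst hz
    apply le_antisymm
    · exact (hle _ _).2 (L.trans _ (hKD _ (hπ a)) _ (hC h2) _ (hKD _ (hπ b)) h3 h4')
    · exact (hle _ _).2 (L.trans _ (hKD _ (hπ b)) _ (hC h2) _ (hKD _ (hπ a)) h3' h4)
  have hA : ¬ (pr '' {y | y < x ∧ y ∈ Anc pr x}).Countable := by
    intro h
    exact hcon (Set.countable_of_injective_of_countable_image hinj.injOn h)
  obtain ⟨u, hu, huA⟩ := exists_strictMono hseg hA
  choose y hy hyu using huA
  have hymono : ∀ o o', o < o' → y o < y o' := by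
    intro o o' h
    by_contra hle'
    push Not at hle'
    have h1 := (hy o').2 (y o) (by
      rw [Set.uIcc_of_ge (hy o').1.le]
      exact ⟨hle', (hy o).1.le⟩)
    rw [hyu, hyu] at h1
    exact absurd (hu h) (not_lt.2 h1)
  have hnomax : ∀ o : Ω₁, ∃ o', o < o' := by
    intro o
    by_contra h
    push Not at h
    apply hunc
    have h1 : (Set.univ : Set Ω₁) ⊆ insert o (Set.Iio o) := by
      intro o' _
      rcases (h o').lt_or_eq with h2 | h2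
      · exact Or.inr h2
      · exact Or.inl h2
    exact Set.countable_univ_iff.1 (((hseg o).insert o).mono h1)
  obtain ⟨y₀, -, hy₀C, hy₀1, hy₀2⟩ := hpr x
  obtain ⟨S, hSc, hS1, hS2⟩ := hN u hu y₀ hy₀C
  have hs : ∀ o, ∃ s ∈ S, L.le (π (y o)) s := by
    intro o
    obtain ⟨z, h1, h2, h3, h4⟩ := hpr (y o)
    obtain ⟨o', ho'⟩ := hnomax o
    have hyx : L.le (π (y o)) (π x) := (hle _ _).1 (hy o).1.le
    have h5 : L.le (L.op z) (π x) :=
      L.trans _ (hC h2) _ (hKD _ (hπ _)) _ (hKD _ (hπ x)) h4 hyx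
    have h6 : L.le (L.op z) (L.op y₀) :=
      L.trans _ (hC h2) _ (hKD _ (hπ x)) _ (hC hy₀C) h5 hy₀1
    obtain ⟨s, hsS, hs⟩ := hS2 z ⟨o', by rw [h1, hyu]; exact hu ho'⟩ h2 h6
    exact ⟨s, hsS, L.trans _ (hKD _ (hπ _)) _ (hC h2) _ (hC (hS1 s hsS).1) h3 hs⟩
  choose s hsS hs using hs
  -- one `s` works for all `o`
  have hall : ∃ t ∈ S, ∀ o, L.le (π (y o)) t := by
    by_contra hno
    push Not at hno
    -- for each `t ∈ S` there is a bound
    have hb : ∀ t : S, (s ⁻¹' {t.1}).Countable := by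
      rintro ⟨t, ht⟩
      obtain ⟨o, ho⟩ := hno t ht
      refine (hseg o).mono ?_
      intro o' ho'
      by_contra hlt
      have hlt' : o ≤ o' := not_lt.1 hlt
      apply ho
      have h1 : s o' = t := ho'
      have h2 : L.le (π (y o')) t := h1 ▸ hs o'
      rcases hlt'.lt_or_eq with h3 | h3
      · exact L.trans _ (hKD _ (hπ _)) _ (hKD _ (hπ _)) _ (hC (hS1 t ht).1)
          ((hle _ _).1 (hymono _ _ h3).le) h2
      · rw [h3]; exact h2
    apply hunc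
    rw [← Set.countable_univ_iff]
    have := hSc.to_subtype
    refine (Set.countable_iUnion hb).mono ?_
    intro o _
    exact Set.mem_iUnion.2 ⟨⟨s o, hsS o⟩, rfl⟩
  obtain ⟨t, htS, ht⟩ := hall
  obtain ⟨htC, hty, z, ⟨o₁, ho₁⟩, hzt⟩ := hS1 t htS
  have htx : L.le t (π x) := L.trans _ (hC htC) _ (hC hy₀C) _ (hKD _ (hπ x)) hty hy₀2
  have htK : t ∈ K := hK _ (hπ (y o₁)) _ (hπ x) t htC (ht o₁) htx
  obtain ⟨w, hw1, hw2⟩ := hsurj t htK
  have h1 : pr w ≤ idx z := hpr' w z (hzt ▸ htC) (hzt ▸ hw2) (hzt ▸ hw1)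
  have h2 : y o₁ ≤ w := (hle _ _).2
    (L.trans _ (hKD _ (hπ _)) _ (hC htC) _ (hKD _ (hπ _)) (ht o₁) hw1)
  have h3 : w ≤ x := (hle _ _).2
    (L.trans _ (hKD _ (hπ _)) _ (hC htC) _ (hKD _ (hπ _)) hw2 htx)
  have h4 := (hy o₁).2 w (by
    rw [Set.uIcc_of_ge (hy o₁).1.le]
    exact ⟨h2, h3⟩)
  rw [hyu] at h4
  exact absurd (h4.trans (h1.trans ho₁.le)) (by
    intro h5
    exact absurd (h1.trans_lt ho₁) (not_lt.2 h4))

end Pool.Agent.CPr
end

section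

set_option linter.unusedSectionVars false
set_option linter.unusedVariables false

namespace Pool.Agent.CPr

open Pool.Agent.KM Filter Topology

variable {T : Type} (L : LevelOrder T)

theorem seg_countable {Ω₁ Ω₂ : Type} [LinearOrder Ω₁] [LinearOrder Ω₂]
    {e : Ω₂ × Ω₁ → ℕ → ℕ} (he : IsCohenFiltration Ω₁ Ω₂ e) (ξ : Ω₁) : (Set.Iio ξ).Countable := by
  obtain ⟨g, hg⟩ := he.seg₁ ξ
  refine (Set.countable_range g).mono fun η hη => ?_
  obtain ⟨n, hn⟩ := hg η hη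
  exact ⟨n, hn⟩

theorem not_countable {Ω₁ Ω₂ : Type} [LinearOrder Ω₁] [LinearOrder Ω₂]
    {e : Ω₂ × Ω₁ → ℕ → ℕ} (he : IsCohenFiltration Ω₁ Ω₂ e) : ¬ Countable Ω₁ := by
  intro hc
  rcases isEmpty_or_nonempty Ω₁ with h | h
  · obtain ⟨β, hβ⟩ := he.unc₂ fun ξ => (h.false ξ).elim
    obtain ⟨i, hi⟩ := he.onto 0
    exact h.false i.2
  · obtain ⟨g, hg⟩ := exists_surjective_nat Ω₁
    obtain ⟨ξ, hξ⟩ := he.unc₁ g
    obtain ⟨n, hn⟩ := hg ξ
    exact hξ n hn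

/-- The inner part of a maximal chain is represented by a linear order with a priority. -/
theorem exists_inner_model (hsat : Sat L) {Ω₁ Ω₂ : Type} [LinearOrder Ω₁] [LinearOrder Ω₂]
    [WellFoundedLT Ω₁] [WellFoundedLT Ω₂] {e : Ω₂ × Ω₁ → ℕ → ℕ} (he : IsCohenFiltration Ω₁ Ω₂ e)
    {C : Set T} (hC : L.IsMax C) {b₀ b₁ : T} (h₀ : b₀ ∈ L.D)
    (h₀' : ∀ t ∈ L.D, L.le b₀ t) (h₁ : b₁ ∈ L.D) (h₁' : ∀ t ∈ L.D, L.le t b₁)
    (hne : ¬ L.le b₁ b₀) :
    ∃ (Λ : Type) (_ : LinearOrder Λ) (W : Type) (_ : LinearOrder W) (_ : WellFoundedLT W)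
      (π : Λ → T) (pr : Λ → W), (∀ x, π x ∈ Inner L C b₀ b₁) ∧
      (∀ x y, x ≤ y ↔ L.le (π x) (π y)) ∧
      (∀ t ∈ Inner L C b₀ b₁, ∃ x, L.le t (π x) ∧ L.le (π x) t) ∧ Eta Λ ∧
      Function.Injective pr ∧ ∀ x, (Anc pr x).Countable := by
  classical
  obtain ⟨Req, hRc, hR⟩ := good L hC
  obtain ⟨Req', hRc', hR'⟩ := good L.dual hC.dual
  obtain ⟨W, iW, iWf, idx, hidx, hu⟩ := exists_filtration he (fun z f => Req z f ∪ Req' z f)
    (fun z f => (hRc z f).union (hRc' z f))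
  have hKC : Inner L C b₀ b₁ ⊆ C := fun t ht => ht.1
  have hKD : Inner L C b₀ b₁ ⊆ L.D := hKC.trans hC.sub
  obtain ⟨Λ, iΛ, π, hπ, hle, hsurj⟩ := exists_model L (Inner L C b₀ b₁) hKD
    (fun a ha b hb => hC.chain a (hKC ha) b (hKC hb))
  have hK : ∀ a ∈ Inner L C b₀ b₁, ∀ b ∈ Inner L C b₀ b₁, ∀ t ∈ C, L.le a t → L.le t b →
      t ∈ Inner L C b₀ b₁ := by
    intro a ha b hb t ht hat htb
    refine ⟨ht, fun h => ha.2.1 ?_, fun h => hb.2.2 ?_⟩
    · exact L.trans a (hKD ha) t (hC.sub ht) b₀ h₀ hat h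
    · exact L.trans b₁ h₁ t (hC.sub ht) b (hKD hb) h htb
  let A : Λ → Set W := fun x => {w | ∃ y, idx y = w ∧ L.op y ∈ C ∧ L.le (π x) (L.op y) ∧
    L.le (L.op y) (π x)}
  have hA : ∀ x, (A x).Nonempty := fun x => by
    obtain ⟨y, hy⟩ := L.surj (π x) (hKD (hπ x))
    refine ⟨idx y, y, rfl, ?_, ?_, ?_⟩
    · rw [hy]; exact hKC (hπ x)
    · rw [hy]; exact L.refl _ (hKD (hπ x))
    · rw [hy]; exact L.refl _ (hKD (hπ x))
  let pr : Λ → W := fun x => (wellFounded_lt (α := W)).min (A x) (hA x)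
  have hpr : ∀ x, ∃ y, idx y = pr x ∧ L.op y ∈ C ∧ L.le (π x) (L.op y) ∧ L.le (L.op y) (π x) :=
    fun x => (wellFounded_lt (α := W)).min_mem (A x) (hA x)
  have hpr' : ∀ x y, L.op y ∈ C → L.le (π x) (L.op y) → L.le (L.op y) (π x) → pr x ≤ idx y := by
    intro x y h1 h2 h3
    exact not_lt.1 ((wellFounded_lt (α := W)).not_lt_min (A x) ⟨y, rfl, h1, h2, h3⟩)
  have hinj : Function.Injective pr := by
    intro x x' hxx
    obtain ⟨y, hy, hyC, h1, h2⟩ := hpr x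
    obtain ⟨y', hy', hyC', h1', h2'⟩ := hpr x'
    have : y = y' := hidx (by rw [hy, hy', hxx])
    subst this
    refine le_antisymm ((hle _ _).2 ?_) ((hle _ _).2 ?_)
    · exact L.trans _ (hKD (hπ x)) _ (hC.sub hyC) _ (hKD (hπ x')) h1 h2'
    · exact L.trans _ (hKD (hπ x')) _ (hC.sub hyC) _ (hKD (hπ x)) h1' h2
  refine ⟨Λ, iΛ, W, iW, iWf, π, pr, hπ, hle, hsurj, ?_, hinj, fun x => ?_⟩
  · exact eta_of_sat L hsat hC h₀ h₀' h₁ h₁' hne hπ hle hsurj
  · have hN : ∀ u : Ω₁ → W, StrictMono u → ∀ y, L.op y ∈ C →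
        ∃ S : Set T, S.Countable ∧
          (∀ s ∈ S, s ∈ C ∧ L.le s (L.op y) ∧ ∃ z, (∃ o, idx z < u o) ∧ L.op z = s) ∧
          ∀ z, (∃ o, idx z < u o) → L.op z ∈ C → L.le (L.op z) (L.op y) →
            ∃ s ∈ S, L.le (L.op z) s := by
      intro u hmono y hy
      obtain ⟨hcl, hco⟩ := hu u hmono
      obtain ⟨f, hf, c, hfn, hev, hc⟩ := hco y
      have hey := ev_eq hfn hev
      have := hR _ (Closed.union hcl).1 f hf hfn c hc (by rw [hey]; exact hy)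
      rw [hey] at this
      exact this
    have hN' : ∀ u : Ω₁ → W, StrictMono u → ∀ y, L.dual.op y ∈ C →
        ∃ S : Set T, S.Countable ∧
          (∀ s ∈ S, s ∈ C ∧ L.dual.le s (L.dual.op y) ∧
            ∃ z, (∃ o, idx z < u o) ∧ L.dual.op z = s) ∧
          ∀ z, (∃ o, idx z < u o) → L.dual.op z ∈ C → L.dual.le (L.dual.op z) (L.dual.op y) →
            ∃ s ∈ S, L.dual.le (L.dual.op z) s := by
      intro u hmono y hy
      obtain ⟨hcl, hco⟩ := hu u hmono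
      obtain ⟨f, hf, c, hfn, hev, hc⟩ := hco y
      have hey := ev_eq hfn hev
      have := hR' _ (Closed.union hcl).2 f hf hfn c hc (by rw [hey]; exact hy)
      rw [hey] at this
      exact this
    have h1 : {y | y < x ∧ y ∈ Anc pr x}.Countable :=
      anc_below L (seg_countable he) (not_countable he) hidx hC.sub hKC hK hN hπ hle hsurj hpr
        hpr' x
    have h2 : {y : Λᵒᵈ | y < OrderDual.toDual x ∧
        y ∈ Anc (fun z : Λᵒᵈ => pr (OrderDual.ofDual z)) (OrderDual.toDual x)}.Countable := by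
      refine anc_below L.dual (seg_countable he) (not_countable he) hidx hC.sub hKC
        (fun a ha b hb t ht h h' => hK b hb a ha t ht h' h) hN'
        (π := fun z : Λᵒᵈ => π (OrderDual.ofDual z)) (fun z => hπ _) (fun z w => ?_)
        (fun t ht => ?_) (fun z => ?_) (fun z y h h' h'' => ?_) (OrderDual.toDual x)
      · exact hle (OrderDual.ofDual w) (OrderDual.ofDual z)
      · obtain ⟨z, hz, hz'⟩ := hsurj t ht
        exact ⟨OrderDual.toDual z, hz', hz⟩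
      · obtain ⟨y, hy, hyC, h, h'⟩ := hpr (OrderDual.ofDual z)
        exact ⟨y, hy, hyC, h', h⟩
      · exact hpr' (OrderDual.ofDual z) y h h'' h'
    have h3 : {y | x < y ∧ y ∈ Anc pr x}.Countable := by
      refine (h2.image OrderDual.ofDual).mono ?_
      rintro y ⟨hy, hya⟩
      refine ⟨OrderDual.toDual y, ⟨hy, fun z hz => hya (OrderDual.ofDual z) ?_⟩, rfl⟩
      rw [Set.mem_uIcc] at hz ⊢
      rcases hz with hz | hz
      · exact Or.inr ⟨hz.2, hz.1⟩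
      · exact Or.inl ⟨hz.2, hz.1⟩
    refine ((h1.union h3).union (Set.countable_singleton x)).mono ?_
    intro y hy
    rcases lt_trichotomy y x with h | h | h
    · exact Or.inl (Or.inl ⟨h, hy⟩)
    · exact Or.inr h
    · exact Or.inl (Or.inr ⟨h, hy⟩)

/-- The abstract theorem: under the Cohen filtration principle any two maximal chains of a
countably saturated level order are isomorphic (as quotients by equivalence). -/
theorem chains_iso (hCP : CohenPrinciple) (hsat : Sat L) {C C' : Set T} (hC : L.IsMax C)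
    (hC' : L.IsMax C') :
    ∃ Φ : T → T → Prop, (∀ a ∈ C, ∃ b ∈ C', Φ a b) ∧ (∀ b ∈ C', ∃ a ∈ C, Φ a b) ∧
      ∀ a ∈ C, ∀ a' ∈ C, ∀ b ∈ C', ∀ b' ∈ C', Φ a b → Φ a' b' → (L.le a a' ↔ L.le b b') := by
  classical
  obtain ⟨Ω₁, Ω₂, i1, i2, w1, w2, e, he⟩ := hCP
  obtain ⟨b₀, h₀, h₀'⟩ := hsat.bot
  obtain ⟨b₁, h₁, h₁'⟩ := hsat.top
  have hb0 : ∀ {C : Set T}, L.IsMax C → b₀ ∈ C := fun hC =>
    hC.max b₀ h₀ fun a ha => Or.inr (h₀' a (hC.sub ha))
  have hb1 : ∀ {C : Set T}, L.IsMax C → b₁ ∈ C := fun hC =>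
    hC.max b₁ h₁ fun a ha => Or.inl (h₁' a (hC.sub ha))
  by_cases hne : L.le b₁ b₀
  · have hall : ∀ a ∈ L.D, ∀ b ∈ L.D, L.le a b := fun a ha b hb =>
      L.trans a ha b₀ h₀ b hb (L.trans a ha b₁ h₁ b₀ h₀ (h₁' a ha) hne) (h₀' b hb)
    refine ⟨fun _ _ => True, fun a _ => ⟨b₀, hb0 hC', trivial⟩, fun b _ => ⟨b₀, hb0 hC, trivial⟩,
      fun a ha a' ha' b hb b' hb' _ _ => ?_⟩
    exact ⟨fun _ => hall b (hC'.sub hb) b' (hC'.sub hb'),
      fun _ => hall a (hC.sub ha) a' (hC.sub ha')⟩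
  obtain ⟨Λ, iΛ, W, iW, iWf, π, pr, hπ, hle, hsurj, heta, hinj, hanc⟩ :=
    exists_inner_model L hsat he hC h₀ h₀' h₁ h₁' hne
  obtain ⟨Λ', iΛ', W', iW', iWf', π', pr', hπ', hle', hsurj', heta', hinj', hanc'⟩ :=
    exists_inner_model L hsat he hC' h₀ h₀' h₁ h₁' hne
  obtain ⟨F, hF, hFs⟩ := treap_iso hinj hinj' hanc hanc' heta heta'
  -- equivalence
  let Eq : T → T → Prop := fun a b => L.le a b ∧ L.le b a
  have key : ∀ a ∈ L.D, ∀ a' ∈ L.D, ∀ p ∈ L.D, ∀ p' ∈ L.D, Eq a p → Eq a' p' →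
      (L.le a a' ↔ L.le p p') := by
    intro a ha a' ha' p hp p' hp' h h'
    constructor
    · intro h3
      exact L.trans p hp a ha p' hp' h.2 (L.trans a ha a' ha' p' hp' h3 h'.1)
    · intro h3
      exact L.trans a ha p hp a' ha' h.1 (L.trans p hp p' hp' a' ha' h3 h'.2)
  have hcase : ∀ {C : Set T}, L.IsMax C → ∀ a ∈ C, Eq a b₀ ∨ Eq a b₁ ∨ a ∈ Inner L C b₀ b₁ := by
    intro C hC a ha
    by_cases h1 : L.le a b₀
    · exact Or.inl ⟨h1, h₀' a (hC.sub ha)⟩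
    · by_cases h2 : L.le b₁ a
      · exact Or.inr (Or.inl ⟨h₁' a (hC.sub ha), h2⟩)
      · exact Or.inr (Or.inr ⟨ha, h1, h2⟩)
  have hπD : ∀ x, π x ∈ L.D := fun x => hC.sub (hπ x).1
  have hπD' : ∀ x, π' x ∈ L.D := fun x => hC'.sub (hπ' x).1
  refine ⟨fun a b => (Eq a b₀ ∧ Eq b b₀) ∨ (Eq a b₁ ∧ Eq b b₁) ∨
    ∃ x, Eq a (π x) ∧ Eq b (π' (F x)), ?_, ?_, ?_⟩
  · intro a ha
    rcases hcase hC a ha with h | h | h
    · exact ⟨b₀, hb0 hC', Or.inl ⟨h, L.refl _ h₀, L.refl _ h₀⟩⟩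
    · exact ⟨b₁, hb1 hC', Or.inr (Or.inl ⟨h, L.refl _ h₁, L.refl _ h₁⟩)⟩
    · obtain ⟨x, hx⟩ := hsurj a h
      exact ⟨π' (F x), (hπ' _).1, Or.inr (Or.inr ⟨x, hx, L.refl _ (hπD' _), L.refl _ (hπD' _)⟩)⟩
  · intro b hb
    rcases hcase hC' b hb with h | h | h
    · exact ⟨b₀, hb0 hC, Or.inl ⟨⟨L.refl _ h₀, L.refl _ h₀⟩, h⟩⟩
    · exact ⟨b₁, hb1 hC, Or.inr (Or.inl ⟨⟨L.refl _ h₁, L.refl _ h₁⟩, h⟩)⟩
    · obtain ⟨x', hx'⟩ := hsurj' b h
      obtain ⟨x, rfl⟩ := hFs x'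
      exact ⟨π x, (hπ _).1, Or.inr (Or.inr ⟨x, ⟨L.refl _ (hπD _), L.refl _ (hπD _)⟩, hx'⟩)⟩
  · intro a ha a' ha' b hb b' hb' h h'
    have haD := hC.sub ha
    have haD' := hC.sub ha'
    have hbD := hC'.sub hb
    have hbD' := hC'.sub hb'
    rcases h with ⟨h, k⟩ | ⟨h, k⟩ | ⟨x, h, k⟩ <;> rcases h' with ⟨h', k'⟩ | ⟨h', k'⟩ | ⟨x', h', k'⟩
    · rw [key a haD a' haD' b₀ h₀ b₀ h₀ h h', key b hbD b' hbD' b₀ h₀ b₀ h₀ k k']
    · rw [key a haD a' haD' b₀ h₀ b₁ h₁ h h', key b hbD b' hbD' b₀ h₀ b₁ h₁ k k']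
    · rw [key a haD a' haD' b₀ h₀ _ (hπD x') h h', key b hbD b' hbD' b₀ h₀ _ (hπD' _) k k']
      exact iff_of_true (h₀' _ (hπD x')) (h₀' _ (hπD' _))
    · rw [key a haD a' haD' b₁ h₁ b₀ h₀ h h', key b hbD b' hbD' b₁ h₁ b₀ h₀ k k']
    · rw [key a haD a' haD' b₁ h₁ b₁ h₁ h h', key b hbD b' hbD' b₁ h₁ b₁ h₁ k k']
    · rw [key a haD a' haD' b₁ h₁ _ (hπD x') h h', key b hbD b' hbD' b₁ h₁ _ (hπD' _) k k']
      exact iff_of_false (hπ x').2.2 (hπ' _).2.2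
    · rw [key a haD a' haD' _ (hπD x) b₀ h₀ h h', key b hbD b' hbD' _ (hπD' _) b₀ h₀ k k']
      exact iff_of_false (hπ x).2.1 (hπ' _).2.1
    · rw [key a haD a' haD' _ (hπD x) b₁ h₁ h h', key b hbD b' hbD' _ (hπD' _) b₁ h₁ k k']
      exact iff_of_true (h₁' _ (hπD x)) (h₁' _ (hπD' _))
    · rw [key a haD a' haD' _ (hπD x) _ (hπD x') h h',
        key b hbD b' hbD' _ (hπD' _) _ (hπD' _) k k', ← hle, ← hle']
      exact hF.le_iff_le.symm

end Pool.Agent.CPr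
end
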