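import Pool.Agent.Lib.MP_8c1a1d_lc.CohenReal
import Pool.Agent.Lib.MP_240d5c_lc.Defs
import Pool.Agent.Lib.MP_240d5c_lc.Cat2
import Pool.Agent.Lib.MP_240d5c_lc.Ev

section

set_option linter.unusedSectionVars false
set_option linter.unusedVariables false

namespace Pool.Agent.CPr

open Cardinal Order Pool.Agent.KM

/-- A truth value which depends only on the coordinates in `J` and only on those in `K` depends
only on those in `J ∩ K`.
Hint: given `φ p` and `q` extending `p` on `J ∩ K`, let `r = mix K q p` (equal to `q` on `K`, to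
`p` off `K`); then `LeOn J r p`, so `φ r`, and `LeOn K q r`, so `φ q`. -/
theorem spers_inter {E : Type} {J K : Set E} {φ : Fn ℵ₀ E Bool → Prop} (h : SPers J φ)
    (h' : SPers K φ) : SPers (J ∩ K) φ := by
  intro p q hq hp
  have h1 : LeOn J (mix (le_refl ℵ₀) K q p) p := by
    intro e he a ha
    by_cases hK : e ∈ K
    · rw [mix_f_mem _ hK]
      exact hq e ⟨he, hK⟩ a ha
    · rw [mix_f_not_mem _ hK]
      exact ha
  exact h' _ _ (leOn_mix_left (le_refl ℵ₀)) (h _ _ h1 hp)

/-- Every name of a real has a countable support.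
Hint: `support_countable` (file MP_8c1a1d_lc/CohenReal) for the countably many dense sets
`fun n q => ∃ a, x.app n a q`, then `spers_of_dense` (file Support). -/
theorem exists_countable_support {E : Type} (x : FunName (Fn ℵ₀ E Bool) ℕ ℕ) :
    ∃ K : Set E, K.Countable ∧ ∀ n a, SPers K (x.app n a) := by
  have hA : #Bool ≤ ℵ₀ := Cardinal.mk_le_aleph0
  have hN : #ℕ ≤ ℵ₀ := Cardinal.mk_le_aleph0
  obtain ⟨J, hJ, h⟩ := support_countable (E := E) hA hN (fun n q => ∃ a, x.app n a q)
    (fun n p => x.tot n p)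
  refine ⟨J, Cardinal.le_aleph0_iff_set_countable.1 hJ, fun n a => ?_⟩
  exact spers_of_dense le_rfl (fun b => x.reg n b) (fun a b p => x.sv n a b p)
    (fun p hp => h n p hp) a

end Pool.Agent.CPr
end

section

set_option linter.unusedSectionVars false
set_option linter.unusedVariables false

/-!
# Cohen names over an intermediate model

`J` is a set of coordinates, `k : ℕ → E` an injective enumeration of coordinates outside of `J`.
-/

namespace Pool.Agent.CPr

open Cardinal Order Pool.Agent.KM

variable {E : Type} {k : ℕ → E}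

/-- `p` gives to the coordinate `k i` the `i`-th digit of `s`. -/
def BitsOf (k : ℕ → E) : List Bool → Fn ℵ₀ E Bool → Prop
  | [], _ => True
  | i :: s, p => p.f (k s.length) = some i ∧ BitsOf k s p

theorem BitsOf.mono {s : List Bool} {p q : Fn ℵ₀ E Bool} (hq : q ≤ p) (h : BitsOf k s p) :
    BitsOf k s q := by
  induction s with
  | nil => trivial
  | cons i s ih => exact ⟨hq _ _ h.1, ih h.2⟩

theorem BitsOf.suffix {s t : List Bool} {p : Fn ℵ₀ E Bool} (hst : s <:+ t) (h : BitsOf k t p) :
    BitsOf k s p := by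
  induction t with
  | nil => rw [List.suffix_nil.1 hst]; trivial
  | cons i t ih =>
    rcases List.suffix_cons_iff.1 hst with h' | h'
    · rw [h']; exact h
    · exact ih h' h.2

/-- The conditions coded by finite 0-1 sequences exist. -/
theorem exists_cond (hk : Function.Injective k) (s : List Bool) :
    ∃ p : Fn ℵ₀ E Bool, BitsOf k s p ∧ (∀ e, p.f e ≠ none → ∃ i < s.length, k i = e) ∧
      ∀ q, BitsOf k s q → q ≤ p := by
  induction s with
  | nil =>
    refine ⟨Fn.empty le_rfl, trivial, fun e he => absurd rfl he, fun q _ => Fn.le_empty le_rfl q⟩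
  | cons a s ih =>
    obtain ⟨p, hb, hsupp, hmax⟩ := ih
    have hnone : p.f (k s.length) = none := by
      by_contra hne
      obtain ⟨i, hi, hki⟩ := hsupp _ hne
      have := hk hki
      omega
    obtain ⟨q, hq, hqv, hqo⟩ := Fn.exists_insert le_rfl p (k s.length) a hnone
    refine ⟨q, ⟨hqv, hb.mono hq⟩, ?_, ?_⟩
    · intro e he
      by_cases h : e = k s.length
      · exact ⟨s.length, by simp, h.symm⟩
      · rw [hqo e h] at he
        obtain ⟨i, hi, hki⟩ := hsupp e he
        exact ⟨i, by rw [List.length_cons]; omega, hki⟩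
    · rintro r ⟨hr1, hr2⟩ e b heb
      by_cases h : e = k s.length
      · subst h
        rw [hqv] at heb
        rw [hr1, heb]
      · rw [hqo e h] at heb
        exact hmax r hr2 e b heb

open Classical in
/-- the condition coded by the finite 0-1 sequence `s` -/
noncomputable def cond (hk : Function.Injective k) (s : List Bool) : Fn ℵ₀ E Bool :=
  (exists_cond hk s).choose

theorem cond_bits (hk : Function.Injective k) (s : List Bool) : BitsOf k s (cond hk s) :=
  (exists_cond hk s).choose_spec.1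

theorem cond_supp (hk : Function.Injective k) (s : List Bool) :
    ∀ e, (cond hk s).f e ≠ none → ∃ i < s.length, k i = e :=
  (exists_cond hk s).choose_spec.2.1

theorem le_cond (hk : Function.Injective k) {s : List Bool} {q : Fn ℵ₀ E Bool}
    (h : BitsOf k s q) : q ≤ cond hk s :=
  (exists_cond hk s).choose_spec.2.2 q h

/-- The name of the Cohen real read off the coordinates `k 0, k 1, …`. -/
noncomputable def cohenName (k : ℕ → E) : FunName (Fn ℵ₀ E Bool) ℕ Bool where
  app i b p := p.f (k i) = some b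
  reg i b := by
    refine ⟨fun p q hq hp => hq _ _ hp, fun p hd => ?_⟩
    cases hc : p.f (k i) with
    | some b' =>
      obtain ⟨r, hr, h⟩ := hd p le_rfl
      rw [hr _ _ hc] at h
      exact hc.trans h
    | none =>
      obtain ⟨r, hr, hrv, -⟩ := Fn.exists_insert le_rfl p (k i) (!b) hc
      obtain ⟨t, ht, h⟩ := hd r hr
      rw [ht _ _ hrv] at h
      cases b <;> simp at h
  sv i b c p h h' := by rw [h] at h'; exact Option.some.inj h'
  tot i p := by
    cases hc : p.f (k i) with
    | some b' => exact ⟨p, le_rfl, b', hc⟩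
    | none =>
      obtain ⟨r, hr, hrv, -⟩ := Fn.exists_insert le_rfl p (k i) true hc
      exact ⟨r, hr, true, hrv⟩

theorem fPath_cohenName (s : List Bool) (p : Fn ℵ₀ E Bool) :
    fPath (cohenName k) s p ↔ BitsOf k s p := by
  induction s with
  | nil => exact Iff.rfl
  | cons i s ih => exact and_congr Iff.rfl ih

/-- For a name `y` of a real: the name (over the extension by the coordinates in `J`) of the table
saying which finite sequences `s`, as conditions on the coordinates `k i`, force `y n = v`. -/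
noncomputable def codeName (J : Set E) (hk : Function.Injective k)
    (y : FunName (Fn ℵ₀ E Bool) ℕ ℕ) : FunName (Fn ℵ₀ E Bool) ℕ ℕ where
  app m a q := match (Encodable.decode m : Option (List Bool × ℕ)), a with
    | none, a => a = 0
    | some sn, 0 => fNot (fEx fun v : ℕ => fun q => y.app sn.2 v (mix le_rfl J q (cond hk sn.1))) q
    | some sn, v + 1 => y.app sn.2 v (mix le_rfl J q (cond hk sn.1))
  reg m a := by
    cases hm : (Encodable.decode m : Option (List Bool × ℕ)) with
    | none => exact reg_fFact (a = 0)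
    | some sn =>
      cases a with
      | zero => exact reg_fNot reg_fEx.pers
      | succ v => exact reg_mix le_rfl J (y.reg sn.2 v) (cond hk sn.1)
  sv m a b p h h' := by
    cases hm : (Encodable.decode m : Option (List Bool × ℕ)) with
    | none =>
      simp only [hm] at h h'
      rw [h, h']
    | some sn =>
      have hP : ∀ v : ℕ, Pers fun q => y.app sn.2 v (mix le_rfl J q (cond hk sn.1)) := fun v =>
        (reg_mix le_rfl J (y.reg sn.2 v) (cond hk sn.1)).pers
      simp only [hm] at h h'
      cases a with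
      | zero =>
        cases b with
        | zero => rfl
        | succ w => exact absurd (fEx_intro hP w h') (h p le_rfl)
      | succ v =>
        cases b with
        | zero => exact absurd (fEx_intro hP v h) (h' p le_rfl)
        | succ w => rw [y.sv _ _ _ _ h h']
  tot m p := by
    cases hm : (Encodable.decode m : Option (List Bool × ℕ)) with
    | none => exact ⟨p, le_rfl, 0, rfl⟩
    | some sn =>
      by_cases hE : ∃ q ≤ p, (fEx fun v : ℕ => fun q =>
          y.app sn.2 v (mix le_rfl J q (cond hk sn.1))) q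
      · obtain ⟨q, hq, hE⟩ := hE
        obtain ⟨r, hr, v, hv⟩ := hE q le_rfl
        exact ⟨r, hr.trans hq, v + 1, hv⟩
      · exact ⟨p, le_rfl, 0, fun q hq h => hE ⟨q, hq, h⟩⟩

theorem codeName_val (J : Set E) (hk : Function.Injective k) (y : FunName (Fn ℵ₀ E Bool) ℕ ℕ)
    (s : List Bool) (n v : ℕ) (q : Fn ℵ₀ E Bool) :
    fVal (codeName J hk y) s n (v + 1) q ↔ y.app n v (mix le_rfl J q (cond hk s)) := by
  unfold fVal codeName
  simp only [Encodable.encodek]

theorem codeName_spers (J : Set E) (hk : Function.Injective k) (y : FunName (Fn ℵ₀ E Bool) ℕ ℕ)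
    (m a : ℕ) : SPers J ((codeName J hk y).app m a) := by
  have hS : ∀ (n v : ℕ) (s : List Bool),
      SPers J fun q => y.app n v (mix le_rfl J q (cond hk s)) := by
    intro n v s
    exact spers_mix le_rfl J (y.reg n v).pers (cond hk s)
  intro p q hq hp
  cases hm : (Encodable.decode m : Option (List Bool × ℕ)) with
  | none =>
    simp only [codeName, hm] at hp ⊢
    exact hp
  | some sn =>
    cases a with
    | zero =>
      simp only [codeName, hm] at hp ⊢
      exact spers_fNot le_rfl (spers_fEx le_rfl fun v => hS sn.2 v sn.1) p q hq hp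
    | succ v =>
      simp only [codeName, hm] at hp ⊢
      exact hS sn.2 v sn.1 p q hq hp

theorem codeName_isName_bound (hk : Function.Injective k) (p : Fn ℵ₀ E Bool) :
    ∃ m : ℕ, ∀ i, p.f (k i) ≠ none → i < m := by
  have h1 : Set.Finite {e | p.f e ≠ none} := Cardinal.lt_aleph0_iff_set_finite.1 p.small
  have h2 : Set.Finite (k ⁻¹' {e | p.f e ≠ none}) := h1.preimage hk.injOn
  obtain ⟨m, hm⟩ := h2.bddAbove
  exact ⟨m + 1, fun i hi => Nat.lt_succ_of_le (hm hi)⟩

theorem codeName_isName_ext (hk : Function.Injective k) {s : List Bool} {p : Fn ℵ₀ E Bool}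
    (hs : BitsOf k s p) (n : ℕ) : ∃ q ≤ p, ∃ t : List Bool, s <:+ t ∧ t.length = s.length + n ∧
      BitsOf k t q ∧ ∀ e, q.f e ≠ none → p.f e ≠ none ∨ ∃ i < t.length, k i = e := by
  induction n with
  | zero => exact ⟨p, le_rfl, s, List.suffix_refl s, rfl, hs, fun e he => Or.inl he⟩
  | succ n ih =>
    obtain ⟨q, hq, t, hst, htl, hbt, hsupp⟩ := ih
    cases hcase : q.f (k t.length) with
    | some a =>
      refine ⟨q, hq, a :: t, hst.trans (List.suffix_cons a t), ?_, ⟨hcase, hbt⟩, fun e he => ?_⟩
      · rw [List.length_cons, htl]; rfl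
      · rcases hsupp e he with h | ⟨i, hi, h⟩
        · exact Or.inl h
        · exact Or.inr ⟨i, by rw [List.length_cons]; omega, h⟩
    | none =>
      obtain ⟨r, hr, hrv, hro⟩ := Fn.exists_insert le_rfl q (k t.length) true hcase
      refine ⟨r, hr.trans hq, true :: t, hst.trans (List.suffix_cons true t), ?_,
        ⟨hrv, hbt.mono hr⟩, fun e he => ?_⟩
      · rw [List.length_cons, htl]; rfl
      · by_cases h : e = k t.length
        · exact Or.inr ⟨t.length, by rw [List.length_cons]; omega, h.symm⟩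
        · rw [hro e h] at he
          rcases hsupp e he with h' | ⟨i, hi, h'⟩
          · exact Or.inl h'
          · exact Or.inr ⟨i, by rw [List.length_cons]; omega, h'⟩

theorem codeName_isName_eq {s : List Bool} {p q : Fn ℵ₀ E Bool} (hp : BitsOf k s p)
    (hq : BitsOf k s q) {i : ℕ} (hi : i < s.length) : p.f (k i) = q.f (k i) := by
  induction s with
  | nil => exact absurd hi (Nat.not_lt_zero _)
  | cons a s ih =>
    rw [List.length_cons] at hi
    rcases Nat.lt_succ_iff_lt_or_eq.1 hi with h | h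
    · exact ih hp.2 hq.2 h
    · rw [h, hp.1, hq.1]

theorem codeName_isName_bits {s : List Bool} {p q : Fn ℵ₀ E Bool}
    (h : LeOn (Set.range k) q p) (hp : BitsOf k s p) : BitsOf k s q := by
  induction s with
  | nil => trivial
  | cons a s ih => exact ⟨h _ ⟨_, rfl⟩ _ hp.1, ih hp.2⟩

/-- a condition which contains the digits of `s` and nothing else at the coordinates `k i` is
extended there by `cond s` -/
theorem codeName_isName_leOn (hk : Function.Injective k) {s : List Bool} {p : Fn ℵ₀ E Bool}
    (hp : ∀ i, p.f (k i) ≠ none → i < s.length) {q : Fn ℵ₀ E Bool} (hqp : q ≤ p)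
    (hq : BitsOf k s q) :
    LeOn (Set.range k) (cond hk s) p := by
  rintro e ⟨i, rfl⟩ a ha
  have hi : i < s.length := hp i (by rw [ha]; simp)
  rw [codeName_isName_eq (cond_bits hk s) hq hi]
  exact hqp _ _ ha

theorem codeName_isName_mix {J : Set E} (hkJ : ∀ i, k i ∉ J) {x r c : Fn ℵ₀ E Bool}
    (h1 : LeOn J r x) (h2 : LeOn (Set.range k) c x) :
    LeOn (J ∪ Set.range k) (mix le_rfl J r c) x := by
  rintro e he a ha
  rcases he with he | ⟨i, rfl⟩
  · rw [mix_f_mem _ he]; exact h1 e he a ha
  · rw [mix_f_not_mem _ (hkJ i)]; exact h2 _ ⟨i, rfl⟩ a ha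

/-- Uses: `mix J q (cond t) ≤ mix J q (cond s)` for `s <:+ t`; and for density: extend
`mix J q (cond s)` to decide `y n`; the extension restricted to `range k` is extended by some
`cond t` with `t` long.  The support of `y` is contained in `J ∪ range k`. -/
theorem codeName_isName {J : Set E} (hk : Function.Injective k) (hkJ : ∀ i, k i ∉ J)
    {y : FunName (Fn ℵ₀ E Bool) ℕ ℕ} (hy : ∀ n a, SPers (J ∪ Set.range k) (y.app n a))
    (p : Fn ℵ₀ E Bool) : fIsName (codeName J hk y) p := by
  refine ⟨?_, ?_⟩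
  · rintro ⟨s, t⟩ n q _ hst v q' _ hv q'' _ hq
    have hst' : s <:+ t := hst
    have hv' : v ≠ 0 := hv
    obtain ⟨v, rfl⟩ := Nat.exists_eq_succ_of_ne_zero hv'
    have hq' : fVal (codeName J hk y) s n (v + 1) q'' := hq
    show fVal (codeName J hk y) t n (v + 1) q''
    rw [codeName_val] at hq' ⊢
    refine (y.reg n v).mono (mix_le_mix le_rfl (LeOn.refl _ _) (LeOn.of_le ?_)) hq'
    exact le_cond hk ((cond_bits hk t).suffix hst')
  · intro s n q _
    obtain ⟨x, hx, a, ha⟩ := y.tot n (mix le_rfl J q (cond hk s))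
    have hbx : BitsOf k s x := by
      refine codeName_isName_bits ?_ (cond_bits hk s)
      rintro e ⟨i, rfl⟩ b hb
      refine hx _ _ ?_
      rw [mix_f_not_mem _ (hkJ i)]; exact hb
    obtain ⟨m, hm⟩ := codeName_isName_bound hk x
    obtain ⟨x', hx', t, hst, htl, hbt, -⟩ := codeName_isName_ext hk hbx m
    have hle : LeOn (Set.range k) (cond hk t) x :=
      codeName_isName_leOn hk (fun i hi => by have := hm i hi; omega) hx' hbt
    refine ⟨mix le_rfl J x q, mix_le le_rfl ((LeOn.of_le hx).trans (mix_leOn_left le_rfl)), t,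
      hst, ?_⟩
    intro q' hq'
    refine ⟨q', le_rfl, a + 1, Nat.succ_ne_zero a, ?_⟩
    rw [codeName_val]
    refine hy n a _ _ (codeName_isName_mix hkJ ?_ hle) ha
    exact (LeOn.of_le hq').trans (mix_leOn_left le_rfl)

/-- Given `q`, extend it to decide `y n = v`, and then to decide all digits `k 0, …, k (m-1)`,
where the `k i` in the domain of the condition have `i < m`. -/
theorem codeName_eval {J : Set E} (hk : Function.Injective k) (hkJ : ∀ i, k i ∉ J)
    {y : FunName (Fn ℵ₀ E Bool) ℕ ℕ} (hy : ∀ n a, SPers (J ∪ Set.range k) (y.app n a))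
    (p : Fn ℵ₀ E Bool) : fEval (codeName J hk y) (cohenName k) y p := by
  intro n q _
  obtain ⟨x, hx, a, ha⟩ := y.tot n q
  obtain ⟨m, hm⟩ := codeName_isName_bound hk x
  obtain ⟨r, hr, s, _, hsl, hbs, -⟩ :=
    codeName_isName_ext hk (s := []) (p := x) trivial m
  refine ⟨r, hr.trans hx, s, (fPath_cohenName s r).2 hbs, fun q' hq' => ?_⟩
  refine ⟨q', le_rfl, a, (y.reg n a).mono (hq'.trans hr) ha, ?_⟩
  rw [codeName_val]
  refine hy n a _ _ (codeName_isName_mix hkJ (LeOn.of_le (hq'.trans hr)) ?_) ha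
  exact codeName_isName_leOn hk (fun i hi => by
    have := hm i hi
    rw [List.length_nil] at hsl
    omega) hr hbs

/-- The real `cohenName k` meets every dense set coded by a real of the extension by `J`. -/
theorem cohenName_generic {J : Set E} (hk : Function.Injective k) (hkJ : ∀ i, k i ∉ J)
    {d : FunName (Fn ℵ₀ E Bool) ℕ ℕ} (hd : ∀ n a, SPers J (d.app n a)) (p : Fn ℵ₀ E Bool) :
    fImp (fDenseCode d) (fEx fun s : List Bool => fAnd (fPath (cohenName k) s)
      (fEx fun v : ℕ => fAnd (fFact (v ≠ 0)) (d.app (Encodable.encode s) v))) p := by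
  intro q _ hden q1 hq1
  obtain ⟨m, hm⟩ := codeName_isName_bound hk q1
  obtain ⟨q2, hq2, s, _, hsl, hbs, hsupp⟩ :=
    codeName_isName_ext hk (s := []) (p := q1) trivial m
  rw [List.length_nil, zero_add] at hsl
  have hm2 : ∀ i, q2.f (k i) ≠ none → i < s.length := by
    intro i hi
    rcases hsupp _ hi with h | ⟨j, hj, h⟩
    · rw [hsl]; exact hm i h
    · rw [← hk h]; exact hj
  obtain ⟨r, hr, t, hst, hex⟩ := hden s q2 (hq2.trans hq1)
  have hst' : s <:+ t := hst
  obtain ⟨r', hr', v, hv, hd'⟩ := hex r le_rfl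
  have hv' : v ≠ 0 := hv
  have hr2 : r' ≤ q2 := hr'.trans hr
  -- the part of `r'` in `J`, the digits `t`, and the rest of `q2`
  have hle1 : mix le_rfl J r' q2 ≤ q2 := mix_le le_rfl (LeOn.of_le hr2)
  have hle2 : mix le_rfl (Set.range k) (cond hk t) (mix le_rfl J r' q2) ≤ mix le_rfl J r' q2 := by
    refine mix_le le_rfl ?_
    rintro e ⟨i, rfl⟩ b hb
    rw [mix_f_not_mem _ (hkJ i)] at hb
    have hi : i < s.length := hm2 i (by rw [hb]; simp)
    rw [codeName_isName_eq ((cond_bits hk t).suffix hst') hbs hi]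
    exact hb
  refine ⟨mix le_rfl (Set.range k) (cond hk t) (mix le_rfl J r' q2),
    (hle2.trans hle1).trans hq2, t, ?_, fun q' hq' => ⟨q', le_rfl, v, hv', ?_⟩⟩
  · rw [fPath_cohenName]
    exact codeName_isName_bits (mix_leOn_left le_rfl) (cond_bits hk t)
  · exact hd _ _ _ _ ((LeOn.of_le (hq'.trans hle2)).trans (mix_leOn_left le_rfl)) hd'

end Pool.Agent.CPr
end

section

set_option linter.unusedSectionVars false
set_option linter.unusedVariables false

namespace Pool.Agent.CPr

open Cardinal Order Pool.Agent.KM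

open Classical in
/-- the condition given by a finite list of values at the coordinates `g i` -/
noncomputable def enum_names_pull {E : Type} (g : ℕ → Option E) (l : List (ℕ × Bool)) :
    Fn ℵ₀ E Bool :=
  ⟨fun e => if h : ∃ b i, (i, b) ∈ l ∧ g i = some e then some h.choose else none, by
    refine (Cardinal.lt_aleph0_iff_set_finite (S := {e | (if h : ∃ b i, (i, b) ∈ l ∧ g i = some e
      then some h.choose else none : Option Bool) ≠ none})).2 ?_
    have hfin : ((fun ib : ℕ × Bool => g ib.1) '' {x | x ∈ l}).Finite :=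
      (List.finite_toSet l).image _
    refine (hfin.preimage (f := (some : E → Option E)) (Option.some_injective E).injOn).subset ?_
    intro e he
    by_cases h : ∃ b i, (i, b) ∈ l ∧ g i = some e
    · obtain ⟨b, i, hb, hi⟩ := h
      exact ⟨(i, b), hb, hi⟩
    · exact absurd (dif_neg h) he⟩

theorem enum_names_pull_f {E : Type} (g : ℕ → Option E) (l : List (ℕ × Bool)) (e : E)
    (b : Bool) (h : ∃ i, (i, b) ∈ l ∧ g i = some e)
    (hu : ∀ i b', (i, b') ∈ l → g i = some e → b' = b) :
    (enum_names_pull g l).f e = some b := by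
  obtain ⟨i, hi⟩ := h
  have hex : ∃ b i, (i, b) ∈ l ∧ g i = some e := ⟨b, i, hi⟩
  have : (enum_names_pull g l).f e = some hex.choose := dif_pos hex
  rw [this]
  obtain ⟨i', h1, h2⟩ := hex.choose_spec
  rw [hu i' _ h1 h2]

theorem enum_names_pull_none {E : Type} (g : ℕ → Option E) (l : List (ℕ × Bool)) (e : E)
    (h : ∀ i b, (i, b) ∈ l → g i ≠ some e) : (enum_names_pull g l).f e = none := by
  have hex : ¬ ∃ b i, (i, b) ∈ l ∧ g i = some e := by
    rintro ⟨b, i, h1, h2⟩
    exact h i b h1 h2
  exact dif_neg hex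

theorem enum_names_exists_list {E : Type} (g : ℕ → Option E) (p : Fn ℵ₀ E Bool) :
    ∃ l : List (ℕ × Bool), ∀ e, (∃ i, g i = some e) → (enum_names_pull g l).f e = p.f e := by
  classical
  have hfin : {e | p.f e ≠ none}.Finite := Cardinal.lt_aleph0_iff_set_finite.1 p.small
  -- the list of all pairs
  have hch : ∀ e : E, ∃ i, (∃ i, g i = some e) → g i = some e := by
    intro e
    by_cases h : ∃ i, g i = some e
    · obtain ⟨i, hi⟩ := h
      exact ⟨i, fun _ => hi⟩
    · exact ⟨0, fun h' => absurd h' h⟩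
  choose idx hidx using hch
  let s : Finset E := hfin.toFinset.filter (fun e => ∃ i, g i = some e)
  refine ⟨s.toList.map (fun e => (idx e, (p.f e).getD false)), ?_⟩
  intro e he
  cases hpe : p.f e with
  | none =>
    apply enum_names_pull_none
    intro i b hib hi
    obtain ⟨e', he', heq⟩ := List.mem_map.1 hib
    rw [Finset.mem_toList, Finset.mem_filter, Set.Finite.mem_toFinset] at he'
    simp only [Prod.mk.injEq] at heq
    have h1 : g (idx e') = some e' := hidx e' he'.2
    rw [heq.1, hi] at h1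
    have h2 : e = e' := Option.some.inj h1
    subst h2
    exact he'.1 hpe
  | some b =>
    apply enum_names_pull_f
    · refine ⟨idx e, List.mem_map.2 ⟨e, ?_, by rw [hpe]; rfl⟩, hidx e he⟩
      rw [Finset.mem_toList, Finset.mem_filter, Set.Finite.mem_toFinset]
      refine ⟨?_, he⟩
      show p.f e ≠ none
      rw [hpe]; simp
    · intro i b' hib hi
      obtain ⟨e', he', heq⟩ := List.mem_map.1 hib
      rw [Finset.mem_toList, Finset.mem_filter, Set.Finite.mem_toFinset] at he'
      simp only [Prod.mk.injEq] at heq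
      have h1 : g (idx e') = some e' := hidx e' he'.2
      rw [heq.1, hi] at h1
      have h2 : e = e' := Option.some.inj h1
      subst h2
      rw [← heq.2, hpe]
      rfl

theorem enum_names_ext {P A B : Type} [Preorder P] {x y : FunName P A B}
    (h : ∀ n a p, x.app n a p ↔ y.app n a p) : x = y := by
  obtain ⟨xa, _, _, _⟩ := x
  obtain ⟨ya, _, _, _⟩ := y
  have : xa = ya := by
    funext n a p
    exact propext (h n a p)
  subst this
  rfl

theorem enum_names_code {E : Type} {J : Set E} (x : FunName (Fn ℵ₀ E Bool) ℕ ℕ)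
    (hx : ∀ n a, SPers J (x.app n a)) :
    ∃ g : ℕ → Option J, ∀ n a,
      SPers {e | ∃ i, (g i).map Subtype.val = some e} (x.app n a) := by
  obtain ⟨K, hKc, hK⟩ := exists_countable_support x
  have hc : ({o : Option J | o = none ∨ ∃ e, e.1 ∈ K ∧ o = some e}).Countable := by
    have h1 : ({e : J | e.1 ∈ K}).Countable := hKc.preimage Subtype.val_injective
    refine ((h1.image some).insert none).mono ?_
    rintro o (rfl | ⟨e, he, rfl⟩)
    · exact Set.mem_insert _ _
    · exact Set.mem_insert_of_mem _ ⟨e, he, rfl⟩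
  obtain ⟨g, hg⟩ := hc.exists_eq_range ⟨none, Or.inl rfl⟩
  refine ⟨g, fun n a => ?_⟩
  intro p q hqp hp
  refine spers_inter (hx n a) (hK n a) p q ?_ hp
  intro e he b hb
  refine hqp e ?_ b hb
  have h2 : (some ⟨e, he.1⟩ : Option J) ∈ Set.range g := by
    rw [← hg]
    exact Or.inr ⟨⟨e, he.1⟩, he.2, rfl⟩
  obtain ⟨i, hi⟩ := h2
  exact ⟨i, by rw [hi]; rfl⟩

/-- Under CH there are at most `ℵ₁` names of reals with support in a set `J` of size `≤ ℵ₁`.
Hint: a name `x` with support `J` has a countable support `K ⊆ J` (`exists_countable_support`,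
`spers_inter`).  Write `K ⊆ range g` with `g : ℕ → J` (if `J` is empty use `K = ∅` separately, or
`g : ℕ → Option J`).  The name is determined by `g` and the table `φ : ℕ → ℕ → Fn ℵ₀ ℕ Bool → Prop`,
`φ n a q = x.app n a (push q)`, where `push q` is a condition with support in `range g` (make `g`
injective on the support, or let the table depend on all conditions `q : Fn ℵ₀ ℕ Bool`, a countable
type).  Another way: the table `φ` on the (countably many) conditions with support in `K`
(`card_supported` with `θ = ℵ₀`); `x.app n a p` holds iff `φ` holds at the restriction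
`mix K p empty` of `p`.  So the set of these names injects into a set of size
`(ℵ₁ ^ ℵ₀) * 2 ^ ℵ₀ = 𝔠 = ℵ₁`. -/
theorem enum_names (hCH : Cardinal.continuum = ℵ₁) {E : Type} (J : Set E) (hJ : #J ≤ ℵ₁)
    {Ω₁ : Type} (hΩ : #Ω₁ = ℵ₁) :
    ∃ g : Ω₁ → FunName (Fn ℵ₀ E Bool) ℕ ℕ, (∀ ξ n a, SPers J ((g ξ).app n a)) ∧
      ∀ x : FunName (Fn ℵ₀ E Bool) ℕ ℕ, (∀ n a, SPers J (x.app n a)) → ∃ ξ, g ξ = x := by
  classical
  have hCH0 : (Cardinal.continuum : Cardinal.{0}) = ℵ₁ := by
    apply Cardinal.lift_injective.{u_1, 0}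
    rw [Cardinal.lift_continuum, Cardinal.lift_aleph, Ordinal.lift_one]
    exact hCH
  let X : Type := {x : FunName (Fn ℵ₀ E Bool) ℕ ℕ // ∀ n a, SPers J (x.app n a)}
  have hne : Nonempty X := by
    refine ⟨⟨⟨fun _ a _ => a = 0, fun _ a => ⟨fun _ _ _ h => h, fun p h => ?_⟩,
      fun _ a b _ h h' => h.trans h'.symm, fun _ p => ⟨p, le_rfl, 0, rfl⟩⟩, ?_⟩⟩
    · obtain ⟨_, _, h⟩ := h p le_rfl
      exact h
    · intro n a p q _ h
      exact h
  choose G hG using fun x : X => enum_names_code x.1 x.2
  let tbl : X → Set (ℕ × ℕ × List (ℕ × Bool)) := fun x =>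
    {t | x.1.app t.1 t.2.1 (enum_names_pull (fun i => (G x i).map Subtype.val) t.2.2)}
  have hinj : Function.Injective (fun x : X => (G x, tbl x)) := by
    intro x y hxy
    simp only [Prod.mk.injEq] at hxy
    obtain ⟨h1, h2⟩ := hxy
    apply Subtype.ext
    apply enum_names_ext
    intro n a p
    obtain ⟨l, hl⟩ := enum_names_exists_list (fun i => (G x i).map Subtype.val) p
    have key : ∀ z : X, G z = G x → (z.1.app n a p ↔ (n, a, l) ∈ tbl z) := by
      intro z hz
      have hs := hG z n a
      rw [hz] at hs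
      show z.1.app n a p ↔ z.1.app n a (enum_names_pull (fun i => (G z i).map Subtype.val) l)
      rw [hz]
      constructor
      · apply hs
        intro e he b hb
        rw [hl e he]
        exact hb
      · apply hs
        intro e he b hb
        rw [hl e he] at hb
        exact hb
    rw [key x rfl, key y h1.symm, h2]
  have hcard : #X ≤ #Ω₁ := by
    refine (Cardinal.mk_le_of_injective hinj).trans ?_
    rw [Cardinal.mk_prod, Cardinal.lift_id, Cardinal.lift_id, hΩ, ← hCH0]
    have h1 : #(ℕ → Option J) ≤ Cardinal.continuum := by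
      rw [← Cardinal.power_def]
      have h2 : #(Option J) ≤ Cardinal.continuum := by
        rw [Cardinal.mk_option]
        refine (add_le_add (hJ.trans hCH0.ge)
          (Cardinal.one_le_aleph0.trans Cardinal.aleph0_le_continuum)).trans ?_
        rw [Cardinal.continuum_add_self]
      refine (Cardinal.power_le_power_right h2).trans ?_
      rw [Cardinal.mk_nat, Cardinal.continuum_power_aleph0]
    have h3 : #(Set (ℕ × ℕ × List (ℕ × Bool))) ≤ Cardinal.continuum := by
      rw [Cardinal.mk_set, ← Cardinal.two_power_aleph0]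
      exact Cardinal.power_le_power_left two_ne_zero (Cardinal.mk_le_aleph0)
    refine (mul_le_mul' h1 h3).trans ?_
    rw [Cardinal.continuum_mul_self]
  obtain ⟨f⟩ := hcard
  refine ⟨fun ξ => (Function.invFun f ξ).1, fun ξ n a => (Function.invFun f ξ).2 n a, ?_⟩
  intro x hx
  refine ⟨f ⟨x, hx⟩, ?_⟩
  have := Function.leftInverse_invFun f.injective ⟨x, hx⟩
  show (Function.invFun f (f ⟨x, hx⟩)).1 = x
  rw [this]

end Pool.Agent.CPr
end

section

set_option linter.unusedSectionVars false
set_option linter.unusedVariables false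

namespace Pool.Agent.CPr

open Cardinal Order Pool.Agent.KM

variable {E : Type}

/-- Every value of a name of a function has at most countably many possible values.
Hint: `possible_countable` (MP_8c1a1d_lc/CohenReal). -/
theorem possible (A B : Type) (g : FunName (Fn ℵ₀ E Bool) A B) (a : A) :
    {b | ∃ r, g.app a b r}.Countable :=
  Cardinal.le_aleph0_iff_set_countable.1
    (possible_countable (Cardinal.mk_le_aleph0 : #Bool ≤ ℵ₀) g a)

/-- An uncountable ground model set stays uncountable. -/
theorem f_unc {Ω₁ : Type} (h : ℵ₀ < #Ω₁) (p : Fn ℵ₀ E Bool) :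
    (fAll fun g : FunName (Fn ℵ₀ E Bool) ℕ Ω₁ => fEx fun ξ : Ω₁ => fAll fun n : ℕ =>
      fNot (g.app n ξ)) p := by
  intro g q _
  have hc : (⋃ n : ℕ, {b | ∃ r, g.app n b r}).Countable :=
    Set.countable_iUnion fun n => possible ℕ Ω₁ g n
  obtain ⟨ξ, hξ⟩ : ∃ ξ, ξ ∉ ⋃ n : ℕ, {b | ∃ r, g.app n b r} := by
    by_contra hne
    push Not at hne
    have hu : (Set.univ : Set Ω₁).Countable := hc.mono fun x _ => hne x
    have := Cardinal.le_aleph0_iff_set_countable.2 hu
    rw [Cardinal.mk_univ] at this
    exact absurd h (not_lt.2 this)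
  refine ⟨q, le_rfl, ξ, fun n r _ hr => hξ ?_⟩
  exact Set.mem_iUnion.2 ⟨n, r, hr⟩

/-- Functions from a ground model set of size `ℵ₁` to a well-order of type `ω₂` are bounded.
Hint: `possible` and `exists_bound` (MP_8c1a1d_lc/Support). -/
theorem f_bdd {Ω₁ Ω₂ : Type} [LinearOrder Ω₂] [WellFoundedLT Ω₂] (h₁ : #Ω₁ = ℵ₁)
    (h₂ : Ordinal.type (fun a b : Ω₂ => a < b) = (ℵ_ 2).ord) (p : Fn ℵ₀ E Bool) :
    (fAll fun g : FunName (Fn ℵ₀ E Bool) Ω₁ Ω₂ => fEx fun β : Ω₂ => fAll fun ξ : Ω₁ =>
      fAll fun γ : Ω₂ => fImp (g.app ξ γ) (fFact (γ < β))) p := by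
  intro g
  have hreg : (ℵ_ 2).IsRegular := by
    have h := Cardinal.isRegular_aleph_succ 1
    have e : Order.succ (1 : Ordinal.{0}) = 2 := by
      rw [← Ordinal.add_one_eq_succ]; norm_num
    rwa [e] at h
  have h12 : (ℵ_ 1 : Cardinal.{0}) < ℵ_ 2 := Cardinal.aleph_lt_aleph.2 (by norm_num)
  have hG : ∀ ξ : Ω₁, ∃ G : Ω₂, ∀ b, (∃ r, g.app ξ b r) → b < G := by
    intro ξ
    obtain ⟨G, hG⟩ := exists_bound hreg h₂ {b | ∃ r, g.app ξ b r}
      (((possible Ω₁ Ω₂ g ξ).le_aleph0).trans_lt
        (Cardinal.aleph0_lt_aleph_one.trans h12))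
    exact ⟨G, fun b hb => hG b hb⟩
  choose G hG using hG
  obtain ⟨β, hβ⟩ := exists_bound hreg h₂ (Set.range G)
    ((Cardinal.mk_range_le).trans_lt (by rw [h₁]; exact h12))
  refine fEx_intro (fun y => ?_) β ?_
  · exact (reg_fAll fun ξ => reg_fAll fun γ => reg_fImp (g.reg _ _).pers (reg_fFact _)).pers
  · intro ξ γ q _ hq
    exact (hG ξ γ ⟨q, hq⟩).trans (hβ _ ⟨ξ, rfl⟩)

/-- Ground model surjections are still there (used for `seg₁` and `seg₂`). -/
theorem f_surj {P A B : Type} [Preorder P] (S : Set B) (g : A → B) (hg : ∀ b ∈ S, ∃ a, g a = b)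
    (p : P) : (fEx fun g : FunName P A B => fAll fun b : B => fImp (fFact (b ∈ S))
      (fEx fun a : A => g.app a b)) p := by
  refine fun q _ => ⟨q, le_rfl, checkFun P g, fun b r _ hb r' _ => ?_⟩
  obtain ⟨a, ha⟩ := hg b hb
  exact ⟨r', le_rfl, a, ha⟩

/-- If `α` is the supremum of countably many smaller elements, then no condition forces that it is
not. -/
theorem uncCof_of_forced {P Ω₂ : Type} [Preorder P] [LinearOrder Ω₂] {α : Ω₂} {p : P}
    (h : fUncCof α p) : UncCof α := by
  intro g
  obtain ⟨q, _, β, hβ, hq⟩ := h (checkFun P g) p le_rfl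
  exact ⟨β, hβ, fun n hn => hq n (g n) q le_rfl ⟨rfl, hn⟩⟩

end Pool.Agent.CPr
end

section

set_option linter.unusedSectionVars false
set_option linter.unusedVariables false

namespace Pool.Agent.CPr

open Pool.Agent.KM Filter Topology

/-- `c` meets the set of conditions coded by `d`. -/
def Meets (c : Cs) (d : ℕ → ℕ) : Prop := ∃ m, d (Encodable.encode (path c m)) ≠ 0

/-- The statement that generic reals decide membership in `S` by conditions. -/
def Decides (c : Cs) (S : Set Cs) : Prop :=
  (c ∈ S ↔ ∃ q, c ∈ cyl q ∧ Cat q S) ∧ (c ∉ S ↔ ∃ q, c ∈ cyl q ∧ Cat q Sᶜ)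

open Classical in
/-- the real coding a set of conditions -/
noncomputable def codeOf (Q : Set (List Bool)) : ℕ → ℕ := fun n =>
  if ∃ q ∈ Q, Encodable.encode q = n then 1 else 0

theorem codeOf_ne {Q : Set (List Bool)} {q : List Bool} :
    codeOf Q (Encodable.encode q) ≠ 0 ↔ q ∈ Q := by
  unfold codeOf
  constructor
  · intro h
    by_contra hq
    apply h
    rw [if_neg]
    rintro ⟨q', hq', he⟩
    rw [Encodable.encode_injective he] at hq'
    exact hq hq'
  · intro h
    rw [if_pos ⟨q, h, rfl⟩]
    exact one_ne_zero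

theorem exists_codes_clash {S : Set Cs} {c : Cs} {q q' : List Bool} (hq : c ∈ cyl q)
    (hq' : c ∈ cyl q') (h : Cat q S) (h' : Cat q' Sᶜ) : False := by
  rcases suffix_or hq hq' with hs | hs
  · obtain ⟨c', -, hc'⟩ := ((h.mono hs).inter h').nonempty
    exact hc'.2 hc'.1
  · obtain ⟨c', -, hc'⟩ := (h.inter (h'.mono hs)).nonempty
    exact hc'.2 hc'.1

/-- Every Borel set has countably many dense sets of conditions such that every `c` meeting them
decides membership in `S` by conditions.
Hint: let `U` be open with `S =ᵇ U` (`MeasurableSet.residualEq_isOpen`), so `S` and `U` agree on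
`⋂ n, W n` with `W n` dense open; take the sets `{q | cyl q ⊆ W n}` and
`{q | cyl q ⊆ U ∨ Disjoint (cyl q) U}`. -/
theorem exists_codes {S : Set Cs} (hS : MeasurableSet S) :
    ∃ 𝒟 : Set (ℕ → ℕ), 𝒟.Countable ∧ (∀ d ∈ 𝒟, DenseCode d) ∧
      ∀ c, (∀ d ∈ 𝒟, Meets c d) → Decides c S := by
  classical
  obtain ⟨U, hU, hSU⟩ := hS.residualEq_isOpen
  have hres : {c : Cs | c ∈ S ↔ c ∈ U} ∈ residual Cs := by
    filter_upwards [hSU] with c hc
    exact iff_of_eq hc
  obtain ⟨𝒲, hWo, hWd, hWc, hWs⟩ := mem_residual_iff.1 hres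
  let Q : Set Cs → Set (List Bool) := fun W => {q | cyl q ⊆ W}
  let Q₀ : Set (List Bool) := {q | cyl q ⊆ U ∨ Disjoint (cyl q) U}
  refine ⟨insert (codeOf Q₀) ((fun W => codeOf (Q W)) '' 𝒲), (hWc.image _).insert _, ?_, ?_⟩
  · rintro d (rfl | ⟨W, hW, rfl⟩) s
    · by_cases h : ∃ t, s <:+ t ∧ cyl t ⊆ U
      · obtain ⟨t, h1, h2⟩ := h
        exact ⟨t, h1, codeOf_ne.2 (Or.inl h2)⟩
      · refine ⟨s, List.suffix_refl s, codeOf_ne.2 (Or.inr ?_)⟩
        rw [Set.disjoint_left]
        intro c hc hcU
        obtain ⟨q', h1, h2, h3⟩ := exists_cyl_subset' hU hcU hc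
        exact h ⟨q', h1, h3⟩
    · obtain ⟨c, hc, hcW⟩ := (hWd W hW).inter_open_nonempty _ (isOpen_cyl s) (cyl_nonempty s)
      obtain ⟨q', h1, h2, h3⟩ := exists_cyl_subset' (hWo W hW) hcW hc
      exact ⟨q', h1, codeOf_ne.2 h3⟩
  · intro c hc
    have hcW : c ∈ ⋂₀ 𝒲 := by
      intro W hW
      obtain ⟨m, hm⟩ := hc _ (Set.mem_insert_of_mem _ ⟨W, hW, rfl⟩)
      exact (codeOf_ne.1 hm) (mem_cyl_path c m)
    have hiff : c ∈ S ↔ c ∈ U := hWs hcW
    obtain ⟨m, hm⟩ := hc _ (Set.mem_insert _ _)
    have hm' := codeOf_ne.1 hm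
    have hin : c ∈ S → ∃ q, c ∈ cyl q ∧ Cat q S := by
      intro h
      rcases hm' with h' | h'
      · refine ⟨path c m, mem_cyl_path c m, ?_⟩
        filter_upwards [hres] with c' hc' hcyl
        exact hc'.2 (h' hcyl)
      · exact absurd (hiff.1 h) (Set.disjoint_left.1 h' (mem_cyl_path c m))
    have hout : c ∉ S → ∃ q, c ∈ cyl q ∧ Cat q Sᶜ := by
      intro h
      rcases hm' with h' | h'
      · exact absurd (hiff.2 (h' (mem_cyl_path c m))) h
      · refine ⟨path c m, mem_cyl_path c m, ?_⟩
        filter_upwards [hres] with c' hc' hcyl hS'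
        exact Set.disjoint_left.1 h' hcyl (hc'.1 hS')
    refine ⟨⟨hin, ?_⟩, ⟨hout, ?_⟩⟩
    · rintro ⟨q, h1, h2⟩
      by_contra h
      obtain ⟨q', h3, h4⟩ := hout h
      exact exists_codes_clash h1 h3 h2 h4
    · rintro ⟨q, h1, h2⟩ h
      obtain ⟨q', h3, h4⟩ := hin h
      exact exists_codes_clash h3 h1 h4 h2

end Pool.Agent.CPr
end

section

set_option linter.unusedSectionVars false
set_option linter.unusedVariables false

/-!
# Preorders given by closed levels
-/

namespace Pool.Agent.CPr

open Pool.Agent.KM Filter Topology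

/-- A preorder `le` on the set `D`, where `le a b` holds iff for each `k` there is an `n` such that
`Cl k n a b`; the points of `D` are coded by reals, and the relations `Cl k n` are closed in the
codes of one argument when the other argument is fixed. -/
structure LevelOrder (T : Type) where
  D : Set T
  le : T → T → Prop
  op : (ℕ → ℕ) → T
  surj : ∀ t ∈ D, ∃ y, op y = t
  measD : MeasurableSet {y | op y ∈ D}
  refl : ∀ t ∈ D, le t t
  trans : ∀ a ∈ D, ∀ b ∈ D, ∀ c ∈ D, le a b → le b c → le a c
  Cl : ℕ → ℕ → T → T → Prop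
  le_iff : ∀ a b, le a b ↔ ∀ k, ∃ n, Cl k n a b
  closed_right : ∀ k n a, IsClosed {y | Cl k n a (op y)}
  closed_left : ∀ k n b, IsClosed {y | Cl k n (op y) b}
  lim_right : ∀ a ∈ D, ∀ t ∈ D, (∀ k, ∃ b ∈ D, le a b ∧ ∃ n, Cl k n b t) → le a t
  lim_left : ∀ b ∈ D, ∀ t ∈ D, (∀ k, ∃ a ∈ D, le a b ∧ ∃ n, Cl k n t a) → le t b

namespace LevelOrder

variable {T : Type} (L : LevelOrder T)

/-- The reverse order. -/
def dual : LevelOrder T where
  D := L.D
  le a b := L.le b a
  op := L.op
  surj := L.surj
  measD := L.measD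
  refl := L.refl
  trans a ha b hb c hc h h' := L.trans c hc b hb a ha h' h
  Cl k n a b := L.Cl k n b a
  le_iff a b := L.le_iff b a
  closed_right := L.closed_left
  closed_left := L.closed_right
  lim_right b hb t ht h := L.lim_left b hb t ht h
  lim_left b hb t ht h := L.lim_right b hb t ht h

/-- Maximal chains (closed under equivalence). -/
structure IsMax (C : Set T) : Prop where
  sub : C ⊆ L.D
  chain : ∀ a ∈ C, ∀ b ∈ C, L.le a b ∨ L.le b a
  max : ∀ t ∈ L.D, (∀ a ∈ C, L.le a t ∨ L.le t a) → t ∈ C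

variable {L}

theorem IsMax.dual {C : Set T} (hC : L.IsMax C) : L.dual.IsMax C where
  sub := hC.sub
  chain a ha b hb := (hC.chain a ha b hb).symm
  max t ht h := hC.max t ht fun a ha => (h a ha).symm

variable (L)

/-- the set of all `c` such that `a` is below the value of the name `f` at `c` -/
def Above (a : T) (f : ℕ → ℕ) : Set Cs := {c | L.le a (L.op (ev f c))}

/-- the set of all `c` such that the value of the name `f` at `c` is below `b` -/
def Below (f : ℕ → ℕ) (b : T) : Set Cs := {c | L.le (L.op (ev f c)) b}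

/-- the set of all `c` such that the value of the name `f` at `c` is in `D` -/
def InD (f : ℕ → ℕ) : Set Cs := {c | L.op (ev f c) ∈ L.D}

theorem meas_above (a : T) (f : ℕ → ℕ) : MeasurableSet (L.Above a f) := by
  have e : L.Above a f = ev f ⁻¹' (⋂ k, ⋃ n, {y | L.Cl k n a (L.op y)}) := by
    ext c
    simp only [Above, Set.mem_setOf_eq, L.le_iff, Set.mem_preimage, Set.mem_iInter,
      Set.mem_iUnion]
  rw [e]
  exact measurable_ev f (MeasurableSet.iInter fun k => MeasurableSet.iUnion fun n =>
    (L.closed_right k n a).measurableSet)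

theorem meas_below (f : ℕ → ℕ) (b : T) : MeasurableSet (L.Below f b) := by
  have e : L.Below f b = ev f ⁻¹' (⋂ k, ⋃ n, {y | L.Cl k n (L.op y) b}) := by
    ext c
    simp only [Below, Set.mem_setOf_eq, L.le_iff, Set.mem_preimage, Set.mem_iInter,
      Set.mem_iUnion]
  rw [e]
  exact measurable_ev f (MeasurableSet.iInter fun k => MeasurableSet.iUnion fun n =>
    (L.closed_left k n b).measurableSet)

theorem meas_inD (f : ℕ → ℕ) : MeasurableSet (L.InD f) := by
  exact measurable_ev f L.measD

theorem meas_cl_right (k n : ℕ) (a : T) (f : ℕ → ℕ) :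
    MeasurableSet {c | L.Cl k n a (L.op (ev f c))} := by
  exact measurable_ev f (L.closed_right k n a).measurableSet

theorem meas_cl_left (k n : ℕ) (f : ℕ → ℕ) (b : T) :
    MeasurableSet {c | L.Cl k n (L.op (ev f c)) b} := by
  exact measurable_ev f (L.closed_left k n b).measurableSet

/-- If `q` forces `a ≤ f`, then for each `k` some extension `q'` and some `n` are such that `q'`
forces `Cl k n a f`. -/
theorem exists_level {a : T} {f : ℕ → ℕ} {q : List Bool} (h : Cat q (L.Above a f)) (k : ℕ) :
    ∃ n q', q <:+ q' ∧ Cat q' {c | L.Cl k n a (L.op (ev f c))} := by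
  apply Cat.union (fun n => L.meas_cl_right k n a f)
  refine h.mono_set fun c hc => ?_
  obtain ⟨n, hn⟩ := (L.le_iff a (L.op (ev f c))).1 hc k
  exact Set.mem_iUnion.2 ⟨n, hn⟩

end LevelOrder

end Pool.Agent.CPr
end
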