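import Pool.Agent.Lib.MP_240d5c_lc.Mg.G003
import Pool.Agent.Lib.MP_240d5c_lc.Mg.G001
import Pool.Agent.Lib.MP_240d5c_lc.Mg.G002

section

set_option linter.unusedSectionVars false
set_option linter.unusedVariables false

/-!
# The Calkin order as a level order
-/

namespace Pool.Agent.CPr

open Filter Topology

variable (H : Type) [NormedAddCommGroup H] [InnerProductSpace ℂ H] [CompleteSpace H]
  [TopologicalSpace.SeparableSpace H]

/-- the operators whose class in the Calkin algebra is a projection -/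
def PD : Set (H →L[ℂ] H) := {T | IsCompactOperator ⇑(star T - T : H →L[ℂ] H) ∧
  IsCompactOperator ⇑(T * T - T : H →L[ℂ] H)}

variable {H}

/-- the order of the projections of the Calkin algebra -/
def ple (a b : H →L[ℂ] H) : Prop := IsCompactOperator ⇑(a * b - a : H →L[ℂ] H)

/-- the levels of the order -/
def PCl (k n : ℕ) (a b : H →L[ℂ] H) : Prop :=
  ‖(a * b - a) * (1 - EE H n)‖ ≤ 1 / ((k : ℝ) + 1)

theorem ple_iff (a b : H →L[ℂ] H) : ple a b ↔ ∀ k, ∃ n, PCl k n a b := compact_iff (a * b - a)

theorem ple_trans {a b c : H →L[ℂ] H} (h : ple a b) (h' : ple b c) : ple a c := by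
  unfold ple at h h' ⊢
  have h1 : IsCompactOperator ⇑(a * (b * c - b) : H →L[ℂ] H) := h'.clm_comp a
  have h2 : IsCompactOperator ⇑((a * b - a) * c : H →L[ℂ] H) := h.comp_clm c
  have h3 : a * c - a = a * (b * c - b) - (a * b - a) * c + (a * b - a) := by noncomm_ring
  rw [h3]
  exact (h1.sub h2).add h

variable {op : (ℕ → ℕ) → (H →L[ℂ] H)}

theorem closed_right (hop : ∀ v, Continuous fun y => op y v) (k n : ℕ) (a : H →L[ℂ] H) :
    IsClosed {y | PCl k n a (op y)} := by
  have hc : (0 : ℝ) ≤ 1 / ((k : ℝ) + 1) := by positivity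
  have h1 : {y | PCl k n a (op y)} = ⋂ v : H,
      {y | ‖a (op y ((1 - EE H n) v)) - a ((1 - EE H n) v)‖ ≤ 1 / ((k : ℝ) + 1) * ‖v‖} := by
    ext y
    simp only [Set.mem_ofPred_eq, Set.mem_iInter, PCl]
    exact ContinuousLinearMap.opNorm_le_iff hc
  rw [h1]
  refine isClosed_iInter fun v => isClosed_le ?_ continuous_const
  exact ((a.continuous.comp (hop _)).sub continuous_const).norm

theorem closed_left (hop : ∀ v, Continuous fun y => op y v) (k n : ℕ) (b : H →L[ℂ] H) :
    IsClosed {y | PCl k n (op y) b} := by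
  have hc : (0 : ℝ) ≤ 1 / ((k : ℝ) + 1) := by positivity
  have h1 : {y | PCl k n (op y) b} = ⋂ v : H,
      {y | ‖op y (b ((1 - EE H n) v)) - op y ((1 - EE H n) v)‖ ≤ 1 / ((k : ℝ) + 1) * ‖v‖} := by
    ext y
    simp only [Set.mem_ofPred_eq, Set.mem_iInter, PCl]
    exact ContinuousLinearMap.opNorm_le_iff hc
  rw [h1]
  refine isClosed_iInter fun v => isClosed_le ?_ continuous_const
  exact ((hop _).sub (hop _)).norm

theorem measD_norm_le_iff (T : H →L[ℂ] H) {c : ℝ} (hc : 0 ≤ c) :
    ‖T‖ ≤ c ↔ ∀ i, ‖T (TopologicalSpace.denseSeq H i)‖ ≤ c * ‖TopologicalSpace.denseSeq H i‖ := by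
  constructor
  · intro h i
    exact (T.le_opNorm _).trans (mul_le_mul_of_nonneg_right h (norm_nonneg _))
  · intro h
    refine T.opNorm_le_bound hc ?_
    have h1 : IsClosed {v : H | ‖T v‖ ≤ c * ‖v‖} :=
      isClosed_le T.continuous.norm (continuous_const.mul continuous_norm)
    have h2 : Dense (Set.range (TopologicalSpace.denseSeq H)) :=
      TopologicalSpace.denseRange_denseSeq H
    have h3 : Set.range (TopologicalSpace.denseSeq H) ⊆ {v : H | ‖T v‖ ≤ c * ‖v‖} := by
      rintro _ ⟨i, rfl⟩
      exact h i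
    intro v
    have h4 : v ∈ closure (Set.range (TopologicalSpace.denseSeq H)) := h2 v
    exact (closure_minimal h3 h1) h4

theorem measD_inner_le_iff (T : H →L[ℂ] H) {c : ℝ} (hc : 0 ≤ c) :
    ‖T‖ ≤ c ↔ ∀ u v, ‖inner ℂ u (T v)‖ ≤ c * ‖u‖ * ‖v‖ := by
  constructor
  · intro h u v
    have h1 := norm_inner_le_norm (𝕜 := ℂ) u (T v)
    have h2 : ‖T v‖ ≤ c * ‖v‖ := (T.le_opNorm _).trans (mul_le_mul_of_nonneg_right h (norm_nonneg _))
    calc ‖inner ℂ u (T v)‖ ≤ ‖u‖ * ‖T v‖ := h1
      _ ≤ ‖u‖ * (c * ‖v‖) := mul_le_mul_of_nonneg_left h2 (norm_nonneg _)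
      _ = c * ‖u‖ * ‖v‖ := by ring
  · intro h
    refine T.opNorm_le_bound hc fun v => ?_
    have h1 := h (T v) v
    rw [inner_self_eq_norm_sq_to_K, norm_pow] at h1
    simp only [Complex.coe_algebraMap, Complex.norm_real, norm_norm] at h1
    rcases (norm_nonneg (T v)).eq_or_lt with h2 | h2
    · rw [← h2]
      positivity
    · have h3 : ‖T v‖ * ‖T v‖ ≤ ‖T v‖ * (c * ‖v‖) := by nlinarith
      exact le_of_mul_le_mul_left h3 h2

theorem measD_selfadj (hop : ∀ v, Continuous fun y => op y v) (k n : ℕ) :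
    IsClosed {y | ‖(star (op y) - op y) * (1 - EE H n)‖ ≤ 1 / ((k : ℝ) + 1)} := by
  have hc : (0 : ℝ) ≤ 1 / ((k : ℝ) + 1) := by positivity
  have h1 : {y | ‖(star (op y) - op y) * (1 - EE H n)‖ ≤ 1 / ((k : ℝ) + 1)} = ⋂ u : H, ⋂ v : H,
      {y | ‖inner ℂ (op y u) ((1 - EE H n) v) - inner ℂ u (op y ((1 - EE H n) v))‖ ≤
        1 / ((k : ℝ) + 1) * ‖u‖ * ‖v‖} := by
    ext y
    simp only [Set.mem_ofPred_eq, Set.mem_iInter]
    rw [measD_inner_le_iff _ hc]
    refine forall_congr' fun u => forall_congr' fun v => ?_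
    have h2 : inner ℂ u (((star (op y) - op y) * (1 - EE H n)) v) =
        inner ℂ (op y u) ((1 - EE H n) v) - inner ℂ u (op y ((1 - EE H n) v)) := by
      show inner ℂ u (star (op y) ((1 - EE H n) v) - op y ((1 - EE H n) v)) = _
      rw [inner_sub_right, ContinuousLinearMap.star_eq_adjoint,
        ContinuousLinearMap.adjoint_inner_right]
    rw [h2]
  rw [h1]
  refine isClosed_iInter fun u => isClosed_iInter fun v => isClosed_le ?_ continuous_const
  exact ((((hop u).inner continuous_const)).sub (continuous_const.inner (hop _))).norm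

theorem measD_idem (hop : ∀ v, Continuous fun y => op y v) (k n : ℕ) :
    MeasurableSet {y | ‖(op y * op y - op y) * (1 - EE H n)‖ ≤ 1 / ((k : ℝ) + 1)} := by
  borelize H
  have : SecondCountableTopology H := inferInstance
  have hc : (0 : ℝ) ≤ 1 / ((k : ℝ) + 1) := by positivity
  have h1 : {y | ‖(op y * op y - op y) * (1 - EE H n)‖ ≤ 1 / ((k : ℝ) + 1)} = ⋂ i : ℕ,
      {y | ‖op y (op y ((1 - EE H n) (TopologicalSpace.denseSeq H i))) -
        op y ((1 - EE H n) (TopologicalSpace.denseSeq H i))‖ ≤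
          1 / ((k : ℝ) + 1) * ‖TopologicalSpace.denseSeq H i‖} := by
    ext y
    simp only [Set.mem_ofPred_eq, Set.mem_iInter]
    exact measD_norm_le_iff _ hc
  rw [h1]
  refine MeasurableSet.iInter fun i => measurableSet_le ?_ measurable_const
  have h2 : Measurable (Function.uncurry fun (v : H) (y : ℕ → ℕ) => op y v) :=
    MeasureTheory.measurable_uncurry_of_continuous_of_measurable (u := fun (v : H) (y : ℕ → ℕ) => op y v)
      (fun y => (op y).continuous) (fun v => (hop v).measurable)
  have h3 : Measurable fun y => op y (op y ((1 - EE H n) (TopologicalSpace.denseSeq H i))) :=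
    h2.comp ((hop ((1 - EE H n) (TopologicalSpace.denseSeq H i))).measurable.prodMk measurable_id)
  exact (h3.sub (hop _).measurable).norm

/-- `star (op y) - op y` compact: `compact_iff`; the set of `y` with
`‖(star (op y) - op y) * (1 - EE n)‖ ≤ ε` is closed, being described by the inner products
`⟪u, (star (op y) - op y) w⟫ = ⟪op y u, w⟫ - ⟪u, op y w⟫`.
`op y * op y - op y` compact: `y ↦ op y (op y w)` is measurable
(`measurable_uncurry_of_continuous_of_measurable` or an expansion in a basis). -/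
theorem measD (hop : ∀ v, Continuous fun y => op y v) : MeasurableSet {y | op y ∈ PD H} := by
  have h1 : {y | op y ∈ PD H} =
      (⋂ k : ℕ, ⋃ n, {y | ‖(star (op y) - op y) * (1 - EE H n)‖ ≤ 1 / ((k : ℝ) + 1)}) ∩
      (⋂ k : ℕ, ⋃ n, {y | ‖(op y * op y - op y) * (1 - EE H n)‖ ≤ 1 / ((k : ℝ) + 1)}) := by
    ext y
    simp only [Set.mem_ofPred_eq, Set.mem_inter_iff, Set.mem_iInter, Set.mem_iUnion, PD,
      compact_iff]
  rw [h1]
  refine MeasurableSet.inter ?_ ?_
  · exact MeasurableSet.iInter fun k => MeasurableSet.iUnion fun n =>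
      (measD_selfadj hop k n).measurableSet
  · exact MeasurableSet.iInter fun k => MeasurableSet.iUnion fun n => measD_idem hop k n

theorem lim_right_aux {S : H →L[ℂ] H} (c : ℝ) (h : ∀ k : ℕ, ∃ X : H →L[ℂ] H,
    IsCompactOperator ⇑X ∧ ‖S - X‖ ≤ c * (1 / ((k : ℝ) + 1))) : IsCompactOperator ⇑S := by
  have h1 : IsClosed {f : H →L[ℂ] H | IsCompactOperator ⇑f} := isClosed_setOfPred_isCompactOperator
  choose X hX hn using h
  have h2 : Tendsto X atTop (𝓝 S) := by
    rw [tendsto_iff_norm_sub_tendsto_zero]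
    have h3 : Tendsto (fun k : ℕ => c * (1 / ((k : ℝ) + 1))) atTop (𝓝 0) := by
      have := (tendsto_one_div_add_atTop_nhds_zero_nat (𝕜 := ℝ)).const_mul c
      simpa using this
    refine squeeze_zero (fun _ => norm_nonneg _) (fun k => ?_) h3
    rw [norm_sub_rev]
    exact hn k
  exact h1.mem_of_tendsto h2 (Eventually.of_forall hX)

theorem lim_right_fin (S : H →L[ℂ] H) (n : ℕ) :
    IsCompactOperator ⇑(S * EE H n : H →L[ℂ] H) :=
  (compact_of_finite (EE_fin H n)).clm_comp S

/-- `a t - a = (a - a b) (t - 1) + a (b t - b)` -/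
theorem lim_right (a t : H →L[ℂ] H) (h : ∀ k, ∃ b, ple a b ∧ ∃ n, PCl k n b t) : ple a t := by
  unfold ple
  refine lim_right_aux ‖a‖ fun k => ?_
  obtain ⟨b, hb, n, hn⟩ := h k
  have h1 : IsCompactOperator ⇑((a - a * b) * (t - 1) : H →L[ℂ] H) := by
    have h2 : IsCompactOperator ⇑(a - a * b : H →L[ℂ] H) := by
      have h3 := IsCompactOperator.neg hb
      have h4 : a - a * b = -(a * b - a) := by abel
      rw [h4]
      exact h3
    exact h2.comp_clm (t - 1)
  refine ⟨(a - a * b) * (t - 1) + (a * (b * t - b)) * EE H n, h1.add (lim_right_fin _ n), ?_⟩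
  have h5 : a * t - a - ((a - a * b) * (t - 1) + (a * (b * t - b)) * EE H n) =
      a * ((b * t - b) * (1 - EE H n)) := by noncomm_ring
  rw [h5]
  exact (norm_mul_le _ _).trans (mul_le_mul_of_nonneg_left hn (norm_nonneg _))

/-- `t b - t = (t - t a) (b - 1) + t (a b - a)`; for the first summand use that
`‖S * (1 - EE n)‖ ≤ ε` gives `S = (finite rank) + (norm ≤ ε)`. -/
theorem lim_left (b t : H →L[ℂ] H) (h : ∀ k, ∃ a, ple a b ∧ ∃ n, PCl k n t a) : ple t b := by
  unfold ple
  refine lim_right_aux ‖b - 1‖ fun k => ?_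
  obtain ⟨a, ha, n, hn⟩ := h k
  have h1 : IsCompactOperator ⇑(t * (a * b - a) : H →L[ℂ] H) := IsCompactOperator.clm_comp ha t
  have h2 : IsCompactOperator ⇑((t - t * a) * EE H n * (b - 1) : H →L[ℂ] H) :=
    (lim_right_fin (t - t * a) n).comp_clm (b - 1)
  refine ⟨(t - t * a) * EE H n * (b - 1) + t * (a * b - a), h2.add h1, ?_⟩
  have h5 : t * b - t - ((t - t * a) * EE H n * (b - 1) + t * (a * b - a)) =
      -((t * a - t) * (1 - EE H n)) * (b - 1) := by noncomm_ring
  rw [h5, mul_comm ‖b - 1‖]
  refine (norm_mul_le _ _).trans (mul_le_mul_of_nonneg_right ?_ (norm_nonneg _))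
  rw [norm_neg]
  exact hn

variable (H)

/-- the Calkin order as a level order -/
noncomputable def calkin : LevelOrder (H →L[ℂ] H) where
  D := PD H
  le := ple
  op := (exists_op H).choose
  surj t _ := (exists_op H).choose_spec.2 t
  measD := measD (exists_op H).choose_spec.1
  refl t ht := ht.2
  trans _ _ _ _ _ _ h h' := ple_trans h h'
  Cl := PCl
  le_iff := ple_iff
  closed_right := closed_right (exists_op H).choose_spec.1
  closed_left := closed_left (exists_op H).choose_spec.1
  lim_right a _ t _ h := lim_right a t fun k => by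
    obtain ⟨b, _, h1, h2⟩ := h k
    exact ⟨b, h1, h2⟩
  lim_left b _ t _ h := lim_left b t fun k => by
    obtain ⟨a, _, h1, h2⟩ := h k
    exact ⟨a, h1, h2⟩

end Pool.Agent.CPr
end

section

set_option linter.unusedSectionVars false
set_option linter.unusedVariables false

/-!
# Nested lifts and interpolation
-/

namespace Pool.Agent.CPr

open Filter Topology

variable {H : Type} [NormedAddCommGroup H] [InnerProductSpace ℂ H] [CompleteSpace H]
  [TopologicalSpace.SeparableSpace H]

theorem exists_nested_modL {p a b : H →L[ℂ] H} (h1 : IsCompactOperator ⇑(p - a : H →L[ℂ] H))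
    (h2 : IsCompactOperator ⇑(a * b - a : H →L[ℂ] H)) :
    IsCompactOperator ⇑(p * b - p : H →L[ℂ] H) := by
  have e : (p * b - p : H →L[ℂ] H) = ((p - a) * b - (p - a)) + (a * b - a) := by
    rw [sub_mul]; abel
  have h3 : IsCompactOperator ⇑((p - a) * b : H →L[ℂ] H) := h1.comp_clm b
  rw [e]
  exact (h3.sub h1).add h2

theorem exists_nested_modR {a b q : H →L[ℂ] H} (h1 : IsCompactOperator ⇑(q - b : H →L[ℂ] H))
    (h2 : IsCompactOperator ⇑(a * b - a : H →L[ℂ] H)) :
    IsCompactOperator ⇑(a * q - a : H →L[ℂ] H) := by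
  have e : (a * q - a : H →L[ℂ] H) = a * (q - b) + (a * b - a) := by
    rw [mul_sub]; abel
  have h3 : IsCompactOperator ⇑(a * (q - b) : H →L[ℂ] H) := h1.clm_comp a
  rw [e]
  exact h3.add h2

theorem exists_nested_zero : IsCompactOperator ⇑(0 : H →L[ℂ] H) := isCompactOperator_zero

/-- Lift an increasing and a decreasing sequence of projections of the Calkin algebra to nested
sequences of projections: `p 0 ≤ p 1 ≤ … ≤ q 1 ≤ q 0`.  By recursion with `exists_lift`:
`p (n+1)` between `p n` and `q n`, then `q (n+1)` between `p (n+1)` and `q n`. -/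
theorem exists_nested {a b : ℕ → (H →L[ℂ] H)} (ha : ∀ n, a n ∈ PD H) (hb : ∀ n, b n ∈ PD H)
    (haa : ∀ n, ple (a n) (a (n + 1))) (hbb : ∀ n, ple (b (n + 1)) (b n))
    (hab : ∀ m n, ple (a m) (b n)) :
    ∃ p q : ℕ → (H →L[ℂ] H), (∀ n, IsPr (p n)) ∧ (∀ n, IsPr (q n)) ∧
      (∀ n, p n * p (n + 1) = p n) ∧ (∀ n, q (n + 1) * q n = q (n + 1)) ∧
      (∀ n, p n * q n = p n) ∧
      (∀ n, IsCompactOperator ⇑(p n - a n : H →L[ℂ] H)) ∧
      ∀ n, IsCompactOperator ⇑(q n - b n : H →L[ℂ] H) := by
  classical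
  let St : ℕ → Type := fun n => {x : (H →L[ℂ] H) × (H →L[ℂ] H) // IsPr x.1 ∧ IsPr x.2 ∧
    x.1 * x.2 = x.1 ∧ IsCompactOperator ⇑(x.1 - a n : H →L[ℂ] H) ∧
    IsCompactOperator ⇑(x.2 - b n : H →L[ℂ] H)}
  have hz : IsPr (0 : H →L[ℂ] H) := ⟨star_zero _, mul_zero _⟩
  have ho : IsPr (1 : H →L[ℂ] H) := ⟨star_one _, mul_one _⟩
  have hbase : Nonempty (St 0) := by
    obtain ⟨p, hp1, -, -, hp4⟩ := exists_lift (t := a 0) hz ho (zero_mul _) (ha 0).1 (ha 0).2
      (by rw [zero_mul, sub_zero]; exact exists_nested_zero)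
      (by rw [mul_one, sub_self]; exact exists_nested_zero)
    obtain ⟨q, hq1, hq2, -, hq4⟩ := exists_lift (t := b 0) hp1 ho (mul_one _) (hb 0).1 (hb 0).2
      (exists_nested_modL hp4 (hab 0 0))
      (by rw [mul_one, sub_self]; exact exists_nested_zero)
    exact ⟨⟨(p, q), hp1, hq1, hq2, hp4, hq4⟩⟩
  have hstep : ∀ (n : ℕ) (x : St n), ∃ y : St (n + 1), x.1.1 * y.1.1 = x.1.1 ∧
      y.1.2 * x.1.2 = y.1.2 := by
    rintro n ⟨⟨p, q⟩, h1, h2, h3, h4, h5⟩
    obtain ⟨p', hp1, hp2, hp3, hp4⟩ := exists_lift (t := a (n + 1)) h1 h2 h3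
      (ha (n + 1)).1 (ha (n + 1)).2 (exists_nested_modL h4 (haa n))
      (exists_nested_modR h5 (hab (n + 1) n))
    obtain ⟨q', hq1, hq2, hq3, hq4⟩ := exists_lift (t := b (n + 1)) hp1 h2 hp3
      (hb (n + 1)).1 (hb (n + 1)).2 (exists_nested_modL hp4 (hab (n + 1) (n + 1)))
      (exists_nested_modR h5 (hbb n))
    exact ⟨⟨(p', q'), hp1, hq1, hq2, hp4, hq4⟩, hp2, hq3⟩
  choose F hF1 hF2 using hstep
  let X : ∀ n, St n := fun n => Nat.rec hbase.some (fun n x => F n x) n
  have hX : ∀ n, X (n + 1) = F n (X n) := fun n => rfl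
  refine ⟨fun n => (X n).1.1, fun n => (X n).1.2, fun n => (X n).2.1, fun n => (X n).2.2.1,
    fun n => ?_, fun n => ?_, fun n => (X n).2.2.2.1, fun n => (X n).2.2.2.2.1,
    fun n => (X n).2.2.2.2.2⟩
  · show (X n).1.1 * (X (n + 1)).1.1 = (X n).1.1
    rw [hX]
    exact hF1 n (X n)
  · show (X (n + 1)).1.2 * (X n).1.2 = (X (n + 1)).1.2
    rw [hX]
    exact hF2 n (X n)

theorem orth_exists_unit (V W : Submodule ℂ H) (hV : ¬ FiniteDimensional ℂ V)
    [FiniteDimensional ℂ W] : ∃ u ∈ V, ‖u‖ = 1 ∧ u ∈ Wᗮ := by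
  by_contra hcon
  apply hV
  have hinj : Function.Injective ((W.orthogonalProjectionOnto : H →ₗ[ℂ] W).comp V.subtype) := by
    rw [← LinearMap.ker_eq_bot, LinearMap.ker_eq_bot']
    rintro ⟨x, hx⟩ h0
    by_contra hx0
    have hxne : x ≠ 0 := fun h => hx0 (by ext; exact h)
    have h1 : W.orthogonalProjectionOnto x = 0 := h0
    rw [Submodule.orthogonalProjectionOnto_eq_zero_iff] at h1
    refine hcon ⟨((‖x‖⁻¹ : ℝ) : ℂ) • x, V.smul_mem _ hx, ?_, Wᗮ.smul_mem _ h1⟩
    rw [norm_smul]
    simp [norm_ne_zero_iff.2 hxne]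
  exact FiniteDimensional.of_injective _ hinj

/-- an orthonormal sequence with members in given infinite-dimensional subspaces -/
theorem exists_orthonormal (V : ℕ → Submodule ℂ H) (hV : ∀ n, ¬ FiniteDimensional ℂ (V n)) :
    ∃ v : ℕ → H, Orthonormal ℂ v ∧ ∀ n, v n ∈ V n := by
  classical
  have key : ∀ (n : ℕ) (s : Finset H), ∃ u ∈ V n, ‖u‖ = 1 ∧
      u ∈ (Submodule.span ℂ (s : Set H))ᗮ := fun n s =>
    orth_exists_unit (V n) (Submodule.span ℂ (s : Set H)) (hV n)
  choose g hg1 hg2 hg3 using key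
  let L : ℕ → Finset H := fun n => Nat.rec ∅ (fun n s => insert (g n s) s) n
  have hL : ∀ n, L (n + 1) = insert (g n (L n)) (L n) := fun n => rfl
  have hmem : ∀ m n, m < n → g m (L m) ∈ L n := by
    intro m n hmn
    induction n with
    | zero => exact absurd hmn (Nat.not_lt_zero m)
    | succ n ih =>
      rw [hL]
      rcases Nat.lt_succ_iff_lt_or_eq.1 hmn with h | h
      · exact Finset.mem_insert_of_mem (ih h)
      · rw [h]
        exact Finset.mem_insert_self _ _
  have horth : ∀ m n, m < n → inner ℂ (g m (L m)) (g n (L n)) = 0 := by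
    intro m n hmn
    exact (Submodule.mem_orthogonal _ _).1 (hg3 n (L n)) _
      (Submodule.subset_span (hmem m n hmn))
  refine ⟨fun n => g n (L n), ⟨fun n => hg2 n (L n), ?_⟩, fun n => hg1 n (L n)⟩
  intro m n hmn
  rcases lt_or_gt_of_ne hmn with h | h
  · exact horth m n h
  · exact inner_eq_zero_symm.1 (horth n m h)

/-- an operator with `T (v n) = v n` for infinitely many members of an orthonormal sequence is not
compact -/
theorem not_compact_of_fix {v : ℕ → H} (hv : Orthonormal ℂ v) {T : H →L[ℂ] H} (N : Set ℕ)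
    (hN : N.Infinite) (hT : ∀ n ∈ N, T (v n) = v n) : ¬ IsCompactOperator ⇑T := by
  intro hc
  obtain ⟨K, hK, hK'⟩ := hc.image_closedBall_subset_compact (𝕜₁ := ℂ) 1
  have := hN.to_subtype
  let φ : ℕ ↪ N := hN.natEmbedding
  let u : ℕ → H := fun k => v (φ k)
  have huK : ∀ k, u k ∈ K := by
    intro k
    apply hK'
    refine ⟨v (φ k), ?_, hT _ (φ k).2⟩
    rw [mem_closedBall_zero_iff, hv.1]
  obtain ⟨a, -, ψ, hψ, ha⟩ := hK.tendsto_subseq huK
  have hdist : ∀ k, 1 ≤ dist (u (ψ (k + 1))) (u (ψ k)) := by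
    intro k
    have hne : (φ (ψ (k + 1)) : ℕ) ≠ φ (ψ k) := by
      intro h
      have h1 := φ.injective (Subtype.ext h)
      have h2 := hψ (Nat.lt_succ_self k)
      rw [h1] at h2
      exact lt_irrefl _ h2
    have h0 : inner ℂ (u (ψ (k + 1))) (u (ψ k)) = 0 := hv.2 hne
    have h1 : ‖u (ψ (k + 1)) - u (ψ k)‖ ^ 2 = 2 := by
      rw [@norm_sub_sq ℂ, h0]
      have e1 : ‖u (ψ (k + 1))‖ = 1 := hv.1 _
      have e2 : ‖u (ψ k)‖ = 1 := hv.1 _
      rw [e1, e2]
      norm_num
    rw [dist_eq_norm]
    nlinarith [norm_nonneg (u (ψ (k + 1)) - u (ψ k))]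
  have hlim : Tendsto (fun k => dist (u (ψ (k + 1))) (u (ψ k))) atTop (𝓝 0) := by
    have h1 : Tendsto (fun k => (u ∘ ψ) (k + 1)) atTop (𝓝 a) := ha.comp (tendsto_add_atTop_nat 1)
    have h2 := h1.dist ha
    rw [dist_self] at h2
    exact h2
  have := ge_of_tendsto' hlim hdist
  norm_num at this

theorem exists_between_adj {T : H →L[ℂ] H} (h : FiniteDimensional ℂ T.range) :
    FiniteDimensional ℂ (star T : H →L[ℂ] H).range := by
  have hle : (star T : H →L[ℂ] H).range ≤ (T.range).map (star T : H →L[ℂ] H).toLinearMap := by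
    rintro _ ⟨y, rfl⟩
    refine ⟨(T.range).starProjection y, Submodule.starProjection_apply_mem _ _, ?_⟩
    have h1 : (star T : H →L[ℂ] H) (y - (T.range).starProjection y) = 0 := by
      apply ext_inner_left ℂ
      intro x
      rw [inner_zero_right, ContinuousLinearMap.star_eq_adjoint,
        ContinuousLinearMap.adjoint_inner_right]
      exact (Submodule.mem_orthogonal _ _).1
        (Submodule.sub_starProjection_mem_orthogonal y) (T x) ⟨x, rfl⟩
    rw [map_sub, sub_eq_zero] at h1
    exact h1.symm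
  exact Submodule.finiteDimensional_of_le hle

/-- The interpolation: `v n` is an orthonormal sequence with `v n` in the range of `q n - p n`.
Let `z` be the projection onto the closed subspace
`closure (⨆ n, range (p n) ⊔ span {v (2 n)}) ⊓ {v (2 n + 1)}ᗮ`. -/
theorem exists_between {p q : ℕ → (H →L[ℂ] H)} (hp : ∀ n, IsPr (p n)) (hq : ∀ n, IsPr (q n))
    (hpp : ∀ n, p n * p (n + 1) = p n) (hqq : ∀ n, q (n + 1) * q n = q (n + 1))
    (hpq : ∀ n, p n * q n = p n) {v : ℕ → H} (hv : Orthonormal ℂ v)
    (hv1 : ∀ n, p n (v n) = 0) (hv2 : ∀ n, q n (v n) = v n) :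
    ∃ z, IsPr z ∧ (∀ n, FiniteDimensional ℂ (p n * z - p n : H →L[ℂ] H).range) ∧
      (∀ n, FiniteDimensional ℂ (z * q n - z : H →L[ℂ] H).range) ∧
      (∀ k, z (v (2 * k)) = v (2 * k)) ∧ ∀ k, z (v (2 * k + 1)) = 0 := by
  classical
  -- consequences of the hypotheses
  have hppm : ∀ n m, n ≤ m → p n * p m = p n := by
    intro n m hnm
    induction m, hnm using Nat.le_induction with
    | base => exact (hp n).2
    | succ m _ ih =>
      calc p n * p (m + 1) = p n * p m * p (m + 1) := by rw [ih]
        _ = p n * (p m * p (m + 1)) := mul_assoc _ _ _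
        _ = p n := by rw [hpp, ih]
  have hqqm : ∀ n m, n ≤ m → q m * q n = q m := by
    intro n m hnm
    induction m, hnm using Nat.le_induction with
    | base => exact (hq n).2
    | succ m _ ih =>
      calc q (m + 1) * q n = q (m + 1) * q m * q n := by rw [hqq]
        _ = q (m + 1) * (q m * q n) := mul_assoc _ _ _
        _ = q (m + 1) := by rw [ih, hqq]
  have hpqm : ∀ m n, p m * q n = p m := by
    intro m n
    have h1 : p m * p (max m n) = p m := hppm m _ (le_max_left _ _)
    have h2 : q (max m n) * q n = q (max m n) := hqqm n _ (le_max_right _ _)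
    calc p m * q n = p m * p (max m n) * q n := by rw [h1]
      _ = p m * (p (max m n) * q (max m n)) * q n := by rw [hpq]
      _ = p m * p (max m n) * (q (max m n) * q n) := by simp only [mul_assoc]
      _ = p m * (p (max m n) * q (max m n)) := by rw [h2, mul_assoc]
      _ = p m := by rw [hpq, h1]
  have hqpm : ∀ m n, q n * p m = p m := by
    intro m n
    have := congrArg star (hpqm m n)
    rwa [star_mul, (hp m).1, (hq n).1] at this
  have hqqm' : ∀ n m, n ≤ m → q n * q m = q m := by
    intro n m hnm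
    have := congrArg star (hqqm n m hnm)
    rwa [star_mul, (hq m).1, (hq n).1] at this
  have hpsymm : ∀ n x y, inner ℂ (p n x) y = inner ℂ x (p n y) := by
    intro n x y
    have h1 : ContinuousLinearMap.adjoint (p n) = p n := (hp n).1
    rw [← ContinuousLinearMap.adjoint_inner_left, h1]
  -- the closed subspace
  let A : Submodule ℂ H := (⨆ n, (p n).range) ⊔ Submodule.span ℂ (Set.range fun k => v (2 * k))
  let B : Submodule ℂ H := Submodule.span ℂ (Set.range fun k => v (2 * k + 1))
  let Z : Submodule ℂ H := A.topologicalClosure ⊓ Bᗮ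
  have hZcl : IsClosed (Z : Set H) := by
    have h1 : (Z : Set H) = (A.topologicalClosure : Set H) ∩ (Bᗮ : Set H) := rfl
    rw [h1]
    exact (Submodule.isClosed_topologicalClosure A).inter (Submodule.isClosed_orthogonal B)
  have : CompleteSpace Z := hZcl.completeSpace_coe
  have hzstar : star Z.starProjection = Z.starProjection :=
    (isStarProjection_starProjection (U := Z)).isSelfAdjoint
  have hzidem : Z.starProjection * Z.starProjection = Z.starProjection :=
    (isStarProjection_starProjection (U := Z)).isIdempotentElem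
  have hzmem : ∀ x ∈ Z, Z.starProjection x = x := fun x hx =>
    Submodule.starProjection_eq_self_iff.2 hx
  have hBorth : ∀ x, (∀ k, inner ℂ (v (2 * k + 1)) x = 0) → x ∈ Bᗮ := by
    intro x hx
    rw [Submodule.mem_orthogonal]
    intro y hy
    induction hy using Submodule.span_induction with
    | mem y hy =>
      obtain ⟨k, rfl⟩ := hy
      exact hx k
    | zero => exact inner_zero_left _
    | add y z _ _ h1 h2 => rw [inner_add_left, h1, h2, add_zero]
    | smul c y _ h1 => rw [inner_smul_left, h1, mul_zero]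
  refine ⟨Z.starProjection, ⟨hzstar, hzidem⟩, ?_, ?_, ?_, ?_⟩
  · intro n
    -- the adjoint
    have hfin : FiniteDimensional ℂ (Z.starProjection * p n - p n : H →L[ℂ] H).range := by
      let F : Submodule ℂ H := Submodule.span ℂ
        ((Finset.range n).image fun j => p n (v j) : Finset H)
      have hF : FiniteDimensional ℂ F := inferInstance
      have hle : (Z.starProjection * p n - p n : H →L[ℂ] H).range ≤
          F.map (Z.starProjection - 1 : H →L[ℂ] H).toLinearMap := by
        rintro _ ⟨y, rfl⟩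
        refine ⟨F.starProjection (p n y), Submodule.starProjection_apply_mem _ _, ?_⟩
        have hFp : ∀ f ∈ F, p n f = f := by
          intro f hf
          induction hf using Submodule.span_induction with
          | mem f hf =>
            simp only [Finset.coe_image, Set.mem_image] at hf
            obtain ⟨j, -, rfl⟩ := hf
            have := DFunLike.congr_fun (hp n).2 (v j)
            exact this
          | zero => exact map_zero _
          | add y z _ _ h1 h2 => rw [map_add, h1, h2]
          | smul c y _ h1 => rw [map_smul, h1]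
        have hx : p n y - F.starProjection (p n y) ∈ Z := by
          have hpx : p n (p n y - F.starProjection (p n y)) = p n y - F.starProjection (p n y) := by
            rw [map_sub, hFp _ (Submodule.starProjection_apply_mem _ _)]
            congr 1
            exact DFunLike.congr_fun (hp n).2 y
          refine ⟨?_, hBorth _ fun k => ?_⟩
          · apply Submodule.le_topologicalClosure
            apply Submodule.mem_sup_left
            exact Submodule.mem_iSup_of_mem n ⟨_, hpx⟩
          · rw [← hpx, ← hpsymm]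
            by_cases hk : 2 * k + 1 < n
            · exact (Submodule.mem_orthogonal _ _).1
                (Submodule.sub_starProjection_mem_orthogonal _) _
                (Submodule.subset_span (by
                  simp only [Finset.coe_image, Set.mem_image]
                  exact ⟨2 * k + 1, by simpa using hk, rfl⟩))
            · have h1 : p n (v (2 * k + 1)) = 0 := by
                have h2 := DFunLike.congr_fun (hppm n (2 * k + 1) (not_lt.1 hk)) (v (2 * k + 1))
                have h3 : (p n * p (2 * k + 1)) (v (2 * k + 1)) =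
                    p n (p (2 * k + 1) (v (2 * k + 1))) := rfl
                rw [h3, hv1, map_zero] at h2
                exact h2.symm
              rw [h1, inner_zero_left]
        have h4 := hzmem _ hx
        rw [map_sub] at h4
        show Z.starProjection (F.starProjection (p n y)) - F.starProjection (p n y) =
          Z.starProjection (p n y) - p n y
        have h5 : Z.starProjection (p n y) = Z.starProjection (F.starProjection (p n y)) +
          (p n y - F.starProjection (p n y)) := by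
            rw [← h4]; abel
        rw [h5]
        abel
      exact Submodule.finiteDimensional_of_le hle
    have h1 := exists_between_adj hfin
    rwa [star_sub, star_mul, (hp n).1, hzstar] at h1
  · intro n
    have hfin : FiniteDimensional ℂ (q n * Z.starProjection - Z.starProjection :
        H →L[ℂ] H).range := by
      let F : Submodule ℂ H := Submodule.span ℂ
        ((Finset.range n).image fun j => (q n - 1) (v j) : Finset H)
      have hF : FiniteDimensional ℂ F := inferInstance
      have hFcl : IsClosed (F : Set H) := Submodule.closed_of_finiteDimensional F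
      have hA : ∀ x ∈ A.topologicalClosure, (q n - 1 : H →L[ℂ] H) x ∈ F := by
        have h1 : A ≤ F.comap (q n - 1 : H →L[ℂ] H).toLinearMap := by
          refine sup_le (iSup_le fun m => ?_) (Submodule.span_le.2 ?_)
          · rintro _ ⟨y, rfl⟩
            show (q n - 1 : H →L[ℂ] H) (p m y) ∈ F
            have h2 : (q n - 1 : H →L[ℂ] H) (p m y) = 0 := by
              have h3 := DFunLike.congr_fun (hqpm m n) y
              have h4 : q n (p m y) = p m y := h3
              show q n (p m y) - p m y = 0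
              rw [h4, sub_self]
            rw [h2]
            exact F.zero_mem
          · rintro _ ⟨k, rfl⟩
            show (q n - 1 : H →L[ℂ] H) (v (2 * k)) ∈ F
            by_cases hk : 2 * k < n
            · exact Submodule.subset_span (by
                simp only [Finset.coe_image, Set.mem_image]
                exact ⟨2 * k, by simpa using hk, rfl⟩)
            · have h2 : (q n - 1 : H →L[ℂ] H) (v (2 * k)) = 0 := by
                have h3 := DFunLike.congr_fun (hqqm' n (2 * k) (not_lt.1 hk)) (v (2 * k))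
                have h4 : q n (q (2 * k) (v (2 * k))) = q (2 * k) (v (2 * k)) := h3
                rw [hv2] at h4
                show q n (v (2 * k)) - v (2 * k) = 0
                rw [h4, sub_self]
              rw [h2]
              exact F.zero_mem
        have h2 : A.topologicalClosure ≤ F.comap (q n - 1 : H →L[ℂ] H).toLinearMap := by
          apply Submodule.topologicalClosure_minimal _ h1
          exact hFcl.preimage (q n - 1 : H →L[ℂ] H).continuous
        exact h2
      have hle : (q n * Z.starProjection - Z.starProjection : H →L[ℂ] H).range ≤ F := by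
        rintro _ ⟨y, rfl⟩
        have h1 : Z.starProjection y ∈ Z := Submodule.starProjection_apply_mem _ _
        exact hA _ h1.1
      exact Submodule.finiteDimensional_of_le hle
    have h1 := exists_between_adj hfin
    rwa [star_sub, star_mul, (hq n).1, hzstar] at h1
  · intro k
    apply hzmem
    refine ⟨?_, hBorth _ fun j => ?_⟩
    · apply Submodule.le_topologicalClosure
      apply Submodule.mem_sup_right
      exact Submodule.subset_span ⟨k, rfl⟩
    · exact hv.2 (by omega)
  · intro k
    rw [Submodule.starProjection_apply_eq_zero_iff]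
    rw [Submodule.mem_orthogonal]
    rintro u ⟨-, hu⟩
    exact inner_eq_zero_symm.1 ((Submodule.mem_orthogonal _ _).1 hu _
      (Submodule.subset_span ⟨k, rfl⟩))

/-- A countable nonempty chain has a weakly increasing cofinal sequence. -/
theorem exists_cofinal_seq {T : Type} (L : LevelOrder T) {A : Set T} (hA : A.Countable)
    (hAD : A ⊆ L.D) (hne : A.Nonempty) (hc : ∀ a ∈ A, ∀ b ∈ A, L.le a b ∨ L.le b a) :
    ∃ a : ℕ → T, (∀ n, a n ∈ A) ∧ (∀ n, L.le (a n) (a (n + 1))) ∧ ∀ x ∈ A, ∃ n, L.le x (a n) := by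
  classical
  obtain ⟨g, hg⟩ := hA.exists_eq_range hne
  have hgA : ∀ n, g n ∈ A := fun n => by rw [hg]; exact ⟨n, rfl⟩
  let a : ℕ → T := fun n => Nat.rec (g 0) (fun n x => if L.le x (g (n + 1)) then g (n + 1) else x) n
  have ha0 : a 0 = g 0 := rfl
  have has : ∀ n, a (n + 1) = if L.le (a n) (g (n + 1)) then g (n + 1) else a n := fun n => rfl
  have haA : ∀ n, a n ∈ A := by
    intro n
    induction n with
    | zero => exact hgA 0
    | succ n ih =>
      rw [has]
      split_ifs
      · exact hgA _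
      · exact ih
  refine ⟨a, haA, fun n => ?_, fun x hx => ?_⟩
  · rw [has]
    split_ifs with h
    · exact h
    · exact L.refl _ (hAD (haA n))
  · rw [hg] at hx
    obtain ⟨n, rfl⟩ := hx
    refine ⟨n, ?_⟩
    cases n with
    | zero => exact L.refl _ (hAD (hgA 0))
    | succ n =>
      rw [has]
      split_ifs with h
      · exact L.refl _ (hAD (hgA _))
      · exact (hc _ (haA n) _ (hgA (n + 1))).resolve_left h

theorem sat_calkin_cadd {S T : H →L[ℂ] H} (hS : IsCompactOperator ⇑S) (hT : IsCompactOperator ⇑T) :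
    IsCompactOperator ⇑(S + T : H →L[ℂ] H) := by
  rw [ContinuousLinearMap.coe_add']
  exact hS.add hT

theorem sat_calkin_csub {S T : H →L[ℂ] H} (hS : IsCompactOperator ⇑S) (hT : IsCompactOperator ⇑T) :
    IsCompactOperator ⇑(S - T : H →L[ℂ] H) := by
  rw [ContinuousLinearMap.coe_sub']
  exact hS.sub hT

theorem sat_calkin_cneg {S : H →L[ℂ] H} (hS : IsCompactOperator ⇑S) :
    IsCompactOperator ⇑(-S : H →L[ℂ] H) := by
  rw [ContinuousLinearMap.coe_neg']
  exact hS.neg

theorem sat_calkin_cl {S : H →L[ℂ] H} (T : H →L[ℂ] H) (hS : IsCompactOperator ⇑S) :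
    IsCompactOperator ⇑(T * S : H →L[ℂ] H) := hS.clm_comp T

theorem sat_calkin_cr {S : H →L[ℂ] H} (T : H →L[ℂ] H) (hS : IsCompactOperator ⇑S) :
    IsCompactOperator ⇑(S * T : H →L[ℂ] H) := hS.comp_clm T

theorem sat_calkin_c0 : IsCompactOperator ⇑(0 : H →L[ℂ] H) := by
  rw [ContinuousLinearMap.coe_zero']
  exact isCompactOperator_zero

/-- strict betweenness for weakly monotone sequences -/
theorem sat_calkin_seq {a b : ℕ → (H →L[ℂ] H)} (ha : ∀ n, a n ∈ PD H) (hb : ∀ n, b n ∈ PD H)
    (haa : ∀ n, ple (a n) (a (n + 1))) (hbb : ∀ n, ple (b (n + 1)) (b n))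
    (hab : ∀ m n, ple (a m) (b n)) (hba : ∀ n, ¬ ple (b n) (a n)) :
    ∃ z ∈ PD H, (∀ n, ple (a n) z ∧ ¬ ple z (a n)) ∧ ∀ n, ple z (b n) ∧ ¬ ple (b n) z := by
  obtain ⟨p, q, hp, hq, hpp, hqq, hpq, hpa, hqb⟩ := exists_nested ha hb haa hbb hab
  have hV : ∀ n, ¬ FiniteDimensional ℂ ((q n - p n : H →L[ℂ] H).range) := by
    intro n hfin
    apply hba n
    have h1 : IsCompactOperator ⇑(q n - p n : H →L[ℂ] H) := compact_of_finite hfin
    have h2 : IsCompactOperator ⇑(a n - b n : H →L[ℂ] H) := by
      have e : (a n - b n : H →L[ℂ] H) = (q n - b n) - (q n - p n) - (p n - a n) := by abel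
      rw [e]
      exact sat_calkin_csub (sat_calkin_csub (hqb n) h1) (hpa n)
    have e : (b n * a n - b n : H →L[ℂ] H) = b n * (a n - b n) + (b n * b n - b n) := by
      noncomm_ring
    show IsCompactOperator ⇑(b n * a n - b n : H →L[ℂ] H)
    rw [e]
    exact sat_calkin_cadd (sat_calkin_cl _ h2) (hb n).2
  obtain ⟨v, hv, hvV⟩ := exists_orthonormal _ hV
  have hqp : ∀ n, q n * p n = p n := by
    intro n
    have h := congrArg star (hpq n)
    rw [star_mul, (hp n).1, (hq n).1] at h
    exact h
  have hv1 : ∀ n, p n (v n) = 0 := by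
    intro n
    obtain ⟨w, hw⟩ := hvV n
    have hw' : (q n - p n : H →L[ℂ] H) w = v n := hw
    rw [← hw']
    have e : (p n * (q n - p n) : H →L[ℂ] H) = 0 := by
      rw [mul_sub, hpq, (hp n).2, sub_self]
    have := congrArg (fun T : H →L[ℂ] H => T w) e
    simpa using this
  have hv2 : ∀ n, q n (v n) = v n := by
    intro n
    obtain ⟨w, hw⟩ := hvV n
    have hw' : (q n - p n : H →L[ℂ] H) w = v n := hw
    rw [← hw']
    have e : (q n * (q n - p n) : H →L[ℂ] H) = q n - p n := by
      rw [mul_sub, hqp, (hq n).2]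
    exact congrArg (fun T : H →L[ℂ] H => T w) e
  obtain ⟨z, hz, hpz, hzq, hz2, hz1⟩ := exists_between hp hq hpp hqq hpq hv hv1 hv2
  -- monotonicity
  have hpmono : ∀ n m, n ≤ m → p n * p m = p n := by
    intro n m hnm
    induction m, hnm using Nat.le_induction with
    | base => exact (hp n).2
    | succ m _ ih => rw [← ih, mul_assoc, hpp, ih]
  have hqmono : ∀ n m, n ≤ m → q m * q n = q m := by
    intro n m hnm
    induction m, hnm using Nat.le_induction with
    | base => exact (hq n).2
    | succ m _ ih => rw [← hqq m, mul_assoc, ih]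
  have hpv : ∀ n m, n ≤ m → p n (v m) = 0 := by
    intro n m hnm
    have h := congrArg (fun T : H →L[ℂ] H => T (v m)) (hpmono n m hnm)
    have h' : p n (p m (v m)) = p n (v m) := h
    rw [← h', hv1, map_zero]
  have hqv : ∀ n m, n ≤ m → q n (v m) = v m := by
    intro n m hnm
    have h0 : q n * q m = q m := by
      have h := congrArg star (hqmono n m hnm)
      rw [star_mul, (hq n).1, (hq m).1] at h
      exact h
    have h := congrArg (fun T : H →L[ℂ] H => T (v m)) h0
    have h' : q n (q m (v m)) = q m (v m) := h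
    rwa [hv2] at h'
  have hap : ∀ n, IsCompactOperator ⇑(a n - p n : H →L[ℂ] H) := by
    intro n
    have := sat_calkin_cneg (hpa n)
    rwa [neg_sub] at this
  have hbq : ∀ n, IsCompactOperator ⇑(b n - q n : H →L[ℂ] H) := by
    intro n
    have := sat_calkin_cneg (hqb n)
    rwa [neg_sub] at this
  refine ⟨z, ⟨?_, ?_⟩, fun n => ⟨?_, ?_⟩, fun n => ⟨?_, ?_⟩⟩
  · rw [hz.1, sub_self]; exact sat_calkin_c0
  · rw [hz.2, sub_self]; exact sat_calkin_c0
  · have e : (a n * z - a n : H →L[ℂ] H) = (a n - p n) * z - (a n - p n) + (p n * z - p n) := by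
      noncomm_ring
    show IsCompactOperator ⇑(a n * z - a n : H →L[ℂ] H)
    rw [e]
    exact sat_calkin_cadd (sat_calkin_csub (sat_calkin_cr _ (hap n)) (hap n))
      (compact_of_finite (hpz n))
  · intro hc
    have hc' : IsCompactOperator ⇑(z * a n - z : H →L[ℂ] H) := hc
    have hcT : IsCompactOperator ⇑(z - z * p n : H →L[ℂ] H) := by
      have e : (z - z * p n : H →L[ℂ] H) = -(z * (p n - a n) + (z * a n - z)) := by
        noncomm_ring
      rw [e]
      exact sat_calkin_cneg (sat_calkin_cadd (sat_calkin_cl _ (hpa n)) hc')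
    refine not_compact_of_fix hv {m | ∃ k, m = 2 * k ∧ n ≤ m} ?_ ?_ hcT
    · rw [Set.infinite_iff_exists_gt] 
      intro N
      exact ⟨2 * (N + n + 1), ⟨N + n + 1, rfl, by omega⟩, by omega⟩
    · rintro m ⟨k, rfl, hk⟩
      show z (v (2 * k)) - z (p n (v (2 * k))) = v (2 * k)
      rw [hpv n _ hk, map_zero, sub_zero, hz2]
  · have e : (z * b n - z : H →L[ℂ] H) = z * (b n - q n) + (z * q n - z) := by
      noncomm_ring
    show IsCompactOperator ⇑(z * b n - z : H →L[ℂ] H)
    rw [e]
    exact sat_calkin_cadd (sat_calkin_cl _ (hbq n)) (compact_of_finite (hzq n))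
  · intro hc
    have hc' : IsCompactOperator ⇑(b n * z - b n : H →L[ℂ] H) := hc
    have hcT : IsCompactOperator ⇑(q n - q n * z : H →L[ℂ] H) := by
      have e : (q n - q n * z : H →L[ℂ] H)
          = -((q n - b n) * z - (q n - b n) + (b n * z - b n)) := by
        noncomm_ring
      rw [e]
      exact sat_calkin_cneg (sat_calkin_cadd
        (sat_calkin_csub (sat_calkin_cr _ (hqb n)) (hqb n)) hc')
    refine not_compact_of_fix hv {m | ∃ k, m = 2 * k + 1 ∧ n ≤ m} ?_ ?_ hcT
    · rw [Set.infinite_iff_exists_gt]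
      intro N
      exact ⟨2 * (N + n + 1) + 1, ⟨N + n + 1, rfl, by omega⟩, by omega⟩
    · rintro m ⟨k, rfl, hk⟩
      show q n (v (2 * k + 1)) - q n (z (v (2 * k + 1))) = v (2 * k + 1)
      rw [hz1, map_zero, sub_zero, hqv n _ hk]

/-- The projections of the Calkin algebra are countably saturated.
Take increasing `a n` and decreasing `b n` (`exists_cofinal_seq` for `L` and `L.dual`), nested lifts
`p n`, `q n`, `V n` the range of `q n - p n` (infinite-dimensional since `b n` is not below `a n`),
`v n` from `exists_orthonormal` and `z` from `exists_between`. -/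
theorem sat_calkin : Sat (calkin H) := by
  refine ⟨⟨0, ⟨?_, ?_⟩, fun t ht => ?_⟩, ⟨1, ⟨?_, ?_⟩, fun t ht => ?_⟩, ?_⟩
  · rw [star_zero, sub_self]; exact sat_calkin_c0
  · rw [mul_zero, sub_self]; exact sat_calkin_c0
  · show IsCompactOperator ⇑(0 * t - 0 : H →L[ℂ] H)
    rw [zero_mul, sub_self]; exact sat_calkin_c0
  · rw [star_one, sub_self]; exact sat_calkin_c0
  · rw [mul_one, sub_self]; exact sat_calkin_c0
  · show IsCompactOperator ⇑(t * 1 - t : H →L[ℂ] H)
    rw [mul_one, sub_self]; exact sat_calkin_c0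
  intro A B hA hB hAD hBD hAne hBne hAc hBc hAB
  obtain ⟨a, haA, haa, hacof⟩ := exists_cofinal_seq (calkin H) hA hAD hAne hAc
  obtain ⟨b, hbB, hbb, hbcof⟩ := exists_cofinal_seq (calkin H).dual hB hBD hBne
    (fun x hx y hy => (hBc x hx y hy).symm)
  obtain ⟨z, hzD, hza, hzb⟩ := sat_calkin_seq (fun n => hAD (haA n)) (fun n => hBD (hbB n))
    haa hbb (fun m n => (hAB _ (haA m) _ (hbB n)).1) (fun n => (hAB _ (haA n) _ (hbB n)).2)
  refine ⟨z, hzD, fun x hx => ?_, fun x hx => ?_⟩
  · obtain ⟨n, hn⟩ := hacof x hx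
    refine ⟨ple_trans (hn : ple x (a n)) (hza n).1, fun h => ?_⟩
    exact (hza n).2 (ple_trans (h : ple z x) hn)
  · obtain ⟨n, hn⟩ := hbcof x hx
    have hn' : ple (b n) x := hn
    refine ⟨ple_trans (hzb n).1 hn', fun h => ?_⟩
    exact (hzb n).2 (ple_trans hn' (h : ple x z))

end Pool.Agent.CPr
end
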